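import Pool.Agent.Helper75.MG.Mis

/-!
# Project MG, piece C2: finite measurable colourings

Iterate `exists_mis`: `A_0 = X`, `C_j` maximal independent in `A_j`, `A_(j+1) = A_j minus C_j`,
for `j ≤ M`. A point of `A_(M+1)` would have `M + 1` distinct `R`-neighbours (one in each `C_j`, `j ≤ M`), but
all its `R`-neighbours are among the `M` points `w k x`. So the `C_j`, `j ≤ M`, partition `X`; `c x` = the `j`
with `x ∈ C_j`.
-/

namespace Pool.Agent.Helper75.MG

open MeasureTheory

theorem exists_colouring {X : Type} [MeasurableSpace X] [StandardBorelSpace X] {M : ℕ}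
    (w : Fin M → X → X) (hw : ∀ k, Measurable (w k)) (R : Set (X × X)) (hR : MeasurableSet R)
    (hsym : ∀ x y, (x, y) ∈ R → (y, x) ∈ R) (hirr : ∀ x, (x, x) ∉ R)
    (hb : ∀ x y, (x, y) ∈ R → ∃ k, w k x = y) :
    ∃ c : X → Fin (M + 1), Measurable c ∧ ∀ x y, (x, y) ∈ R → c x ≠ c y := by
  classical
  choose! C hCm hCA hCi hCd using exists_mis w hw R hR hsym hirr hb
  obtain ⟨A, hA0, hAs⟩ : ∃ A : ℕ → Set X, A 0 = Set.univ ∧ ∀ j, A (j + 1) = A j \ C (A j) :=
    ⟨fun j => Nat.rec Set.univ (fun _ S => S \ C S) j, rfl, fun _ => rfl⟩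
  have hAm : ∀ j, MeasurableSet (A j) := by
    intro j
    induction j with
    | zero => rw [hA0]; exact MeasurableSet.univ
    | succ j ih => rw [hAs]; exact ih.diff (hCm _ ih)
  have hanti : ∀ i j, i ≤ j → A j ⊆ A i := by
    intro i j hij
    induction j, hij using Nat.le_induction with
    | base => exact subset_rfl
    | succ j _ ih =>
      rw [hAs]
      exact Set.sdiff_subset.trans ih
  have hdisj : ∀ i j, i < j → ∀ x, x ∈ C (A i) → x ∉ A j := by
    intro i j hij x hx hxj
    have h1 := hanti (i + 1) j hij hxj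
    rw [hAs] at h1
    exact h1.2 hx
  have hex : ∀ x, ∃ j : Fin (M + 1), x ∈ C (A j) := by
    intro x
    by_contra hcon
    push Not at hcon
    have hx : ∀ j, j ≤ M + 1 → x ∈ A j := by
      intro j
      induction j with
      | zero => intro _; rw [hA0]; trivial
      | succ j ih =>
        intro hj
        rw [hAs]
        exact ⟨ih (by omega), hcon ⟨j, by omega⟩⟩
    have hy : ∀ j : Fin (M + 1), ∃ k : Fin M, w k x ∈ C (A j) := by
      intro j
      rcases hCd (A j) (hAm j) x (hx j (by omega)) with h | ⟨y, hy, hxy⟩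
      · exact absurd h (hcon j)
      · obtain ⟨k, hk⟩ := hb x y hxy
        exact ⟨k, by rw [hk]; exact hy⟩
    choose k hk using hy
    obtain ⟨i, j, hij, hkk⟩ := Fintype.exists_ne_map_eq_of_card_lt k (by simp)
    have hi := hk i
    have hj := hk j
    rw [hkk] at hi
    rcases lt_or_gt_of_ne hij with h | h
    · exact hdisj i j h _ hi (hCA _ (hAm j) hj)
    · exact hdisj j i h _ hj (hCA _ (hAm i) hi)
  choose c hc using hex
  have huniq : ∀ x (j : Fin (M + 1)), x ∈ C (A j) → c x = j := by
    intro x j hx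
    by_contra hne
    rcases lt_or_gt_of_ne hne with h | h
    · exact hdisj (c x) j h _ (hc x) (hCA _ (hAm j) hx)
    · exact hdisj j (c x) h _ hx (hCA _ (hAm (c x)) (hc x))
  refine ⟨c, measurable_to_countable' fun j => ?_, ?_⟩
  · have : c ⁻¹' {j} = C (A j) := by
      ext x
      constructor
      · intro h
        have h1 : c x = j := h
        rw [← h1]
        exact hc x
      · exact huniq x j
    rw [this]
    exact hCm _ (hAm j)
  · intro x y hxy hcc
    have hx := hc x
    have hy := hc y
    rw [← hcc] at hy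
    exact hCi _ (hAm _) x hx y hy hxy

end Pool.Agent.Helper75.MG
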