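import Pool.Agent.Helper75.MG.Defs

/-!
# Project MG, piece B: measurable enumeration of the neighbours

Lusin-Souslin. Let `e : X → ℝ` be a measurable injection (`MeasureTheory.measurableEmbedding_embeddingReal`
or similar). The set `P = {(x, y1, y2, y3) | x ~ y1, x ~ y2, x ~ y3, e y1 < e y2 < e y3}` is a
measurable subset of the standard Borel space `X × X × X × X` and the first projection is
injective on `P` and maps `P` onto `X` (exactly three neighbours). For measurable `B`, the set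
`{x | t i x ∈ B}` is the projection of `P ∩ {y_i ∈ B}`, measurable by
`MeasurableSet.image_of_measurable_injOn` (check the exact name).
-/

namespace Pool.Agent.Helper75.MG

open MeasureTheory

private theorem Enum_sort {X : Type} (e : X → ℝ) (he : Function.Injective e) {a b c : X}
    (hab : a ≠ b) (hac : a ≠ c) (hbc : b ≠ c) :
    ∃ y0 y1 y2 : X, e y0 < e y1 ∧ e y1 < e y2 ∧ ({a, b, c} : Set X) = {y0, y1, y2} := by
  have h1 : e a ≠ e b := fun h => hab (he h)
  have h2 : e a ≠ e c := fun h => hac (he h)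
  have h3 : e b ≠ e c := fun h => hbc (he h)
  rcases lt_or_gt_of_ne h1 with k1 | k1 <;> rcases lt_or_gt_of_ne h2 with k2 | k2 <;>
    rcases lt_or_gt_of_ne h3 with k3 | k3
  · exact ⟨a, b, c, k1, k3, rfl⟩
  · exact ⟨a, c, b, k2, k3, by ext; simp; tauto⟩
  · exfalso; linarith
  · exact ⟨c, a, b, k2, k1, by ext; simp; tauto⟩
  · exact ⟨b, a, c, k1, k2, by ext; simp; tauto⟩
  · exfalso; linarith
  · exact ⟨b, c, a, k3, k2, by ext; simp; tauto⟩
  · exact ⟨c, b, a, k3, k1, by ext; simp; tauto⟩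

private theorem Enum_uniq {X : Type} (e : X → ℝ) {y0 y1 y2 z0 z1 z2 : X}
    (h1 : e y0 < e y1) (h2 : e y1 < e y2) (k1 : e z0 < e z1) (k2 : e z1 < e z2)
    (m0 : z0 ∈ ({y0, y1, y2} : Set X)) (m1 : z1 ∈ ({y0, y1, y2} : Set X))
    (m2 : z2 ∈ ({y0, y1, y2} : Set X)) : z0 = y0 ∧ z1 = y1 ∧ z2 = y2 := by
  simp only [Set.mem_insert_iff, Set.mem_singleton_iff] at m0 m1 m2
  rcases m0 with rfl | rfl | rfl <;> rcases m1 with rfl | rfl | rfl <;>
    rcases m2 with rfl | rfl | rfl <;>
    first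
      | exact ⟨rfl, rfl, rfl⟩
      | (exfalso; linarith)

theorem exists_enum (X : Type) [MeasurableSpace X] [StandardBorelSpace X] (G : SimpleGraph X)
    (hG : MeasurableSet {z : X × X | G.Adj z.1 z.2}) (h3 : ∀ x, (G.neighborSet x).ncard = 3) :
    ∃ t : Fin 3 → X → X, (∀ i, Measurable (t i)) ∧ (∀ x i j, t i x = t j x → i = j) ∧
      ∀ x y, G.Adj x y ↔ ∃ i, t i x = y := by
  obtain ⟨e, he⟩ := exists_measurableEmbedding_real X
  have hem : Measurable e := he.measurable
  have hei : Function.Injective e := he.injective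
  have hex : ∀ x, ∃ y0 y1 y2 : X, e y0 < e y1 ∧ e y1 < e y2 ∧
      G.neighborSet x = {y0, y1, y2} := by
    intro x
    obtain ⟨a, b, c, hab, hac, hbc, hs⟩ := Set.ncard_eq_three.1 (h3 x)
    obtain ⟨y0, y1, y2, k1, k2, k3⟩ := Enum_sort e hei hab hac hbc
    exact ⟨y0, y1, y2, k1, k2, hs.trans k3⟩
  choose y0 y1 y2 k1 k2 k3 using hex
  set P : Set (X × X × X × X) := {z | (G.Adj z.1 z.2.1 ∧ G.Adj z.1 z.2.2.1 ∧ G.Adj z.1 z.2.2.2) ∧
    e z.2.1 < e z.2.2.1 ∧ e z.2.2.1 < e z.2.2.2} with hP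
  have q0 : Measurable fun z : X × X × X × X => z.2.1 := measurable_fst.comp measurable_snd
  have q1 : Measurable fun z : X × X × X × X => z.2.2.1 :=
    measurable_fst.comp (measurable_snd.comp measurable_snd)
  have q2 : Measurable fun z : X × X × X × X => z.2.2.2 :=
    measurable_snd.comp (measurable_snd.comp measurable_snd)
  have hPm : MeasurableSet P := by
    refine MeasurableSet.inter (MeasurableSet.inter ?_ (MeasurableSet.inter ?_ ?_))
      (MeasurableSet.inter ?_ ?_)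
    · exact (measurable_fst.prodMk q0) hG
    · exact (measurable_fst.prodMk q1) hG
    · exact (measurable_fst.prodMk q2) hG
    · exact measurableSet_lt (hem.comp q0) (hem.comp q1)
    · exact measurableSet_lt (hem.comp q1) (hem.comp q2)
  have huniq : ∀ z ∈ P, z.2.1 = y0 z.1 ∧ z.2.2.1 = y1 z.1 ∧ z.2.2.2 = y2 z.1 := by
    rintro ⟨x, a, b, c⟩ ⟨⟨ha, hb, hc⟩, hab, hbc⟩
    refine Enum_uniq e (k1 x) (k2 x) hab hbc ?_ ?_ ?_
    · rw [← k3 x]
      exact ha
    · rw [← k3 x]
      exact hb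
    · rw [← k3 x]
      exact hc
  have hmem : ∀ x, (x, y0 x, y1 x, y2 x) ∈ P := by
    intro x
    have h0 : y0 x ∈ G.neighborSet x := by rw [k3 x]; simp
    have h1 : y1 x ∈ G.neighborSet x := by rw [k3 x]; simp
    have h2 : y2 x ∈ G.neighborSet x := by rw [k3 x]; simp
    exact ⟨⟨h0, h1, h2⟩, k1 x, k2 x⟩
  have hinj : Set.InjOn (Prod.fst : X × X × X × X → X) P := by
    rintro ⟨x, a, b, c⟩ hz ⟨x', a', b', c'⟩ hz' h
    obtain ⟨u1, u2, u3⟩ := huniq _ hz
    obtain ⟨v1, v2, v3⟩ := huniq _ hz'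
    simp only at h u1 u2 u3 v1 v2 v3
    subst h
    rw [u1, u2, u3, v1, v2, v3]
  have hmeas : ∀ (f : X → X) (g : X × X × X × X → X), Measurable g →
      (∀ z ∈ P, g z = f z.1) → Measurable f := by
    intro f g hg hfg B hB
    have h1 : f ⁻¹' B = Prod.fst '' (P ∩ g ⁻¹' B) := by
      ext x
      constructor
      · intro hx
        refine ⟨(x, y0 x, y1 x, y2 x), ⟨hmem x, ?_⟩, rfl⟩
        rw [Set.mem_preimage, hfg _ (hmem x)]
        exact hx
      · rintro ⟨z, ⟨hz, hzB⟩, rfl⟩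
        rw [Set.mem_preimage, ← hfg z hz]
        exact hzB
    rw [h1]
    exact (hPm.inter (hg hB)).image_of_measurable_injOn measurable_fst
      (hinj.mono Set.inter_subset_left)
  refine ⟨![y0, y1, y2], ?_, ?_, ?_⟩
  · intro i
    fin_cases i
    · exact hmeas y0 _ q0 fun z hz => (huniq z hz).1
    · exact hmeas y1 _ q1 fun z hz => (huniq z hz).2.1
    · exact hmeas y2 _ q2 fun z hz => (huniq z hz).2.2
  · intro x i j h
    have n01 : y0 x ≠ y1 x := fun h => (k1 x).ne (by rw [h])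
    have n12 : y1 x ≠ y2 x := fun h => (k2 x).ne (by rw [h])
    have n02 : y0 x ≠ y2 x := fun h => ((k1 x).trans (k2 x)).ne (by rw [h])
    fin_cases i <;> fin_cases j <;> simp at h ⊢
    · exact n01 h
    · exact n02 h
    · exact n01 h.symm
    · exact n12 h
    · exact n02 h.symm
    · exact n12 h.symm
  · intro x y
    have h1 : G.Adj x y ↔ y ∈ ({y0 x, y1 x, y2 x} : Set X) := by
      rw [← k3 x]
      rfl
    rw [h1]
    simp only [Set.mem_insert_iff, Set.mem_singleton_iff, Fin.exists_fin_succ]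
    simp [eq_comm]

end Pool.Agent.Helper75.MG
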