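import Pool.Agent.Helper75.MG.AucDefs

/-!
# Project MG, piece D2: validity and measurability

`Valid.upd`: `{x | upd a Z i x = some k} = ({x | a x = none} ∩ Z ∩ D i if k = i) ∪
({x | a x = some k} minus {x | ∃ u, a u = none ∧ u ∈ Z ∧ u ∈ D i ∧ w i u = w k x})`, and the last set is, by `hDE`,
`⋃ l, {x | w k x ∈ E l ∧ (the condition for u = w l (w k x))}`. Injectivity: a client which takes a
server evicts its former holder; two clients taking the same server are equal by `Indep`.

`measurable_W`: induction on `m` (on `{x | a x = some k}` the function is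
`(1/18) * ∑ l, indicator`). `measurableSet_T`: finite unions.
-/

namespace Pool.Agent.Helper75.MG

open MeasureTheory

variable {X : Type} [MeasurableSpace X] [StandardBorelSpace X]

private theorem AucMeas_eq {f g : X → X} (hf : Measurable f) (hg : Measurable g) :
    MeasurableSet {x | f x = g x} := by
  let _ := upgradeStandardBorel X
  have h1 : MeasurableSet (Set.diagonal X) := isClosed_diagonal.measurableSet
  exact h1.preimage (hf.prodMk hg)

omit [StandardBorelSpace X] in
private theorem AucMeas_none {A : AD X} {a : X → Option (Fin A.M)} (ha : Valid A a) :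
    MeasurableSet {x | a x = none} := by
  have h1 : {x | a x = none} = (⋃ k, {x | a x = some k})ᶜ := by
    ext x
    rw [Set.mem_compl_iff, Set.mem_iUnion]
    change a x = none ↔ ¬ ∃ k, a x = some k
    constructor
    · rintro h ⟨k, hk⟩
      rw [h] at hk
      exact absurd hk (by simp)
    · intro h
      cases hx : a x with
      | none => rfl
      | some k => exact absurd ⟨k, hx⟩ h
  rw [h1]
  exact (MeasurableSet.iUnion ha.meas).compl

/-- the clients of `k` evicted from their servers -/
private theorem AucMeas_ev {A : AD X} {a : X → Option (Fin A.M)} (ha : Valid A a) {Z : Set X}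
    (hZm : MeasurableSet Z) (i k : Fin A.M) :
    MeasurableSet {x | ∃ u, a u = none ∧ u ∈ Z ∧ u ∈ A.D i ∧ A.w i u = A.w k x} := by
  have h1 : {x | ∃ u, a u = none ∧ u ∈ Z ∧ u ∈ A.D i ∧ A.w i u = A.w k x} =
      ⋃ l, ((fun x => A.w l (A.w k x)) ⁻¹' ({u | a u = none} ∩ Z ∩ A.D i) ∩
        {x | A.w i (A.w l (A.w k x)) = A.w k x}) := by
    ext x
    rw [Set.mem_iUnion]
    constructor
    · rintro ⟨u, hu1, hu2, hu3, hu4⟩
      obtain ⟨l, -, hl⟩ := A.hDE u i hu3
      rw [hu4] at hl
      refine ⟨l, ?_, ?_⟩
      · change A.w l (A.w k x) ∈ {u | a u = none} ∩ Z ∩ A.D i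
        rw [hl]
        exact ⟨⟨hu1, hu2⟩, hu3⟩
      · change A.w i (A.w l (A.w k x)) = A.w k x
        rw [hl]
        exact hu4
    · rintro ⟨l, ⟨⟨h2, h3⟩, h4⟩, h5⟩
      exact ⟨A.w l (A.w k x), h2, h3, h4, h5⟩
  rw [h1]
  refine MeasurableSet.iUnion fun l => ?_
  have hm : Measurable fun x => A.w l (A.w k x) := (A.hw l).comp (A.hw k)
  exact (((AucMeas_none ha).inter hZm).inter (A.hD i)).preimage hm |>.inter
    (AucMeas_eq ((A.hw i).comp hm) (A.hw k))

omit [StandardBorelSpace X] in
private theorem AucMeas_upd {A : AD X} {a : X → Option (Fin A.M)} {Z : Set X} (i k : Fin A.M)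
    (x : X) : upd A a Z i x = some k ↔ (a x = none ∧ x ∈ Z ∧ x ∈ A.D i ∧ i = k) ∨
      (a x = some k ∧ ¬ ∃ u, a u = none ∧ u ∈ Z ∧ u ∈ A.D i ∧ A.w i u = A.w k x) := by
  classical
  unfold upd
  cases hx : a x with
  | none =>
    rw [if_pos rfl]
    by_cases h : x ∈ Z ∧ x ∈ A.D i
    · rw [if_pos h]
      constructor
      · intro h1
        exact Or.inl ⟨rfl, h.1, h.2, Option.some.inj h1⟩
      · rintro (⟨-, -, -, h1⟩ | ⟨h1, -⟩)
        · rw [h1]
        · exact absurd h1 (by simp)
    · rw [if_neg h]
      constructor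
      · intro h1
        exact absurd h1 (by simp)
      · rintro (⟨-, h1, h2, -⟩ | ⟨h1, -⟩)
        · exact absurd ⟨h1, h2⟩ h
        · exact absurd h1 (by simp)
  | some j =>
    rw [if_neg (by simp)]
    by_cases h : ∃ k, some j = some k ∧ ∃ u, a u = none ∧ u ∈ Z ∧ u ∈ A.D i ∧
        A.w i u = A.w k x
    · rw [if_pos h]
      constructor
      · intro h1
        exact absurd h1 (by simp)
      · rintro (⟨h1, -⟩ | ⟨h1, h2⟩)
        · exact absurd h1 (by simp)
        · obtain ⟨k', hk', hu⟩ := h
          have h3 : k = k' := Option.some.inj (h1.symm.trans hk')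
          rw [← h3] at hu
          exact absurd hu h2
    · rw [if_neg h]
      constructor
      · intro h1
        refine Or.inr ⟨h1, fun h2 => h ⟨k, h1, h2⟩⟩
      · rintro (⟨h1, -⟩ | ⟨h1, -⟩)
        · exact absurd h1 (by simp)
        · exact h1

theorem Valid.upd {A : AD X} {a : X → Option (Fin A.M)} (ha : Valid A a) {Z : Set X}
    (hZm : MeasurableSet Z) (hZ : Indep A Z) (i : Fin A.M) : Valid A (upd A a Z i) := by
  constructor
  · intro k
    have h1 : {x | MG.upd A a Z i x = some k} =
        (if i = k then {x | a x = none} ∩ Z ∩ A.D i else ∅) ∪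
        ({x | a x = some k} \ {x | ∃ u, a u = none ∧ u ∈ Z ∧ u ∈ A.D i ∧
          A.w i u = A.w k x}) := by
      ext x
      change MG.upd A a Z i x = some k ↔ _
      rw [AucMeas_upd]
      refine or_congr ?_ Iff.rfl
      split_ifs with h
      · constructor
        · rintro ⟨h1, h2, h3, -⟩
          exact ⟨⟨h1, h2⟩, h3⟩
        · rintro ⟨⟨h1, h2⟩, h3⟩
          exact ⟨h1, h2, h3, h⟩
      · constructor
        · rintro ⟨-, -, -, h4⟩
          exact absurd h4 h
        · intro h4
          exact absurd h4 (Set.notMem_empty x)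
    rw [h1]
    refine MeasurableSet.union ?_ ((ha.meas k).diff (AucMeas_ev ha hZm i k))
    split_ifs with h
    · exact ((AucMeas_none ha).inter hZm).inter (A.hD i)
    · exact MeasurableSet.empty
  · intro x k h
    rcases (AucMeas_upd i k x).1 h with ⟨-, -, h1, h2⟩ | ⟨h1, -⟩
    · rw [← h2]
      exact h1
    · exact ha.mem x k h1
  · intro x y k l hx hy hxy
    rcases (AucMeas_upd i k x).1 hx with ⟨h1, h2, h3, h4⟩ | ⟨h1, h2⟩
    · rcases (AucMeas_upd i l y).1 hy with ⟨h5, h6, h7, h8⟩ | ⟨h5, h6⟩
      · rw [← h4, ← h8] at hxy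
        exact hZ x h2 y h6 i i h3 h7 hxy
      · exfalso
        apply h6
        refine ⟨x, h1, h2, h3, ?_⟩
        rw [h4]
        exact hxy
    · rcases (AucMeas_upd i l y).1 hy with ⟨h5, h6, h7, h8⟩ | ⟨h5, h6⟩
      · exfalso
        apply h2
        refine ⟨y, h5, h6, h7, ?_⟩
        rw [h8]
        exact hxy.symm
      · exact ha.inj x y k l h1 h5 hxy

theorem measurable_W {A : AD X} {a : X → Option (Fin A.M)} (ha : Valid A a) (m : ℕ) :
    Measurable (W A a m) := by
  classical
  induction m with
  | zero => exact measurable_const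
  | succ m ih =>
    have h1 : W A a (m + 1) = fun x => (if a x = none then (if x ∈ A.Y then (1 : ℝ) else 0) else 0) +
        ∑ k, if a x = some k then (1 / 18 : ℝ) *
          ∑ l, (if A.w k x ∈ A.E l then W A a m (A.w l (A.w k x)) else 0) else 0 := by
      funext x
      cases hx : a x with
      | none =>
        rw [if_pos rfl]
        have h2 : ∀ k ∈ (Finset.univ : Finset (Fin A.M)), (if (none : Option (Fin A.M)) = some k then
            (1 / 18 : ℝ) * ∑ l, (if A.w k x ∈ A.E l then W A a m (A.w l (A.w k x)) else 0)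
            else 0) = 0 := fun k _ => if_neg (by simp)
        rw [Finset.sum_eq_zero h2, add_zero]
        change (match a x with
          | none => if x ∈ A.Y then (1 : ℝ) else 0
          | some k => (1 / 18) * ∑ l, if A.w k x ∈ A.E l then W A a m (A.w l (A.w k x)) else 0) = _
        rw [hx]
      | some j =>
        rw [if_neg (by simp), zero_add]
        rw [Finset.sum_eq_single j]
        · rw [if_pos rfl]
          change (match a x with
            | none => if x ∈ A.Y then (1 : ℝ) else 0
            | some k => (1 / 18) * ∑ l, if A.w k x ∈ A.E l then W A a m (A.w l (A.w k x)) else 0) = _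
          rw [hx]
        · intro k _ hk
          exact if_neg (fun h => hk (Option.some.inj h).symm)
        · intro h
          exact absurd (Finset.mem_univ _) h
    rw [h1]
    refine Measurable.add ?_ (Finset.measurable_sum _ fun k _ => ?_)
    · exact Measurable.ite (AucMeas_none ha) (Measurable.ite A.hY measurable_const measurable_const)
        measurable_const
    · refine Measurable.ite (ha.meas k) ?_ measurable_const
      refine measurable_const.mul (Finset.measurable_sum _ fun l _ => ?_)
      exact Measurable.ite ((A.hE l).preimage (A.hw k))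
        (ih.comp ((A.hw l).comp (A.hw k))) measurable_const

theorem measurableSet_T {A : AD X} {a : X → Option (Fin A.M)} (ha : Valid A a) {Z : Set X}
    (hZm : MeasurableSet Z) : MeasurableSet (T A a Z) := by
  have h1 : T A a Z = ({x | a x = none} ∩ (Z ∩ A.Y)) ∪ ⋃ k, ({x | a x = some k} ∩
      ⋃ l, ((A.w k ⁻¹' A.E l) ∩ (fun x => A.w l (A.w k x)) ⁻¹' ({x | a x = none} ∩ Z))) := by
    ext x
    rw [Set.mem_union, Set.mem_iUnion]
    refine or_congr Iff.rfl (exists_congr fun k => ?_)
    rw [Set.mem_inter_iff, Set.mem_iUnion]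
    rfl
  rw [h1]
  refine ((AucMeas_none ha).inter (hZm.inter A.hY)).union (MeasurableSet.iUnion fun k => ?_)
  refine (ha.meas k).inter (MeasurableSet.iUnion fun l => ?_)
  exact ((A.hE l).preimage (A.hw k)).inter
    (((AucMeas_none ha).inter hZm).preimage ((A.hw l).comp (A.hw k)))

end Pool.Agent.Helper75.MG
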