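import Pool.Agent.Helper75.MG.AucStep
import Pool.Agent.Helper75.MG.AucMeas

/-!
# Project MG, piece D3: the assignment theorem (any finite measure)

Potential of a valid state: `Φ a = ⨆ m, ∫⁻ x, ENNReal.ofReal (W A a m x) ∂ν ≤ ν univ < ⊤`. Integrating `step_ineq`
and letting `m → ∞` (monotone in `m` by `W_mono`; `ENNReal.finsetSum_iSup_of_monotone` or similar):
`∑ i, Φ (upd a Z i) + ν (T a Z) ≤ M * Φ a`, for every measurable `Indep` set `Z`. So for some `i`
`Φ (upd a Z i) + ν (T a Z) / M ≤ Φ a` (if `M = 0` then `Y` is empty and everything is trivial), i.e.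
`M * Φ (upd a Z i) + ν (T a Z) ≤ M * Φ a`.

Start with `a_0 = none` everywhere, `Z_n = {x | c x = n % (K+1)}`, choose `i_n` as above,
`a_(n+1) = upd a_n Z_n i_n`. Then `∑ n, ν (T a_n Z_n) ≤ M * Φ a_0 < ⊤`, so by Borel-Cantelli
(`measure_limsup_atTop_eq_zero`, `ae_eventually_notMem`) for almost all `x`, `x ∉ T a_n Z_n` for all large `n`.
Outside `T a_n Z_n`, `a_(n+1) x = a_n x` (if `a_n x = none` and `x ∈ Y` then `x ∉ Z_n`; if `x ∉ Y` then
`x ∉ D i`; if `a_n x = some k` then nobody takes `w k x`, by `hDE`). Let `a x = some k` if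
`a_n x = some k` for all large `n`, and `none` otherwise (the set is a countable union of countable
intersections, so measurable). Injective because at a large stage both equalities hold. For
almost all `x ∈ Y`: `a_n x` is constant for `n ≥ n0` and `x ∉ T a_n Z_n` for `n ≥ n0`; take `n ≥ n0`
with `x ∈ Z_n`: then `a_n x ≠ none`.
-/

namespace Pool.Agent.Helper75.MG

open MeasureTheory

variable {X : Type} [MeasurableSpace X] [StandardBorelSpace X]

/-- the integral of the truncated potential -/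
private noncomputable def AucI (A : AD X) (ν : Measure X) (a : X → Option (Fin A.M)) (m : ℕ) :
    ENNReal := ∫⁻ x, ENNReal.ofReal (W A a m x) ∂ν

private theorem AucI_mono (A : AD X) (ν : Measure X) (a : X → Option (Fin A.M)) :
    Monotone (AucI A ν a) :=
  monotone_nat_of_le_succ fun m =>
    lintegral_mono fun x => ENNReal.ofReal_le_ofReal (W_mono A a m x)

private theorem AucI_le (A : AD X) (ν : Measure X) (a : X → Option (Fin A.M)) (m : ℕ) :
    AucI A ν a m ≤ ν Set.univ := by
  have h1 : AucI A ν a m ≤ ∫⁻ _, 1 ∂ν := lintegral_mono fun x => by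
    have h2 := ENNReal.ofReal_le_ofReal (W_le_one A a m x)
    rw [ENNReal.ofReal_one] at h2
    exact h2
  rwa [lintegral_one] at h1

/-- the potential -/
private noncomputable def AucP (A : AD X) (ν : Measure X) (a : X → Option (Fin A.M)) :
    ENNReal := ⨆ m, AucI A ν a m

private theorem AucP_le (A : AD X) (ν : Measure X) (a : X → Option (Fin A.M)) :
    AucP A ν a ≤ ν Set.univ := iSup_le fun m => AucI_le A ν a m

private theorem AucI_step (A : AD X) (ν : Measure X) {a : X → Option (Fin A.M)} (ha : Valid A a)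
    {Z : Set X} (hZm : MeasurableSet Z) (hZ : Indep A Z) (m : ℕ) :
    (∑ i, AucI A ν (upd A a Z i) m) + ν (T A a Z) ≤ A.M * AucI A ν a (m + 2) := by
  classical
  have hT := measurableSet_T (A := A) ha hZm
  have hm : ∀ i ∈ (Finset.univ : Finset (Fin A.M)),
      Measurable (fun x => ENNReal.ofReal (W A (upd A a Z i) m x)) := fun i _ =>
    (measurable_W (ha.upd hZm hZ i) m).ennreal_ofReal
  have h1 : (∑ i, AucI A ν (upd A a Z i) m) =
      ∫⁻ x, ∑ i, ENNReal.ofReal (W A (upd A a Z i) m x) ∂ν :=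
    (lintegral_finsetSum _ hm).symm
  have h2 : ν (T A a Z) = ∫⁻ x, (T A a Z).indicator (fun _ => (1 : ENNReal)) x ∂ν := by
    rw [lintegral_indicator hT, lintegral_one, Measure.restrict_apply_univ]
  rw [h1, h2, ← lintegral_add_left (Finset.measurable_sum _ hm)]
  unfold AucI
  rw [← lintegral_const_mul _ (measurable_W ha (m + 2)).ennreal_ofReal]
  refine lintegral_mono fun x => ?_
  have h3 := ENNReal.ofReal_le_ofReal (step_ineq A ha hZ m x)
  have h4 : 0 ≤ ∑ i, W A (upd A a Z i) m x := Finset.sum_nonneg fun i _ => W_nonneg A _ m x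
  have h5 : (0 : ℝ) ≤ if x ∈ T A a Z then 1 else 0 := by
    split_ifs
    · exact zero_le_one
    · exact le_rfl
  rw [ENNReal.ofReal_add h4 h5, ENNReal.ofReal_sum_of_nonneg fun i _ => W_nonneg A _ m x,
    ENNReal.ofReal_mul (Nat.cast_nonneg _), ENNReal.ofReal_natCast] at h3
  have h6 : (T A a Z).indicator (fun _ => (1 : ENNReal)) x =
      ENNReal.ofReal (if x ∈ T A a Z then 1 else 0) := by
    by_cases hx : x ∈ T A a Z
    · rw [Set.indicator_of_mem hx, if_pos hx, ENNReal.ofReal_one]
    · rw [Set.indicator_of_notMem hx, if_neg hx, ENNReal.ofReal_zero]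
  change (∑ i, ENNReal.ofReal (W A (upd A a Z i) m x)) +
    (T A a Z).indicator (fun _ => (1 : ENNReal)) x ≤ A.M * ENNReal.ofReal (W A a (m + 2) x)
  rw [h6]
  exact h3

private theorem AucP_step (A : AD X) (ν : Measure X) {a : X → Option (Fin A.M)} (ha : Valid A a)
    {Z : Set X} (hZm : MeasurableSet Z) (hZ : Indep A Z) :
    (∑ i, AucP A ν (upd A a Z i)) + ν (T A a Z) ≤ A.M * AucP A ν a := by
  have h1 : (∑ i, AucP A ν (upd A a Z i)) = ⨆ m, ∑ i, AucI A ν (upd A a Z i) m :=
    ENNReal.finsetSum_iSup_of_monotone fun i => AucI_mono A ν _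
  rw [h1, ENNReal.iSup_add]
  refine iSup_le fun m => (AucI_step A ν ha hZm hZ m).trans ?_
  exact mul_le_mul_right (le_iSup (AucI A ν a) (m + 2)) _

private theorem AucP_choose (A : AD X) (hM : 0 < A.M) (ν : Measure X)
    {a : X → Option (Fin A.M)} (ha : Valid A a)
    {Z : Set X} (hZm : MeasurableSet Z) (hZ : Indep A Z) :
    ∃ i, A.M * AucP A ν (upd A a Z i) + ν (T A a Z) ≤ A.M * AucP A ν a := by
  have : Nonempty (Fin A.M) := ⟨⟨0, hM⟩⟩
  obtain ⟨i, hi⟩ := Finite.exists_min fun i => AucP A ν (upd A a Z i)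
  refine ⟨i, le_trans (add_le_add_left ?_ _) (AucP_step A ν ha hZm hZ)⟩
  have h1 := Finset.card_nsmul_le_sum (Finset.univ : Finset (Fin A.M))
    (fun i => AucP A ν (upd A a Z i)) (AucP A ν (upd A a Z i)) fun j _ => hi j
  rwa [Finset.card_univ, Fintype.card_fin, nsmul_eq_mul] at h1

private theorem Auc_upd_eq (A : AD X) (a : X → Option (Fin A.M)) (Z : Set X) (i : Fin A.M) (x : X)
    (hx : x ∉ T A a Z) : upd A a Z i x = a x := by
  classical
  unfold upd
  by_cases h1 : a x = none
  · rw [if_pos h1, if_neg, h1]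
    rintro ⟨h2, h3⟩
    exact hx (Or.inl ⟨h1, h2, A.hDY i h3⟩)
  · rw [if_neg h1, if_neg]
    rintro ⟨k, hk, u, hu1, hu2, hu3, hu4⟩
    obtain ⟨l, hl1, hl2⟩ := A.hDE u i hu3
    rw [hu4] at hl1 hl2
    refine hx (Or.inr ⟨k, hk, l, hl1, ?_, ?_⟩)
    · rw [hl2]
      exact hu1
    · rw [hl2]
      exact hu2

private theorem Auc_lim (A : AD X) (S : ℕ → X → Option (Fin A.M)) (hS : ∀ n, Valid A (S n)) :
    ∃ a : X → Option (Fin A.M), Valid A a ∧
      ∀ x k, (∀ᶠ n in Filter.atTop, S n x = some k) → a x = some k := by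
  classical
  have huniq : ∀ x k l, (∀ᶠ n in Filter.atTop, S n x = some k) →
      (∀ᶠ n in Filter.atTop, S n x = some l) → k = l := by
    intro x k l h1 h2
    obtain ⟨n, hn1, hn2⟩ := (h1.and h2).exists
    rw [hn1] at hn2
    exact Option.some_injective _ hn2
  let a : X → Option (Fin A.M) := fun x =>
    if h : ∃ k, ∀ᶠ n in Filter.atTop, S n x = some k then some h.choose else none
  have ha1 : ∀ x k, (∀ᶠ n in Filter.atTop, S n x = some k) → a x = some k := by
    intro x k h
    have h1 : ∃ k, ∀ᶠ n in Filter.atTop, S n x = some k := ⟨k, h⟩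
    change (if h : ∃ k, ∀ᶠ n in Filter.atTop, S n x = some k then some h.choose else none) = _
    rw [dif_pos h1]
    congr 1
    exact huniq x _ _ h1.choose_spec h
  have ha2 : ∀ x k, a x = some k → ∀ᶠ n in Filter.atTop, S n x = some k := by
    intro x k h
    by_cases h1 : ∃ k, ∀ᶠ n in Filter.atTop, S n x = some k
    · obtain ⟨l, hl⟩ := h1
      have h2 := ha1 x l hl
      rw [h] at h2
      rw [Option.some_injective _ h2]
      exact hl
    · exfalso
      have h2 : a x = none := dif_neg h1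
      rw [h] at h2
      exact Option.some_ne_none _ h2
  refine ⟨a, ⟨fun k => ?_, fun x k h => ?_, fun x y k l h1 h2 h3 => ?_⟩, ha1⟩
  · have h1 : {x | a x = some k} = ⋃ N : ℕ, ⋂ n : ℕ, ⋂ _ : N ≤ n, {x | S n x = some k} := by
      ext x
      simp only [Set.mem_iUnion, Set.mem_iInter]
      constructor
      · intro h
        obtain ⟨N, hN⟩ := Filter.eventually_atTop.1 (ha2 x k h)
        exact ⟨N, fun n hn => hN n hn⟩
      · rintro ⟨N, hN⟩
        exact ha1 x k (Filter.eventually_atTop.2 ⟨N, fun n hn => hN n hn⟩)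
    rw [h1]
    exact MeasurableSet.iUnion fun N => MeasurableSet.iInter fun n => MeasurableSet.iInter
      fun _ => (hS n).meas k
  · obtain ⟨n, hn⟩ := (ha2 x k h).exists
    exact (hS n).mem x k hn
  · obtain ⟨n, hn1, hn2⟩ := ((ha2 x k h1).and (ha2 y l h2)).exists
    exact (hS n).inj x y k l hn1 hn2 h3

theorem auction (A : AD X) (ν : Measure X) [IsFiniteMeasure ν] (K : ℕ) (c : X → Fin (K + 1))
    (hc : Measurable c)
    (hind : ∀ u u' k k', u ∈ A.D k → u' ∈ A.D k' → A.w k u = A.w k' u' → c u = c u' → u = u') :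
    ∃ a : X → Option (Fin A.M), Valid A a ∧ ∀ᵐ x ∂ν, x ∈ A.Y → a x ≠ none := by
  classical
  have hv0 : Valid A (fun _ => none) := by
    refine ⟨fun k => ?_, fun x k h => ?_, fun x y k l h _ _ => ?_⟩
    · have h1 : {x : X | (none : Option (Fin A.M)) = some k} = ∅ := by
        ext x
        constructor
        · intro h
          exact absurd h.symm (Option.some_ne_none k)
        · intro h
          exact absurd h (Set.notMem_empty x)
      rw [h1]
      exact MeasurableSet.empty
    · exact absurd h.symm (Option.some_ne_none k)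
    · exact absurd h.symm (Option.some_ne_none k)
  rcases Nat.eq_zero_or_pos A.M with hM | hM
  · refine ⟨fun _ => none, hv0, Filter.Eventually.of_forall fun x hx => ?_⟩
    exfalso
    have h1 := A.hDcard x hx
    have h2 : {k : Fin A.M | x ∈ A.D k}.ncard ≤ Nat.card (Fin A.M) := Set.ncard_le_card _
    have h3 : Nat.card (Fin A.M) = 0 := by
      rw [Nat.card_fin, hM]
    omega
  let Z : ℕ → Set X := fun n => {x | c x = Fin.ofNat (K + 1) n}
  have hZm : ∀ n, MeasurableSet (Z n) := fun n => hc (measurableSet_singleton _)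
  have hZi : ∀ n, Indep A (Z n) := by
    intro n u hu u' hu' k k' hk hk' h
    exact hind u u' k k' hk hk' h (hu.trans hu'.symm)
  have hstep : ∀ (n : ℕ) (s : {a : X → Option (Fin A.M) // Valid A a}),
      ∃ s' : {a : X → Option (Fin A.M) // Valid A a}, (∃ i, s'.1 = upd A s.1 (Z n) i) ∧
        A.M * AucP A ν s'.1 + ν (T A s.1 (Z n)) ≤ A.M * AucP A ν s.1 := by
    intro n s
    obtain ⟨i, hi⟩ := AucP_choose A hM ν s.2 (hZm n) (hZi n)
    exact ⟨⟨upd A s.1 (Z n) i, s.2.upd (hZm n) (hZi n) i⟩, ⟨i, rfl⟩, hi⟩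
  choose F hF1 hF2 using hstep
  let S : ℕ → {a : X → Option (Fin A.M) // Valid A a} := fun n =>
    Nat.rec ⟨fun _ => none, hv0⟩ (fun n s => F n s) n
  have hS : ∀ n, S (n + 1) = F n (S n) := fun n => rfl
  have hsum : ∀ n, A.M * AucP A ν (S n).1 + ∑ j ∈ Finset.range n, ν (T A (S j).1 (Z j)) ≤
      A.M * AucP A ν (S 0).1 := by
    intro n
    induction n with
    | zero =>
      rw [Finset.sum_range_zero, add_zero]
    | succ n ih =>
      rw [Finset.sum_range_succ, hS n, add_comm (∑ j ∈ Finset.range n, _) _, ← add_assoc]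
      exact (add_le_add_left (hF2 n (S n)) _).trans ih
  have hfin : A.M * AucP A ν (S 0).1 ≠ ⊤ := by
    refine ENNReal.mul_ne_top (ENNReal.natCast_ne_top _) ?_
    exact ne_top_of_le_ne_top (measure_ne_top ν _) (AucP_le A ν _)
  have htsum : ∑' n, ν (T A (S n).1 (Z n)) ≠ ⊤ := by
    refine ne_top_of_le_ne_top hfin (ENNReal.tsum_le_of_sum_range_le fun n => ?_)
    exact le_trans le_add_self (hsum n)
  have hae := ae_eventually_notMem htsum
  obtain ⟨a, ha1, ha2⟩ := Auc_lim A (fun n => (S n).1) fun n => (S n).2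
  refine ⟨a, ha1, ?_⟩
  filter_upwards [hae] with x hx hY hnone
  obtain ⟨N, hN⟩ := Filter.eventually_atTop.1 hx
  have hconst : ∀ n, (S (N + n)).1 x = (S N).1 x := by
    intro n
    induction n with
    | zero => rfl
    | succ n ih =>
      rw [← add_assoc, hS]
      obtain ⟨i, hi⟩ := hF1 (N + n) (S (N + n))
      rw [hi, Auc_upd_eq A _ _ i x (hN (N + n) (Nat.le_add_right N n))]
      exact ih
  rcases hv : (S N).1 x with _ | k
  · have h1 : (S (N * (K + 1) + (c x : ℕ))).1 x = none := by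
      have h2 : N ≤ N * (K + 1) + (c x : ℕ) :=
        le_trans (Nat.le_mul_of_pos_right N (Nat.succ_pos K)) (Nat.le_add_right _ _)
      obtain ⟨d, hd⟩ := Nat.exists_eq_add_of_le h2
      rw [hd, hconst d]
      exact hv
    have h2 : x ∈ Z (N * (K + 1) + (c x : ℕ)) := by
      change c x = Fin.ofNat (K + 1) (N * (K + 1) + (c x : ℕ))
      apply Fin.ext
      have h4 : (N * (K + 1) + (c x : ℕ)) % (K + 1) = (c x : ℕ) := by
        rw [Nat.add_comm (N * (K + 1)), Nat.add_mul_mod_self_right, Nat.mod_eq_of_lt (c x).isLt]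
      rw [Fin.val_ofNat, h4]
    exact hN (N * (K + 1) + (c x : ℕ))
      (le_trans (Nat.le_mul_of_pos_right N (Nat.succ_pos K)) (Nat.le_add_right _ _))
      (Or.inl ⟨h1, h2, hY⟩)
  · have h1 := ha2 x k (Filter.eventually_atTop.2 ⟨N, fun n hn => by
      obtain ⟨d, hd⟩ := Nat.exists_eq_add_of_le hn
      rw [hd, hconst d]
      exact hv⟩)
    rw [h1] at hnone
    exact Option.some_ne_none k hnone

end Pool.Agent.Helper75.MG
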