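import Pool.Agent.Helper75.MG.Defs

/-!
# Project MG: the assignment problem (definitions)

Clients `u ∈ Y` and servers `c`. The servers adjacent to `u` are the points `w k u`, `k` with
`u ∈ D k` (different `k` give different servers), at least 72 of them. The clients adjacent to a
server `c` are the points `w l c`, `l` with `c ∈ E l`, at most 9 of them.

A state is a partial assignment `a : X → Option (Fin M)`, `a u = some k` means that the client `u`
is served by `w k u`; `a u = none` means that `u` is not served.

`upd a Z i`: every unserved `u ∈ Z ∩ D i` takes the server `w i u`; the client served by it before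
loses it.

`W a m x`: truncated potential: 1 at unserved clients, and `1/18` times the sum over the clients
adjacent to the server of `x` at served clients.

`T a Z`: unserved clients of `Z`, and served clients whose server is adjacent to an unserved client
of `Z`.
-/

namespace Pool.Agent.Helper75.MG

open MeasureTheory

/-- the data of an assignment problem -/
structure AD (X : Type) [MeasurableSpace X] where
  M : ℕ
  w : Fin M → X → X
  hw : ∀ k, Measurable (w k)
  Y : Set X
  hY : MeasurableSet Y
  D : Fin M → Set X
  hD : ∀ k, MeasurableSet (D k)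
  E : Fin M → Set X
  hE : ∀ k, MeasurableSet (E k)
  hDY : ∀ k, D k ⊆ Y
  hinj : ∀ u k l, u ∈ D k → u ∈ D l → w k u = w l u → k = l
  hDE : ∀ u k, u ∈ D k → ∃ l, w k u ∈ E l ∧ w l (w k u) = u
  hED : ∀ c l, c ∈ E l → ∃ k, w l c ∈ D k ∧ w k (w l c) = c
  hDcard : ∀ u ∈ Y, 72 ≤ {k | u ∈ D k}.ncard
  hEcard : ∀ c, {l | c ∈ E l}.ncard ≤ 9

variable {X : Type} [MeasurableSpace X]

/-- a valid state -/
structure Valid (A : AD X) (a : X → Option (Fin A.M)) : Prop where
  meas : ∀ k, MeasurableSet {x | a x = some k}
  mem : ∀ x k, a x = some k → x ∈ A.D k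
  inj : ∀ x y k l, a x = some k → a y = some l → A.w k x = A.w l y → x = y

/-- no two clients of `Z` have a common adjacent server -/
def Indep (A : AD X) (Z : Set X) : Prop :=
  ∀ u ∈ Z, ∀ u' ∈ Z, ∀ k k', u ∈ A.D k → u' ∈ A.D k' → A.w k u = A.w k' u' → u = u'

open Classical in
/-- the update: unserved clients in `Z ∩ D i` take their `i`-th server -/
noncomputable def upd (A : AD X) (a : X → Option (Fin A.M)) (Z : Set X) (i : Fin A.M) (x : X) :
    Option (Fin A.M) :=
  if a x = none then (if x ∈ Z ∧ x ∈ A.D i then some i else none)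
  else if ∃ k, a x = some k ∧ ∃ u, a u = none ∧ u ∈ Z ∧ u ∈ A.D i ∧ A.w i u = A.w k x then none
  else a x

open Classical in
/-- the truncated potential -/
noncomputable def W (A : AD X) (a : X → Option (Fin A.M)) : ℕ → X → ℝ
  | 0 => fun _ => 0
  | m + 1 => fun x => match a x with
    | none => if x ∈ A.Y then 1 else 0
    | some k => (1 / 18) * ∑ l, if A.w k x ∈ A.E l then W A a m (A.w l (A.w k x)) else 0

/-- the clients touched by the step with active set `Z` -/
def T (A : AD X) (a : X → Option (Fin A.M)) (Z : Set X) : Set X :=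
  {x | (a x = none ∧ x ∈ Z ∧ x ∈ A.Y) ∨
    ∃ k, a x = some k ∧ ∃ l, A.w k x ∈ A.E l ∧ a (A.w l (A.w k x)) = none ∧
      A.w l (A.w k x) ∈ Z}

end Pool.Agent.Helper75.MG
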