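import Pool.Agent.Helper75.MG.Auc
import Pool.Agent.Helper75.MG.Col

/-!
# Project MG, piece D4: the assignment theorem for relations

`A` is a measurable relation between clients `u ∈ Y` and servers `c`, `w` finitely many measurable maps
with `c = w k u`, `u = w l c` for some `k, l` whenever `(u, c) ∈ A`. Apply `auction` to the data `AD` with
`D k = {u | (u, w k u) ∈ A ∧ ∀ j < k, w j u ≠ w k u}`, `E l = {c | (w l c, c) ∈ A ∧ ∀ j < l, w j c ≠ w l c}`
(then `(u, c) ∈ A ↔ ∃ k, u ∈ D k ∧ w k u = c ↔ ∃ l, c ∈ E l ∧ w l c = u`, the index being unique, so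
`{k | u ∈ D k}` is in bijection with `{c | (u, c) ∈ A}`, which is finite; same for `E`).
Colouring `c` : `exists_colouring` for the relation `R = {(u, u') | u ≠ u' ∧ ∃ c, (u, c) ∈ A ∧ (u', c) ∈ A}` with
the maps `w l ∘ w k` (index `Fin M × Fin M ≃ Fin (M * M)`); `R` is the union over `k` of
`{(u, u') | u ≠ u' ∧ (u, w k u) ∈ A ∧ (u', w k u) ∈ A}`, so it is measurable.
`B = {(u, c) | ∃ k, a u = some k ∧ w k u = c}`.
-/

namespace Pool.Agent.Helper75.MG

open MeasureTheory

private theorem AucRel_eq {X Y : Type} [MeasurableSpace X] [StandardBorelSpace X]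
    [MeasurableSpace Y] {f g : Y → X} (hf : Measurable f) (hg : Measurable g) :
    MeasurableSet {y | f y = g y} := by
  have h1 : MeasurableSet (Set.diagonal X) := measurableSet_diagonal
  exact (hf.prodMk hg) h1

/-- the first index -/
private theorem AucRel_min {X : Type} {M : ℕ} (w : Fin M → X → X) (u c : X)
    (h : ∃ k, w k u = c) : ∃ k, w k u = c ∧ ∀ j < k, w j u ≠ w k u := by
  classical
  obtain ⟨k, hk⟩ := h
  obtain ⟨k₀, hk₀, hmin⟩ := (Finset.univ.filter fun k => w k u = c).exists_minimal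
    ⟨k, Finset.mem_filter.2 ⟨Finset.mem_univ k, hk⟩⟩
  rw [Finset.mem_filter] at hk₀
  refine ⟨k₀, hk₀.2, fun j hj hjk => ?_⟩
  have h1 : j ∈ Finset.univ.filter fun k => w k u = c :=
    Finset.mem_filter.2 ⟨Finset.mem_univ j, hjk.trans hk₀.2⟩
  exact absurd (hmin h1 hj.le) (not_le.2 hj)

private theorem AucRel_inj {X : Type} {M : ℕ} (w : Fin M → X → X) (u : X) (k l : Fin M)
    (hk : ∀ j < k, w j u ≠ w k u) (hl : ∀ j < l, w j u ≠ w l u) (h : w k u = w l u) :
    k = l := by
  rcases lt_trichotomy k l with h1 | h1 | h1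
  · exact absurd h (hl k h1)
  · exact h1
  · exact absurd h.symm (hk l h1)

private theorem AucRel_meas {X : Type} [MeasurableSpace X] [StandardBorelSpace X] {M : ℕ}
    (w : Fin M → X → X) (hw : ∀ k, Measurable (w k)) (A : Set (X × X)) (hA : MeasurableSet A)
    (φ : Fin M → X → X × X) (hφ : ∀ k, Measurable (φ k)) (k : Fin M) :
    MeasurableSet {u | φ k u ∈ A ∧ ∀ j < k, w j u ≠ w k u} := by
  have h1 : {u | φ k u ∈ A ∧ ∀ j < k, w j u ≠ w k u} =
      φ k ⁻¹' A ∩ ⋂ j, ⋂ (_ : j < k), {u | w j u = w k u}ᶜ := by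
    ext u
    simp only [Set.mem_ofPred_eq, Set.mem_inter_iff, Set.mem_preimage, Set.mem_iInter,
      Set.mem_compl_iff]
  rw [h1]
  refine (hφ k hA).inter (MeasurableSet.iInter fun j => MeasurableSet.iInter fun _ => ?_)
  exact (AucRel_eq (hw j) (hw k)).compl

theorem auction_rel {X : Type} [MeasurableSpace X] [StandardBorelSpace X] {M : ℕ}
    (w : Fin M → X → X) (hw : ∀ k, Measurable (w k)) (A : Set (X × X)) (hA : MeasurableSet A)
    (Y : Set X) (hY : MeasurableSet Y) (hAY : ∀ u c, (u, c) ∈ A → u ∈ Y)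
    (h1 : ∀ u c, (u, c) ∈ A → ∃ k, w k u = c) (h2 : ∀ u c, (u, c) ∈ A → ∃ k, w k c = u)
    (hD : ∀ u ∈ Y, 72 ≤ {c | (u, c) ∈ A}.ncard) (hE : ∀ c, {u | (u, c) ∈ A}.ncard ≤ 9)
    (ν : Measure X) [IsFiniteMeasure ν] :
    ∃ B : Set (X × X), MeasurableSet B ∧ B ⊆ A ∧
      (∀ u u' c, (u, c) ∈ B → (u', c) ∈ B → u = u') ∧
      ∀ᵐ u ∂ν, u ∈ Y → ∃ c, (u, c) ∈ B := by
  classical
  let AA : AD X :=
    { M := M
      w := w
      hw := hw
      Y := Y
      hY := hY
      D := fun k => {u | (u, w k u) ∈ A ∧ ∀ j < k, w j u ≠ w k u}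
      hD := fun k => AucRel_meas w hw A hA (fun k u => (u, w k u))
        (fun k => measurable_id.prodMk (hw k)) k
      E := fun l => {c | (w l c, c) ∈ A ∧ ∀ j < l, w j c ≠ w l c}
      hE := fun l => AucRel_meas w hw A hA (fun k u => (w k u, u))
        (fun k => (hw k).prodMk measurable_id) l
      hDY := fun k u hu => hAY _ _ hu.1
      hinj := fun u k l hk hl h => AucRel_inj w u k l hk.2 hl.2 h
      hDE := by
        intro u k hu
        obtain ⟨l, hl, hmin⟩ := AucRel_min w (w k u) u (h2 _ _ hu.1)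
        refine ⟨l, ⟨?_, hmin⟩, hl⟩
        rw [hl]
        exact hu.1
      hED := by
        intro c l hc
        obtain ⟨k, hk, hmin⟩ := AucRel_min w (w l c) c (h1 _ _ hc.1)
        refine ⟨k, ⟨?_, hmin⟩, hk⟩
        rw [hk]
        exact hc.1
      hDcard := by
        intro u hu
        have h3 : {c | (u, c) ∈ A} =
            (fun k => w k u) '' {k | (u, w k u) ∈ A ∧ ∀ j < k, w j u ≠ w k u} := by
          ext c
          constructor
          · intro hc
            obtain ⟨k, hk, hmin⟩ := AucRel_min w u c (h1 _ _ hc)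
            refine ⟨k, ⟨?_, hmin⟩, hk⟩
            rw [hk]
            exact hc
          · rintro ⟨k, hk, rfl⟩
            exact hk.1
        have h4 := hD u hu
        rw [h3, Set.InjOn.ncard_image fun k hk l hl h => AucRel_inj w u k l hk.2 hl.2 h] at h4
        exact h4
      hEcard := by
        intro c
        have h3 : {u | (u, c) ∈ A} =
            (fun l => w l c) '' {l | (w l c, c) ∈ A ∧ ∀ j < l, w j c ≠ w l c} := by
          ext u
          constructor
          · intro hu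
            obtain ⟨l, hl, hmin⟩ := AucRel_min w c u (h2 _ _ hu)
            refine ⟨l, ⟨?_, hmin⟩, hl⟩
            rw [hl]
            exact hu
          · rintro ⟨l, hl, rfl⟩
            exact hl.1
        have h4 := hE c
        rw [h3, Set.InjOn.ncard_image fun k hk l hl h => AucRel_inj w c k l hk.2 hl.2 h] at h4
        exact h4 }
  -- the colouring
  let R : Set (X × X) := {p | p.1 ≠ p.2 ∧ ∃ c, (p.1, c) ∈ A ∧ (p.2, c) ∈ A}
  have hRm : MeasurableSet R := by
    have h3 : R = {p : X × X | p.1 = p.2}ᶜ ∩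
        ⋃ k, ({p : X × X | (p.1, w k p.1) ∈ A} ∩ {p : X × X | (p.2, w k p.1) ∈ A}) := by
      ext p
      constructor
      · rintro ⟨hne, c, hc1, hc2⟩
        obtain ⟨k, rfl⟩ := h1 _ _ hc1
        exact ⟨hne, Set.mem_iUnion.2 ⟨k, hc1, hc2⟩⟩
      · rintro ⟨hne, hp⟩
        obtain ⟨k, hc1, hc2⟩ := Set.mem_iUnion.1 hp
        exact ⟨hne, _, hc1, hc2⟩
    rw [h3]
    refine (AucRel_eq measurable_fst measurable_snd).compl.inter
      (MeasurableSet.iUnion fun k => ?_)
    exact ((measurable_fst.prodMk ((hw k).comp measurable_fst)) hA).inter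
      ((measurable_snd.prodMk ((hw k).comp measurable_fst)) hA)
  obtain ⟨c, hc, hcol⟩ := exists_colouring
    (fun i : Fin (M * M) => fun x => w (finProdFinEquiv.symm i).2 (w (finProdFinEquiv.symm i).1 x))
    (fun i => (hw _).comp (hw _)) R hRm
    (fun x y h => ⟨h.1.symm, h.2.choose, h.2.choose_spec.2, h.2.choose_spec.1⟩)
    (fun x h => h.1 rfl)
    (by
      rintro x y ⟨_, c, hc1, hc2⟩
      obtain ⟨k, hk⟩ := h1 _ _ hc1
      obtain ⟨l, hl⟩ := h2 _ _ hc2
      refine ⟨finProdFinEquiv (k, l), ?_⟩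
      simp only [Equiv.symm_apply_apply]
      change w l (w k x) = y
      rw [hk, hl])
  obtain ⟨a, ha, hae⟩ := auction AA ν (M * M) c hc (by
    intro u u' k k' hu hu' hk hcc
    by_contra hne
    refine hcol u u' ⟨hne, AA.w k u, hu.1, ?_⟩ hcc
    rw [hk]
    exact hu'.1)
  refine ⟨{p | ∃ k : Fin M, a p.1 = some k ∧ w k p.1 = p.2}, ?_, ?_, ?_, ?_⟩
  · have h3 : {p : X × X | ∃ k : Fin M, a p.1 = some k ∧ w k p.1 = p.2} =
        ⋃ k : Fin M, (Prod.fst ⁻¹' {x | a x = some k} ∩ {p : X × X | w k p.1 = p.2}) := by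
      ext p
      simp only [Set.mem_ofPred_eq, Set.mem_iUnion, Set.mem_inter_iff, Set.mem_preimage]
    rw [h3]
    refine MeasurableSet.iUnion fun k => ?_
    exact (measurable_fst (ha.meas k)).inter
      (AucRel_eq ((hw k).comp measurable_fst) measurable_snd)
  · rintro ⟨u, c'⟩ ⟨k, hk, hkc⟩
    have h3 : u ∈ AA.D k := ha.mem u k hk
    have h4 : (u, w k u) ∈ A := h3.1
    change w k u = c' at hkc
    rwa [hkc] at h4
  · rintro u u' c' ⟨k, hk, hkc⟩ ⟨k', hk', hkc'⟩
    exact ha.inj u u' k k' hk hk' (hkc.trans hkc'.symm)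
  · filter_upwards [hae] with u hu huY
    have h3 := hu huY
    obtain ⟨k, hk⟩ := Option.ne_none_iff_exists'.1 h3
    exact ⟨w k u, k, hk, rfl⟩

end Pool.Agent.Helper75.MG
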