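import Pool.Agent.Helper75.MG.AucDefs

/-!
# Project MG, piece D1: the one step inequality (pointwise, no measure)

Write `W' i = W A (upd A a Z i)`, `λ = 1/18`, `c = w k x` for a client `x` with `a x = some k`.

* `0 ≤ W ≤ 1`: at most 9 indices `l` with `c ∈ E l`; moreover `W ≤ 1/2` at served points.
* `W A a m ≤ W A a (m+1)` by induction on `m`.
* `key1`: `x ∈ Z ∩ Y` unserved. If `x ∈ D i` then `upd a Z i x = some i`, so `W' i m x ≤ 1/2`; otherwise
  `W' i m x ≤ 1`. At least 72 indices of the first kind: `∑ i, W' i m x + 36 ≤ M`.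
* Main inequality, induction on `m`. Let `x` be given.
  (a) `a x = none`, `x ∉ Y`: then `x ∉ D i` for every `i`, `upd a Z i x = none`, both sides are 0.
  (b) `a x = none`, `x ∈ Y`, `x ∉ Z`: `x ∉ T`, right side `M`, left side `≤ M`.
  (c) `a x = none`, `x ∈ Y`, `x ∈ Z`: `key1` and `36 ≥ 1`.
  (d) `a x = some k`, `x ∉ T`: no `l` with `c ∈ E l`, `a (w l c) = none`, `w l c ∈ Z`; by `hDE` nobody
      takes `c`, so `upd a Z i x = some k` for every `i`. For `m = 0` the left side is 0; for `m + 1` it is
      `λ ∑_(l, c ∈ E l) ∑ i, W' i m (w l c) ≤ λ ∑_(l, c ∈ E l) M * W a (m+2) (w l c) = M * W a (m+3) x`.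
  (e) `a x = some k`, `x ∈ T`: fix `l0` with `c ∈ E l0`, `u = w l0 c` unserved, `u ∈ Z`. By `hED` there is
      `k0` with `u ∈ D k0`, `w k0 u = c`, in particular `u ∈ Y`, `W a (m+2) u = 1`. By independence
      of `Z` and `hinj` only the index `i = k0` makes somebody take `c`. So for every `i`
      `W' i (m+1) x ≤ (if i = k0 then 1 else 0) + λ ∑_(l, c ∈ E l) W' i m (w l c)`.
      Sum over `i`; for `l ≠ l0` use the induction hypothesis, for `l = l0` use `key1`:
      `∑ i, W' i m u + 36 ≤ M = M * W a (m+2) u`. Altogether
      `∑ i, W' i (m+1) x + 36 λ ≤ 1 + M * W a (m+3) x`, and `36 λ = 2`. For `m = 0`: the left side is 1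
      and `W a 2 x ≥ λ * W a 1 u = λ`, `M ≥ 72`.
-/

namespace Pool.Agent.Helper75.MG

open MeasureTheory

variable {X : Type} [MeasurableSpace X]

private theorem astep_W_none (A : AD X) (a : X → Option (Fin A.M)) (m : ℕ) {x : X}
    (h : a x = none) (hY : x ∈ A.Y) : W A a (m + 1) x = 1 := by
  simp only [W, h, if_pos hY]

private theorem astep_W_none' (A : AD X) (a : X → Option (Fin A.M)) (m : ℕ) {x : X}
    (h : a x = none) (hY : x ∉ A.Y) : W A a m x = 0 := by
  cases m with
  | zero => rfl
  | succ m => simp only [W, h, if_neg hY]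

open Classical in
private theorem astep_W_some (A : AD X) (a : X → Option (Fin A.M)) (m : ℕ) {x : X}
    {k : Fin A.M} (h : a x = some k) : W A a (m + 1) x =
      (1 / 18) * ∑ l, if A.w k x ∈ A.E l then W A a m (A.w l (A.w k x)) else 0 := by
  simp only [W, h]

theorem W_nonneg (A : AD X) (a : X → Option (Fin A.M)) (m : ℕ) (x : X) : 0 ≤ W A a m x := by
  classical
  induction m generalizing x with
  | zero => exact le_refl _
  | succ m ih =>
    cases h : a x with
    | none =>
      by_cases hY : x ∈ A.Y
      · rw [astep_W_none A a m h hY]; norm_num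
      · rw [astep_W_none' A a (m + 1) h hY]
    | some k =>
      rw [astep_W_some A a m h]
      refine mul_nonneg (by norm_num) (Finset.sum_nonneg fun l _ => ?_)
      split_ifs
      · exact ih _
      · exact le_refl _

open Classical in
private theorem astep_sum_le (A : AD X) (c : X) (f : Fin A.M → ℝ) (hf : ∀ l, f l ≤ 1) :
    (∑ l, if c ∈ A.E l then f l else 0) ≤ 9 := by
  rw [← Finset.sum_filter]
  refine (Finset.sum_le_card_nsmul _ _ 1 fun l _ => hf l).trans ?_
  rw [nsmul_eq_mul, mul_one]
  have h := A.hEcard c
  rw [Set.ncard_eq_toFinset_card'] at h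
  have h2 : ({l | c ∈ A.E l} : Set (Fin A.M)).toFinset = Finset.univ.filter fun l => c ∈ A.E l := by
    ext l
    simp
  rw [h2] at h
  exact_mod_cast h

theorem W_le_one (A : AD X) (a : X → Option (Fin A.M)) (m : ℕ) (x : X) : W A a m x ≤ 1 := by
  classical
  induction m generalizing x with
  | zero => exact zero_le_one
  | succ m ih =>
    cases h : a x with
    | none =>
      by_cases hY : x ∈ A.Y
      · rw [astep_W_none A a m h hY]
      · rw [astep_W_none' A a (m + 1) h hY]; norm_num
    | some k =>
      rw [astep_W_some A a m h]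
      have := astep_sum_le A (A.w k x) (fun l => W A a m (A.w l (A.w k x))) fun l => ih _
      linarith

private theorem astep_W_le_half (A : AD X) (a : X → Option (Fin A.M)) (m : ℕ) {x : X}
    {k : Fin A.M} (h : a x = some k) : W A a m x ≤ 1 / 2 := by
  classical
  cases m with
  | zero => exact (by norm_num : (0 : ℝ) ≤ 1 / 2)
  | succ m =>
    rw [astep_W_some A a m h]
    have := astep_sum_le A (A.w k x) (fun l => W A a m (A.w l (A.w k x))) fun l => W_le_one A a m _
    linarith

theorem W_mono (A : AD X) (a : X → Option (Fin A.M)) (m : ℕ) (x : X) :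
    W A a m x ≤ W A a (m + 1) x := by
  classical
  induction m generalizing x with
  | zero => exact W_nonneg A a 1 x
  | succ m ih =>
    cases h : a x with
    | none =>
      by_cases hY : x ∈ A.Y
      · rw [astep_W_none A a m h hY, astep_W_none A a (m + 1) h hY]
      · rw [astep_W_none' A a (m + 1) h hY, astep_W_none' A a (m + 1 + 1) h hY]
    | some k =>
      rw [astep_W_some A a m h, astep_W_some A a (m + 1) h]
      refine mul_le_mul_of_nonneg_left (Finset.sum_le_sum fun l _ => ?_) (by norm_num)
      split_ifs
      · exact ih _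
      · exact le_refl _

private theorem astep_M (A : AD X) {u : X} (hu : u ∈ A.Y) : (72 : ℝ) ≤ A.M := by
  have h1 := A.hDcard u hu
  have h2 : ({k | u ∈ A.D k} : Set (Fin A.M)).ncard ≤ (Set.univ : Set (Fin A.M)).ncard :=
    Set.ncard_le_ncard (Set.subset_univ _) Set.finite_univ
  rw [Set.ncard_univ, Nat.card_eq_fintype_card, Fintype.card_fin] at h2
  exact_mod_cast h1.trans h2

/-- unserved active clients gain at least 36 -/
private theorem astep_key1 (A : AD X) {a : X → Option (Fin A.M)} {Z : Set X} (m : ℕ) {x : X}
    (h : a x = none) (hZ : x ∈ Z) (hY : x ∈ A.Y) :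
    (∑ i, W A (upd A a Z i) m x) + 36 ≤ A.M := by
  classical
  have h1 : ∀ i, W A (upd A a Z i) m x ≤ 1 - (if x ∈ A.D i then 1 / 2 else 0) := by
    intro i
    split_ifs with hi
    · have h2 : upd A a Z i x = some i := by
        unfold upd
        rw [if_pos h, if_pos ⟨hZ, hi⟩]
      have := astep_W_le_half A (upd A a Z i) m h2
      linarith
    · have := W_le_one A (upd A a Z i) m x
      linarith
  have h2 : (∑ i : Fin A.M, if x ∈ A.D i then (1 / 2 : ℝ) else 0) ≥ 36 := by
    rw [← Finset.sum_filter, Finset.sum_const, nsmul_eq_mul]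
    have h3 := A.hDcard x hY
    rw [Set.ncard_eq_toFinset_card'] at h3
    have h4 : ({l | x ∈ A.D l} : Set (Fin A.M)).toFinset =
        Finset.univ.filter fun l => x ∈ A.D l := by
      ext l
      simp
    rw [h4] at h3
    have h5 : (72 : ℝ) ≤ ((Finset.univ.filter fun l => x ∈ A.D l).card : ℝ) := by exact_mod_cast h3
    linarith
  have h3 : (∑ i, W A (upd A a Z i) m x) ≤ A.M - ∑ i : Fin A.M, if x ∈ A.D i then (1 / 2 : ℝ) else 0 := by
    refine (Finset.sum_le_sum fun i _ => h1 i).trans (le_of_eq ?_)
    rw [Finset.sum_sub_distrib, Finset.sum_const, nsmul_eq_mul, mul_one, Finset.card_univ,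
      Fintype.card_fin]
  linarith

/-- the double sum over the clients adjacent to the server `c` -/
private theorem astep_swap (A : AD X) {a : X → Option (Fin A.M)} {Z : Set X} (m : ℕ) (c : X) :
    haveI := Classical.propDecidable
    (∑ i, (1 / 18 : ℝ) * ∑ l, if c ∈ A.E l then W A (upd A a Z i) m (A.w l c) else 0) =
      (1 / 18) * ∑ l, if c ∈ A.E l then ∑ i, W A (upd A a Z i) m (A.w l c) else 0 := by
  classical
  rw [← Finset.mul_sum, Finset.sum_comm]
  congr 1
  refine Finset.sum_congr rfl fun l _ => ?_
  split_ifs
  · rfl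
  · simp

/-- nobody takes the server `c` of `x` unless `x` is touched -/
private theorem astep_upd_some (A : AD X) {a : X → Option (Fin A.M)} {Z : Set X} {x : X}
    {k : Fin A.M} (h : a x = some k) (i : Fin A.M)
    (hno : ∀ u, a u = none → u ∈ Z → u ∈ A.D i → A.w i u ≠ A.w k x) :
    upd A a Z i x = some k := by
  classical
  unfold upd
  rw [if_neg (by rw [h]; simp), if_neg, h]
  rintro ⟨k', hk', u, hu1, hu2, hu3, hu4⟩
  rw [h] at hk'
  obtain rfl := Option.some.inj hk'
  exact hno u hu1 hu2 hu3 hu4

open Classical in
theorem step_ineq (A : AD X) {a : X → Option (Fin A.M)} (ha : Valid A a) {Z : Set X}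
    (hZ : Indep A Z) (m : ℕ) (x : X) :
    (∑ i, W A (upd A a Z i) m x) + (if x ∈ T A a Z then 1 else 0) ≤ A.M * W A a (m + 2) x := by
  have hM0 : (0 : ℝ) ≤ A.M := Nat.cast_nonneg _
  have hR : ∀ n y, 0 ≤ (A.M : ℝ) * W A a n y := fun n y => mul_nonneg hM0 (W_nonneg A a n y)
  induction m generalizing x with
  | zero =>
    have h0 : (∑ i, W A (upd A a Z i) 0 x) = 0 := Finset.sum_eq_zero fun i _ => rfl
    rw [h0, zero_add]
    split_ifs with hT
    · rcases hT with ⟨h1, h2, h3⟩ | ⟨k, hk, l, hl1, hl2, hl3⟩
      · rw [astep_W_none A a 1 h1 h3, mul_one]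
        linarith [astep_M A h3]
      · -- a client of the server of `x` is unserved
        obtain ⟨k0, hk0, _⟩ := A.hED _ _ hl1
        have hY := A.hDY _ hk0
        rw [astep_W_some A a 1 hk]
        have h4 : (1 : ℝ) ≤ ∑ l, if A.w k x ∈ A.E l then W A a 1 (A.w l (A.w k x)) else 0 := by
          have h5 := Finset.single_le_sum (s := Finset.univ)
            (f := fun l => if A.w k x ∈ A.E l then W A a 1 (A.w l (A.w k x)) else 0)
            (fun l _ => by
              split_ifs
              · exact W_nonneg A a 1 _
              · exact le_refl _) (Finset.mem_univ l)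
          simp only [if_pos hl1, astep_W_none A a 0 hl2 hY] at h5
          exact h5
        have h6 := astep_M A hY
        nlinarith
    · exact hR _ _
  | succ m ih =>
    cases h : a x with
    | none =>
      by_cases hY : x ∈ A.Y
      · rw [astep_W_none A a (m + 1 + 1) h hY, mul_one]
        split_ifs with hT
        · have hxZ : x ∈ Z := by
            rcases hT with h1 | ⟨k, hk, _⟩
            · exact h1.2.1
            · rw [h] at hk; exact absurd hk (by simp)
          have := astep_key1 A (m + 1) h hxZ hY
          linarith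
        · have h1 : (∑ i, W A (upd A a Z i) (m + 1) x) ≤ ∑ _i : Fin A.M, (1 : ℝ) :=
            Finset.sum_le_sum fun i _ => W_le_one A _ _ _
          rw [Finset.sum_const, nsmul_eq_mul, mul_one, Finset.card_univ, Fintype.card_fin] at h1
          linarith
      · have hT : x ∉ T A a Z := by
          rintro (h1 | ⟨k, hk, _⟩)
          · exact hY h1.2.2
          · rw [h] at hk; exact absurd hk (by simp)
        have h1 : (∑ i, W A (upd A a Z i) (m + 1) x) = 0 := by
          refine Finset.sum_eq_zero fun i _ => astep_W_none' A _ _ ?_ hY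
          unfold upd
          rw [if_pos h, if_neg fun h2 => hY (A.hDY i h2.2)]
        rw [h1, if_neg hT, zero_add]
        exact hR _ _
    | some k =>
      set c := A.w k x with hc
      -- the induction hypothesis for the clients of `c`
      have hIH : ∀ l, (∑ i, W A (upd A a Z i) m (A.w l c)) ≤ A.M * W A a (m + 2) (A.w l c) := by
        intro l
        have h1 := ih (A.w l c)
        have h2 : (0 : ℝ) ≤ if A.w l c ∈ T A a Z then 1 else 0 := by split_ifs <;> norm_num
        linarith
      have hRx : (A.M : ℝ) * W A a (m + 1 + 2) x =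
          (1 / 18) * ∑ l, if c ∈ A.E l then (A.M : ℝ) * W A a (m + 2) (A.w l c) else 0 := by
        rw [astep_W_some A a (m + 2) h, ← hc, mul_left_comm, Finset.mul_sum]
        congr 1
        refine Finset.sum_congr rfl fun l _ => ?_
        split_ifs <;> simp
      rw [hRx]
      by_cases hT : x ∈ T A a Z
      · rw [if_pos hT]
        obtain ⟨l0, hl1, hl2, hl3⟩ : ∃ l, c ∈ A.E l ∧ a (A.w l c) = none ∧ A.w l c ∈ Z := by
          rcases hT with h1 | ⟨k', hk', h2⟩
          · rw [h] at h1; exact absurd h1.1 (by simp)
          · rw [h] at hk'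
            obtain rfl := Option.some.inj hk'
            exact h2
        obtain ⟨k0, hk0, hk1⟩ := A.hED _ _ hl1
        have hY := A.hDY _ hk0
        have hkey := astep_key1 A m hl2 hl3 hY
        have hW1 : W A a (m + 2) (A.w l0 c) = 1 := astep_W_none A a (m + 1) hl2 hY
        have h1 : ∀ i, W A (upd A a Z i) (m + 1) x ≤ (if i = k0 then 1 else 0) +
            (1 / 18 : ℝ) * ∑ l, if c ∈ A.E l then W A (upd A a Z i) m (A.w l c) else 0 := by
          intro i
          have h2 : (0 : ℝ) ≤ ∑ l, if c ∈ A.E l then W A (upd A a Z i) m (A.w l c) else 0 :=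
            Finset.sum_nonneg fun l _ => by
              split_ifs
              · exact W_nonneg A _ _ _
              · exact le_refl _
          split_ifs with hi
          · have := W_le_one A (upd A a Z i) (m + 1) x
            linarith
          · have h3 : upd A a Z i x = some k := by
              refine astep_upd_some A h i fun u hu1 hu2 hu3 hu4 => hi ?_
              have h4 : u = A.w l0 c := hZ u hu2 _ hl3 i k0 hu3 hk0 (by rw [hu4, hk1])
              rw [h4] at hu3 hu4
              exact A.hinj _ i k0 hu3 hk0 (by rw [hu4, hk1])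
            rw [astep_W_some A _ m h3, zero_add]
        have h2 : (∑ i, W A (upd A a Z i) (m + 1) x) ≤ 1 +
            (1 / 18) * ∑ l, if c ∈ A.E l then ∑ i, W A (upd A a Z i) m (A.w l c) else 0 := by
          refine (Finset.sum_le_sum fun i _ => h1 i).trans (le_of_eq ?_)
          rw [Finset.sum_add_distrib, Finset.sum_ite_eq' Finset.univ k0, if_pos (Finset.mem_univ _)]
          congr 1
          convert astep_swap A m c
        have h3 : (∑ l, if c ∈ A.E l then ∑ i, W A (upd A a Z i) m (A.w l c) else 0) + 36 ≤
            ∑ l, if c ∈ A.E l then (A.M : ℝ) * W A a (m + 2) (A.w l c) else 0 := by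
          rw [← Finset.add_sum_erase Finset.univ _ (Finset.mem_univ l0),
            ← Finset.add_sum_erase (a := l0) Finset.univ
              (fun l => if c ∈ A.E l then (A.M : ℝ) * W A a (m + 2) (A.w l c) else 0)
              (Finset.mem_univ l0)]
          simp only [if_pos hl1, hW1, mul_one]
          have h4 : (∑ l ∈ Finset.univ.erase l0,
              if c ∈ A.E l then ∑ i, W A (upd A a Z i) m (A.w l c) else 0) ≤
              ∑ l ∈ Finset.univ.erase l0,
                if c ∈ A.E l then (A.M : ℝ) * W A a (m + 2) (A.w l c) else 0 := by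
            refine Finset.sum_le_sum fun l _ => ?_
            split_ifs
            · exact hIH l
            · exact le_refl _
          linarith
        linarith
      · rw [if_neg hT, add_zero]
        have h1 : ∀ i, W A (upd A a Z i) (m + 1) x =
            (1 / 18 : ℝ) * ∑ l, if c ∈ A.E l then W A (upd A a Z i) m (A.w l c) else 0 := by
          intro i
          have h3 : upd A a Z i x = some k := by
            refine astep_upd_some A h i fun u hu1 hu2 hu3 hu4 => hT ?_
            obtain ⟨l, hl1, hl2⟩ := A.hDE u i hu3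
            rw [hu4] at hl1 hl2
            exact Or.inr ⟨k, h, l, hl1, by rw [hl2]; exact hu1, by rw [hl2]; exact hu2⟩
          rw [astep_W_some A _ m h3]
        rw [Finset.sum_congr rfl fun i _ => h1 i]
        have h2 : (∑ i, (1 / 18 : ℝ) * ∑ l, if c ∈ A.E l then W A (upd A a Z i) m (A.w l c) else 0) =
            (1 / 18) * ∑ l, if c ∈ A.E l then ∑ i, W A (upd A a Z i) m (A.w l c) else 0 := by
          convert astep_swap A m c
        rw [h2]
        refine mul_le_mul_of_nonneg_left (Finset.sum_le_sum fun l _ => ?_) (by norm_num)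
        split_ifs
        · exact hIH l
        · exact le_refl _

end Pool.Agent.Helper75.MG
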