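import Pool.Agent.Helper75.MG.BDefs

/-!
# Project BC, piece 1: a sparse set meets the surroundings of a connected set rarely

Let `P = {z ∈ Z | ∃ c, (z, c) ∈ A ∧ c ∈ nbr A S}`. For `z ∈ P` there is `s z ∈ S` with `Sh A z (s z)`, so
`Nr G (2 * r) z (s z)`. `P` is finite: `z ↦ s z` is injective on `P` (`Nr G (4 * r) z z'` if `s z = s z'`).
For `s ∈ S` let `L 0 = {s}`, `L (i+1) = L i ∪ {b ∈ S | ∃ a ∈ L i, Sh A a b}` (finsets). By `Conn`, `L i = S` or
`card (L (i+1)) > card (L i)`, so `L i = S` or `card (L i) ≥ i + 1`; every point of `L i` is at distance at most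
`2 * r * i` from `s`. Let `P` have at least two points and `q ≥ 1` (for `q = 0` nothing is to show). For
`z ≠ z'` in `P` the sets `L (q-1)` of `s z` and of `s z'` are disjoint (otherwise `Nr G (4 * r * q) z z'`), in particular
they are not `S` (both are nonempty), so each has at least `q` points: `q * card P ≤ card S`.
-/

namespace Pool.Agent.Helper75.MG

variable {X : Type} {G : SimpleGraph X} {t : Fin 3 → X → X} {r : ℕ} {A : Set (X × X)} {Y : Set X}

open Classical in
/-- the points of `S` joined to `s` by at most `i` steps -/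
private noncomputable def BConn_L (A : Set (X × X)) (S : Finset X) (s : X) : ℕ → Finset X
  | 0 => {s}
  | i + 1 => S.filter fun b => b ∈ BConn_L A S s i ∨ ∃ a ∈ BConn_L A S s i, Sh A a b

private theorem BConn_mem {S : Finset X} {s x : X} {i : ℕ} : x ∈ BConn_L A S s (i + 1) ↔
    x ∈ S ∧ (x ∈ BConn_L A S s i ∨ ∃ a ∈ BConn_L A S s i, Sh A a x) := by
  simp only [BConn_L, Finset.mem_filter]

private theorem BConn_sub {S : Finset X} {s : X} (hs : s ∈ S) (i : ℕ) : BConn_L A S s i ⊆ S := by
  cases i with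
  | zero =>
    intro x hx
    rw [BConn_L, Finset.mem_singleton] at hx
    rw [hx]
    exact hs
  | succ i =>
    intro x hx
    exact (BConn_mem.1 hx).1

private theorem BConn_mono {S : Finset X} {s : X} (hs : s ∈ S) (i : ℕ) :
    BConn_L A S s i ⊆ BConn_L A S s (i + 1) := by
  intro x hx
  exact BConn_mem.2 ⟨BConn_sub hs i hx, Or.inl hx⟩

private theorem BConn_self {S : Finset X} {s : X} (hs : s ∈ S) (i : ℕ) : s ∈ BConn_L A S s i := by
  induction i with
  | zero => rw [BConn_L, Finset.mem_singleton]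
  | succ i ih => exact BConn_mono hs i ih

private theorem BConn_sh (hD : BData G t r A Y) {a b : X} (h : Sh A a b) : Nr G (2 * r) a b := by
  obtain ⟨c, h1, h2⟩ := h
  have := (hD.near a c h1).trans (hD.near b c h2).symm
  exact this.mono (by omega)

private theorem BConn_nr (hD : BData G t r A Y) {S : Finset X} {s : X} (i : ℕ) :
    ∀ b ∈ BConn_L A S s i, Nr G (2 * r * i) s b := by
  induction i with
  | zero =>
    intro b hb
    rw [BConn_L, Finset.mem_singleton] at hb
    rw [hb]
    exact Nr.refl _ _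
  | succ i ih =>
    intro b hb
    rw [BConn_mem] at hb
    rcases hb.2 with h | ⟨a, ha, h⟩
    · exact (ih b h).mono (by rw [Nat.mul_succ]; omega)
    · exact ((ih a ha).trans (BConn_sh hD h)).mono (by rw [Nat.mul_succ])

private theorem BConn_card {S : Finset X} (hS : Conn A S) {s : X} (hs : s ∈ S) (i : ℕ) :
    BConn_L A S s i = S ∨ i + 1 ≤ (BConn_L A S s i).card := by
  induction i with
  | zero =>
    right
    rw [BConn_L, Finset.card_singleton]
  | succ i ih =>
    by_cases hi : BConn_L A S s i = S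
    · left
      refine Finset.Subset.antisymm (BConn_sub hs _) ?_
      have := BConn_mono (A := A) hs i
      rwa [hi] at this
    · right
      have h1 := ih.resolve_left hi
      obtain ⟨a, ha, b, hb, hb', hab⟩ := hS _ (BConn_sub hs i) ⟨s, BConn_self hs i⟩ hi
      have h2 : BConn_L A S s i ⊂ BConn_L A S s (i + 1) := by
        refine Finset.ssubset_iff_subset_ne.2 ⟨BConn_mono hs i, fun he => hb' ?_⟩
        rw [he, BConn_mem]
        exact ⟨hb, Or.inr ⟨a, ha, hab⟩⟩
      have h3 := Finset.card_lt_card h2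
      omega

theorem sparse_bound (hD : BData G t r A Y) {S : Finset X} (hS : Conn A S) {q : ℕ} {Z : Set X}
    (hZ : Sparse G (4 * r * (q + 2)) Z) :
    {z | z ∈ Z ∧ ∃ c, (z, c) ∈ A ∧ c ∈ nbr A S}.Finite ∧
      ({z | z ∈ Z ∧ ∃ c, (z, c) ∈ A ∧ c ∈ nbr A S}.ncard ≤ 1 ∨
        q * {z | z ∈ Z ∧ ∃ c, (z, c) ∈ A ∧ c ∈ nbr A S}.ncard ≤ S.card) := by
  classical
  set P : Set X := {z | z ∈ Z ∧ ∃ c, (z, c) ∈ A ∧ c ∈ nbr A S} with hP
  have h1 : ∀ z ∈ P, ∃ u ∈ S, Nr G (2 * r) z u := by
    rintro z ⟨-, c, hc, u, hu, huc⟩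
    exact ⟨u, hu, BConn_sh hD ⟨c, hc, huc⟩⟩
  choose! s hs hs' using h1
  have key : ∀ i, i ≤ q → ∀ z ∈ P, ∀ z' ∈ P, z ≠ z' → ∀ b, Nr G (2 * r * i) (s z) b →
      ¬ Nr G (2 * r * i) (s z') b := by
    intro i hi z hz z' hz' hne b h h'
    refine hZ z hz.1 z' hz'.1 hne ?_
    have h2 := (((hs' z hz).trans h).trans h'.symm).trans (hs' z' hz').symm
    refine h2.mono ?_
    have h3 : 2 * r * i ≤ 2 * r * q := Nat.mul_le_mul_left _ hi
    have h4 : 4 * r * (q + 2) = 2 * (2 * r * q) + 8 * r := by ring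
    omega
  have hinj : Set.InjOn s P := by
    intro z hz z' hz' he
    by_contra hne
    refine key 0 (Nat.zero_le _) z hz z' hz' hne (s z) (Nr.refl _ _) ?_
    rw [← he]
    exact Nr.refl _ _
  have hfin : P.Finite := by
    refine Set.Finite.of_finite_image (S.finite_toSet.subset ?_) hinj
    rintro _ ⟨z, hz, rfl⟩
    exact hs z hz
  refine ⟨hfin, ?_⟩
  rcases Nat.lt_or_ge 1 P.ncard with hlt | hle
  · right
    rcases Nat.eq_zero_or_pos q with hq | hq
    · subst hq
      simp
    obtain ⟨z₁, hz₁, z₂, hz₂, h12⟩ := (Set.one_lt_ncard hfin).1 hlt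
    have hdisj : ∀ z ∈ P, ∀ z' ∈ P, z ≠ z' →
        Disjoint (BConn_L A S (s z) (q - 1)) (BConn_L A S (s z') (q - 1)) := by
      intro z hz z' hz' hne
      rw [Finset.disjoint_left]
      intro b hb hb'
      exact key (q - 1) (by omega) z hz z' hz' hne b (BConn_nr hD _ b hb) (BConn_nr hD _ b hb')
    have hcard : ∀ z ∈ P, q ≤ (BConn_L A S (s z) (q - 1)).card := by
      intro z hz
      rcases BConn_card hS (hs z hz) (q - 1) with h | h
      · exfalso
        obtain ⟨z', hz', hne⟩ : ∃ z' ∈ P, z ≠ z' := by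
          by_cases h3 : z = z₁
          · exact ⟨z₂, hz₂, h3 ▸ h12⟩
          · exact ⟨z₁, hz₁, h3⟩
        have h4 := hdisj z hz z' hz' hne
        rw [h] at h4
        exact Finset.disjoint_left.1 h4 (hs z' hz') (BConn_self (hs z' hz') _)
      · omega
    rw [Set.ncard_eq_toFinset_card P hfin]
    calc q * hfin.toFinset.card = ∑ _z ∈ hfin.toFinset, q := by
          rw [Finset.sum_const, smul_eq_mul, mul_comm]
      _ ≤ ∑ z ∈ hfin.toFinset, (BConn_L A S (s z) (q - 1)).card :=
          Finset.sum_le_sum fun z hz => hcard z (hfin.mem_toFinset.1 hz)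
      _ = (hfin.toFinset.biUnion fun z => BConn_L A S (s z) (q - 1)).card := by
          rw [Finset.card_biUnion]
          intro z hz z' hz' hne
          exact hdisj z (hfin.mem_toFinset.1 hz) z' (hfin.mem_toFinset.1 hz') hne
      _ ≤ S.card := by
          refine Finset.card_le_card (Finset.biUnion_subset.2 fun z hz => ?_)
          exact BConn_sub (hs z (hfin.mem_toFinset.1 hz)) _
  · exact Or.inl hle

/-- points of a connected set with at most `m` points are near each of its adjacent servers -/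
theorem conn_near (hD : BData G t r A Y) {S : Finset X} (hS : Conn A S) {m : ℕ}
    (hm : S.card ≤ m) {c : X} (hc : c ∈ nbr A S) (v : X) (hv : v ∈ S) :
    Nr G (2 * r * m + r) c v := by
  obtain ⟨u, hu, huc⟩ := hc
  have h1 : BConn_L A S u m = S := by
    rcases BConn_card hS hu m with h | h
    · exact h
    · have := Finset.card_le_card (BConn_sub (A := A) hu m)
      omega
  have h2 := BConn_nr hD (S := S) (s := u) m v (by rw [h1]; exact hv)
  exact ((hD.near u c huc).symm.trans h2).mono (by omega)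

end Pool.Agent.Helper75.MG
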