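import Pool.Agent.Helper75.MG.Words

/-!
# Project BC (MP_5a85b5_lc, Baire category version): definitions

A relation `A` between clients `u` and servers `c` (pairs `(u, c) ∈ A`). `nbr A S`: the servers adjacent to
the finite set `S` of clients. `Sh A u v`: the clients `u`, `v` have a common adjacent server.
-/

namespace Pool.Agent.Helper75.MG

variable {X : Type}

/-- the servers adjacent to a finite set of clients -/
def nbr (A : Set (X × X)) (S : Finset X) : Set X := {c | ∃ u ∈ S, (u, c) ∈ A}

/-- two clients with a common adjacent server -/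
def Sh (A : Set (X × X)) (u v : X) : Prop := ∃ c, (u, c) ∈ A ∧ (v, c) ∈ A

/-- a connected finite set of clients -/
def Conn (A : Set (X × X)) (S : Finset X) : Prop :=
  ∀ T ⊆ S, T.Nonempty → T ≠ S → ∃ a ∈ T, ∃ b ∈ S, b ∉ T ∧ Sh A a b

/-- different points of `Z` have distance more than `R` -/
def Sparse (G : SimpleGraph X) (R : ℕ) (Z : Set X) : Prop :=
  ∀ x ∈ Z, ∀ y ∈ Z, x ≠ y → ¬ Nr G R x y

/-- Hall's condition for the clients in `U` and the servers outside `Q` -/
def HallC (A : Set (X × X)) (U Q : Set X) : Prop :=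
  ∀ S : Finset X, (S : Set X) ⊆ U → S.card ≤ (nbr A S \ Q).ncard

/-- the first coordinates of `B` -/
def dom (B : Set (X × X)) : Set X := {u | ∃ c, (u, c) ∈ B}

/-- the second coordinates of `B` -/
def ran (B : Set (X × X)) : Set X := {c | ∃ u, (u, c) ∈ B}

/-- the standing assumptions -/
structure BData (G : SimpleGraph X) (t : Fin 3 → X → X) (r : ℕ) (A : Set (X × X)) (Y : Set X) :
    Prop where
  hadj : ∀ x y, G.Adj x y ↔ ∃ i, t i x = y
  near : ∀ u c, (u, c) ∈ A → Nr G r u c
  mem : ∀ u c, (u, c) ∈ A → u ∈ Y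
  deg : ∀ u ∈ Y, 72 ≤ {c | (u, c) ∈ A}.ncard
  codeg : ∀ c, {u | (u, c) ∈ A}.ncard ≤ 9

/-- a state of the construction after `n` steps: `B` is a partial matching, the rest satisfies
Hall's condition, and `B` uses few servers near every connected finite set of clients -/
structure St (A : Set (X × X)) (Y : Set X) (n : ℕ) (B : Set (X × X)) : Prop where
  sub : B ⊆ A
  fn : ∀ u c c', (u, c) ∈ B → (u, c') ∈ B → c = c'
  inj : ∀ u u' c, (u, c) ∈ B → (u', c) ∈ B → u = u'
  hall : HallC A (Y \ dom B) (ran B)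
  few : ∀ S : Finset X, (S : Set X) ⊆ Y → Conn A S →
    2 ^ n * (nbr A S ∩ ran B).ncard + S.card ≤ 2 ^ n * (n + S.card)

end Pool.Agent.Helper75.MG
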