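import Pool.Agent.Helper75.MG.Words
import Pool.Agent.Helper75.MG.Col
import Pool.Agent.Helper75.MG.BDefs

/-!
# Project BC, piece 5: generic sparse sets

For a list `l : List (Fin 3)` let `act l x = l.foldr (fun i z => t i z) x`; every `y` reachable from `x` is `act l x` for
some `l`. Let `U_k` be a countable basis of open sets. Numbers `n` encode pairs `(k, l)`. For every `n = (k, l)`
`exists_colouring` (for the relation `Nr G (R n) x y ∧ x ≠ y` with the words of radius `R n`) gives a
measurable `c_n : X → Fin (K_n)` with `R n`-sparse classes. If `U_k` is nonempty it is not meagre, and it is the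
finite union of the sets `{x ∈ U_k | c_n (act l x) = i}`; choose `i_n` such that this set is not meagre,
`Z n = {y | c_n y = i_n}` (if `U_k` is empty: any `i_n`).
Claim: for every `l` the Borel set `P_l = {x | ∃ n, act l x ∈ Z n}` is comeagre. Otherwise its complement is, modulo
a meagre set, a nonempty open set `O` (`MeasurableSet.residualEq_isOpen`), so `P_l ∩ U_k` is meagre for some
nonempty `U_k ⊆ O`; but it contains the nonmeagre set `{x ∈ U_k | c_n (act l x) = i_n}`, `n = (k, l)`.
Intersect over the countably many `l`.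
-/

namespace Pool.Agent.Helper75.MG

open MeasureTheory

private def BGen_act {X : Type} (t : Fin 3 → X → X) (l : List (Fin 3)) (x : X) : X :=
  l.foldr (fun i z => t i z) x

private theorem BGen_meas {X : Type} [MeasurableSpace X] {t : Fin 3 → X → X}
    (ht : ∀ i, Measurable (t i)) (l : List (Fin 3)) : Measurable (BGen_act t l) := by
  induction l with
  | nil => exact measurable_id
  | cons i l ih => exact (ht i).comp ih

private theorem BGen_reach {X : Type} {G : SimpleGraph X} {t : Fin 3 → X → X}
    (hadj : ∀ x y, G.Adj x y ↔ ∃ i, t i x = y) {x y : X} (h : G.Reachable x y) :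
    ∃ l : List (Fin 3), BGen_act t l x = y := by
  rw [SimpleGraph.reachable_iff_reflTransGen] at h
  induction h with
  | refl => exact ⟨[], rfl⟩
  | tail _ hab ih =>
    obtain ⟨l, rfl⟩ := ih
    obtain ⟨i, hi⟩ := (hadj _ _).1 hab
    exact ⟨i :: l, hi⟩

private theorem BGen_col {X : Type} [MeasurableSpace X] [StandardBorelSpace X]
    {G : SimpleGraph X} {t : Fin 3 → X → X} (ht : ∀ i, Measurable (t i))
    (hadj : ∀ x y, G.Adj x y ↔ ∃ i, t i x = y) (R : ℕ) :
    ∃ c : X → Fin (4 ^ R + 1), Measurable c ∧
      ∀ x y, Nr G R x y → x ≠ y → c x ≠ c y := by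
  obtain ⟨w, hw, hN⟩ := exists_words G t ht hadj R
  have hm : ∀ n, MeasurableSet {z : X × X | Nr G n z.1 z.2} := fun n =>
    measurableSet_Nr G t ht (fun _ => Set.univ) (fun _ => MeasurableSet.univ)
      (fun x y => by simp [hadj]) n
  obtain ⟨c, hc, hc'⟩ := exists_colouring w hw
    ({z : X × X | Nr G R z.1 z.2} ∩ {z : X × X | Nr G 0 z.1 z.2}ᶜ) ((hm R).inter (hm 0).compl)
    (fun x y h => ⟨h.1.symm, fun h' => h.2 (Nr.symm h')⟩)
    (fun x h => h.2 (Nr.refl 0 x)) (fun x y h => (hN x y).1 h.1)
  exact ⟨c, hc, fun x y h hne => hc' x y ⟨h, fun h' => hne (Nr_zero.1 h')⟩⟩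

theorem exists_generic {X : Type} [TopologicalSpace X] [PolishSpace X] [MeasurableSpace X]
    [BorelSpace X] {G : SimpleGraph X} {t : Fin 3 → X → X} (ht : ∀ i, Measurable (t i))
    (hadj : ∀ x y, G.Adj x y ↔ ∃ i, t i x = y) (R : ℕ → ℕ) :
    ∃ Z : ℕ → Set X, (∀ n, MeasurableSet (Z n)) ∧ (∀ n, Sparse G (R n) (Z n)) ∧
      ∀ᶠ x in residual X, ∀ y, G.Reachable x y → ∃ n, y ∈ Z n := by
  classical
  obtain ⟨b, hbc, hbe, hb⟩ := TopologicalSpace.exists_countable_basis X
  have hcb : Countable b := hbc.to_subtype
  let e : Encodable (b × List (Fin 3)) := Encodable.ofCountable _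
  choose c hcm hc using fun n : ℕ => BGen_col ht hadj (R n)
  -- some colour class is not meagre
  have hex : ∀ (q : b × List (Fin 3)) (n : ℕ), ∃ i : Fin (4 ^ R n + 1),
      ¬ IsMeagre {x : X | x ∈ (q.1 : Set X) ∧ c n (BGen_act t q.2 x) = i} := by
    intro q n
    by_contra hcon
    push Not at hcon
    have h1 := isMeagre_iUnion hcon
    have h2 : (⋃ i : Fin (4 ^ R n + 1),
        {x : X | x ∈ (q.1 : Set X) ∧ c n (BGen_act t q.2 x) = i}) = (q.1 : Set X) := by
      ext x
      simp
    rw [h2] at h1
    refine not_isMeagre_of_isOpen (hb.isOpen q.1.2) ?_ h1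
    rw [Set.nonempty_iff_ne_empty]
    intro h3
    apply hbe
    rw [← h3]
    exact q.1.2
  choose i hi using hex
  let Z : ℕ → Set X := fun n =>
    (e.decode n).elim ∅ (fun q => {y : X | c n y = i q n})
  have hZs : ∀ (n : ℕ) (q : b × List (Fin 3)), e.decode n = some q →
      Z n = {y : X | c n y = i q n} := by
    intro n q h
    change (e.decode n).elim ∅ (fun q => {y : X | c n y = i q n}) = _
    rw [h]
    rfl
  have hZn : ∀ n : ℕ, e.decode n = none → Z n = ∅ := by
    intro n h
    change (e.decode n).elim ∅ (fun q => {y : X | c n y = i q n}) = _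
    rw [h]
    rfl
  have hZm : ∀ n, MeasurableSet (Z n) := by
    intro n
    rcases h : e.decode n with _ | q
    · rw [hZn n h]
      exact MeasurableSet.empty
    · rw [hZs n q h]
      exact (hcm n) (measurableSet_singleton (i q n))
  refine ⟨Z, hZm, ?_, ?_⟩
  · intro n x hx y hy hne hN
    rcases h : e.decode n with _ | q
    · rw [hZn n h] at hx
      exact hx
    · rw [hZs n q h] at hx hy
      have hx' : c n x = i q n := hx
      have hy' : c n y = i q n := hy
      exact hc n x y hN hne (hx'.trans hy'.symm)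
  · have key : ∀ l : List (Fin 3), ∀ᶠ x in residual X, ∃ n, BGen_act t l x ∈ Z n := by
      intro l
      have hm : MeasurableSet {x : X | ∃ n, BGen_act t l x ∈ Z n} := by
        have h1 : {x : X | ∃ n, BGen_act t l x ∈ Z n} = ⋃ n, BGen_act t l ⁻¹' Z n := by
          ext x
          simp
        rw [h1]
        exact MeasurableSet.iUnion fun n => (BGen_meas ht l) (hZm n)
      obtain ⟨O, hO, hSO⟩ := hm.compl.residualEq_isOpen
      have hSO' : ∀ᶠ x in residual X, (¬ ∃ n, BGen_act t l x ∈ Z n) ↔ x ∈ O := by
        filter_upwards [hSO] with x hx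
        exact iff_of_eq hx
      rcases O.eq_empty_or_nonempty with h0 | ⟨x₀, hx₀⟩
      · filter_upwards [hSO'] with x hx
        rw [h0] at hx
        by_contra h1
        exact hx.1 h1
      · exfalso
        obtain ⟨U, hU, -, hUO⟩ := hb.exists_subset_of_mem_open hx₀ hO
        let q : b × List (Fin 3) := (⟨U, hU⟩, l)
        apply hi q (e.encode q)
        have hdec : e.decode (e.encode q) = some q := e.encodek q
        change _ ∈ residual X
        filter_upwards [hSO'] with x hx hx'
        obtain ⟨hxU, hxc⟩ := hx'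
        refine hx.2 (hUO hxU) ⟨e.encode q, ?_⟩
        rw [hZs _ q hdec]
        exact hxc
    filter_upwards [eventually_countable_forall.2 key] with x hx y hy
    obtain ⟨l, rfl⟩ := BGen_reach hadj hy
    exact hx l

end Pool.Agent.Helper75.MG
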