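import Pool.Agent.Helper75.MG.BDefs

/-!
# Project BC, piece 2: Hall's condition

* `finite_srv`, `finite_nbr`: from `near` and `finite_Nr`.
* `hall_of_conn`: strong induction on `card S`. If `S` is not connected, there is `T ⊆ S` nonempty, `T ≠ S`,
  without shared servers between `T` and `S \ T`; then `nbr A T`, `nbr A (S \ T)` are disjoint with union `nbr A S`.
* `expand`: count the pairs `(u, c) ∈ A`, `u ∈ S`: at least `72 * card S`, at most `9 * ncard (nbr A S)`.
* `exists_server`: Mathlib's Hall theorem for infinite index types,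
  `Finset.all_card_le_biUnion_card_iff_exists_injective`, index type `U` (subtype), finite sets
  `{c | (v, c) ∈ A} \ Q`, gives an injective `g` with `(v, g v) ∈ A`, `g v ∉ Q` for `v ∈ U`; take `c = g u`. For a
  finite `S ⊆ U \ {u}` the image of `S` under `g` is contained in `nbr A S \ insert c Q`.
-/

namespace Pool.Agent.Helper75.MG

variable {X : Type} {G : SimpleGraph X} {t : Fin 3 → X → X} {r : ℕ} {A : Set (X × X)} {Y : Set X}

theorem finite_srv (hD : BData G t r A Y) (u : X) : {c | (u, c) ∈ A}.Finite :=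
  (finite_Nr hD.hadj r u).1.subset fun c hc => hD.near u c hc

theorem finite_cli (hD : BData G t r A Y) (c : X) : {u | (u, c) ∈ A}.Finite :=
  (finite_Nr hD.hadj r c).1.subset fun u hu => (hD.near u c hu).symm

theorem finite_nbr (hD : BData G t r A Y) (S : Finset X) : (nbr A S).Finite := by
  refine (S.finite_toSet.biUnion fun u _ => finite_srv hD u).subset ?_
  rintro c ⟨u, hu, huc⟩
  exact Set.mem_biUnion (Finset.mem_coe.2 hu) huc

theorem hall_of_conn (hD : BData G t r A Y) {U Q : Set X}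
    (h : ∀ S : Finset X, (S : Set X) ⊆ U → Conn A S → S.card ≤ (nbr A S \ Q).ncard) :
    HallC A U Q := by
  classical
  have key : ∀ (n : ℕ) (S : Finset X), S.card = n → (S : Set X) ⊆ U →
      S.card ≤ (nbr A S \ Q).ncard := by
    intro n
    induction n using Nat.strong_induction_on with
    | _ n ih =>
      intro S hn hS
      by_cases hc : Conn A S
      · exact h S hS hc
      · unfold Conn at hc
        push Not at hc
        obtain ⟨T, hT, hne, hTS, hT2⟩ := hc
        have h1 : T.card < S.card := Finset.card_lt_card (hT.ssubset_of_ne hTS)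
        have h2 : (S \ T).card + T.card = S.card := Finset.card_sdiff_add_card_eq_card hT
        have h3 : 0 < T.card := hne.card_pos
        have hTU : (T : Set X) ⊆ U := (Finset.coe_subset.2 hT).trans hS
        have hSU : ((S \ T : Finset X) : Set X) ⊆ U :=
          (Finset.coe_subset.2 Finset.sdiff_subset).trans hS
        have h4 := ih T.card (by omega) T rfl hTU
        have h5 := ih (S \ T).card (by omega) (S \ T) rfl hSU
        have h6 : nbr A S \ Q = (nbr A (S \ T) \ Q) ∪ (nbr A T \ Q) := by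
          ext c
          constructor
          · rintro ⟨⟨u, hu, huc⟩, hcQ⟩
            by_cases huT : u ∈ T
            · exact Or.inr ⟨⟨u, huT, huc⟩, hcQ⟩
            · exact Or.inl ⟨⟨u, Finset.mem_sdiff.2 ⟨hu, huT⟩, huc⟩, hcQ⟩
          · rintro (⟨⟨u, hu, huc⟩, hcQ⟩ | ⟨⟨u, hu, huc⟩, hcQ⟩)
            · exact ⟨⟨u, (Finset.mem_sdiff.1 hu).1, huc⟩, hcQ⟩
            · exact ⟨⟨u, hT hu, huc⟩, hcQ⟩
        have h7 : Disjoint (nbr A (S \ T) \ Q) (nbr A T \ Q) := by
          rw [Set.disjoint_left]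
          rintro c ⟨⟨u, hu, huc⟩, -⟩ ⟨⟨v, hv, hvc⟩, -⟩
          rw [Finset.mem_sdiff] at hu
          exact hT2 v hv u hu.1 hu.2 ⟨c, hvc, huc⟩
        rw [h6, Set.ncard_union_eq h7 ((finite_nbr hD _).subset Set.sdiff_subset)
          ((finite_nbr hD _).subset Set.sdiff_subset)]
        omega
  exact fun S hS => key S.card S rfl hS

theorem expand (hD : BData G t r A Y) {S : Finset X} (hS : (S : Set X) ⊆ Y) :
    8 * S.card ≤ (nbr A S).ncard := by
  classical
  have hN : (nbr A S).ncard = (finite_nbr hD S).toFinset.card :=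
    Set.ncard_eq_toFinset_card _ (finite_nbr hD S)
  have h1 : S.card * 72 ≤ (finite_nbr hD S).toFinset.card * 9 := by
    refine Finset.card_mul_le_card_mul (fun u c => (u, c) ∈ A) ?_ ?_
    · intro u hu
      have h2 : {c | (u, c) ∈ A} =
          ((Finset.bipartiteAbove (fun u c => (u, c) ∈ A) (finite_nbr hD S).toFinset u :
            Finset X) : Set X) := by
        ext c
        rw [Finset.mem_coe, Finset.mem_bipartiteAbove, Set.Finite.mem_toFinset]
        exact ⟨fun h => ⟨⟨u, hu, h⟩, h⟩, fun h => h.2⟩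
      have h3 := hD.deg u (hS (Finset.mem_coe.2 hu))
      rwa [h2, Set.ncard_coe_finset] at h3
    · intro c _
      refine le_trans ?_ (hD.codeg c)
      rw [← Set.ncard_coe_finset]
      refine Set.ncard_le_ncard ?_ (finite_cli hD c)
      intro u hu
      rw [Finset.mem_coe, Finset.mem_bipartiteBelow] at hu
      exact hu.2
  omega

theorem exists_server (hD : BData G t r A Y) {U Q : Set X} (h : HallC A U Q) {u : X}
    (hu : u ∈ U) : ∃ c, (u, c) ∈ A ∧ c ∉ Q ∧ HallC A (U \ {u}) (insert c Q) := by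
  classical
  have hfin : ∀ v : X, ({c | (v, c) ∈ A} \ Q).Finite := fun v =>
    (finite_srv hD v).subset Set.sdiff_subset
  have hmem : ∀ (v c : X), c ∈ (hfin v).toFinset ↔ (v, c) ∈ A ∧ c ∉ Q := fun v c => by
    rw [Set.Finite.mem_toFinset]
    exact Iff.rfl
  obtain ⟨f, hf, hft⟩ := (Finset.all_card_le_biUnion_card_iff_exists_injective
    (fun v : U => (hfin v).toFinset)).1 (by
      intro s
      have h1 := h (s.map (Function.Embedding.subtype (· ∈ U))) (by
        intro x hx
        rw [Finset.mem_coe, Finset.mem_map] at hx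
        obtain ⟨y, -, rfl⟩ := hx
        exact y.2)
      rw [Finset.card_map] at h1
      refine h1.trans (le_of_eq ?_)
      rw [← Set.ncard_coe_finset]
      congr 1
      ext c
      rw [Finset.mem_coe, Finset.mem_biUnion]
      constructor
      · rintro ⟨⟨v, hv, hvc⟩, hcQ⟩
        rw [Finset.mem_map] at hv
        obtain ⟨y, hy, rfl⟩ := hv
        exact ⟨y, hy, (hmem _ _).2 ⟨hvc, hcQ⟩⟩
      · rintro ⟨y, hy, hc⟩
        obtain ⟨h2, h3⟩ := (hmem _ _).1 hc
        exact ⟨⟨y, Finset.mem_map.2 ⟨y, hy, rfl⟩, h2⟩, h3⟩)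
  have hf2 : ∀ v : U, ((v : X), f v) ∈ A ∧ f v ∉ Q := fun v => (hmem _ _).1 (hft v)
  refine ⟨f ⟨u, hu⟩, (hf2 ⟨u, hu⟩).1, (hf2 ⟨u, hu⟩).2, fun S hS => ?_⟩
  have hSU : ∀ v ∈ S, v ∈ U := fun v hv => (hS (Finset.mem_coe.2 hv)).1
  have hSu : ∀ v ∈ S, v ≠ u := fun v hv => (hS (Finset.mem_coe.2 hv)).2
  have h1 : (S.attach.image fun v => f ⟨v.1, hSU v.1 v.2⟩).card = S.card := by
    rw [Finset.card_image_of_injective, Finset.card_attach]
    intro v w hvw
    have h2 := congrArg Subtype.val (hf hvw)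
    exact Subtype.ext h2
  rw [← h1, ← Set.ncard_coe_finset]
  refine Set.ncard_le_ncard ?_ ((finite_nbr hD S).subset Set.sdiff_subset)
  intro c hc
  rw [Finset.mem_coe, Finset.mem_image] at hc
  obtain ⟨v, -, rfl⟩ := hc
  refine ⟨⟨v.1, v.2, (hf2 ⟨v.1, hSU v.1 v.2⟩).1⟩, ?_⟩
  rw [Set.mem_insert_iff, not_or]
  refine ⟨fun h2 => ?_, (hf2 _).2⟩
  have h3 := congrArg Subtype.val (hf h2)
  exact hSu v.1 v.2 h3

end Pool.Agent.Helper75.MG
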