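import Pool.Agent.Helper75.MG.BStep
import Pool.Agent.Helper75.MG.BGen

/-!
# Project BC, piece 6: the assignment theorem, Baire category version
-/

namespace Pool.Agent.Helper75.MG

open MeasureTheory

theorem baire_rel {X : Type} [TopologicalSpace X] [PolishSpace X] [MeasurableSpace X]
    [BorelSpace X] {G : SimpleGraph X} {t : Fin 3 → X → X} {r : ℕ} {A : Set (X × X)} {Y : Set X}
    (hD : BData G t r A Y) (ht : ∀ i, Measurable (t i)) (hA : MeasurableSet A)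
    (hY : MeasurableSet Y) :
    ∃ B : Set (X × X), MeasurableSet B ∧ B ⊆ A ∧
      (∀ u u' c, (u, c) ∈ B → (u', c) ∈ B → u = u') ∧
      ∀ᶠ x in residual X, ∀ y, G.Reachable x y → y ∈ Y → ∃ c, (y, c) ∈ B := by
  classical
  obtain ⟨Z, hZm, hZs, hZ⟩ := exists_generic ht hD.hadj (fun n => 4 * r * (2 ^ (n + 1) + 2))
  have hstep : ∀ n (B : Set (X × X)), MeasurableSet B ∧ St A Y n B →
      ∃ B' : Set (X × X), (MeasurableSet B' ∧ St A Y (n + 1) B') ∧ B ⊆ B' ∧
        Z n ∩ Y ⊆ dom B' := by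
    intro n B hB
    obtain ⟨B', h1, h2, h3, h4⟩ := one_step hD ht hA hY hB.1 hB.2 (hZm n) (hZs n)
    exact ⟨B', ⟨h1, h3⟩, h2, h4⟩
  choose! F hF1 hF2 hF3 using hstep
  let Bs : ℕ → Set (X × X) := fun n => Nat.rec ∅ (fun n B => F n B) n
  have hBs : ∀ n, MeasurableSet (Bs n) ∧ St A Y n (Bs n) := by
    intro n
    induction n with
    | zero => exact ⟨MeasurableSet.empty, start hD⟩
    | succ n ih => exact hF1 n (Bs n) ih
  have hmono : Monotone Bs := monotone_nat_of_le_succ (fun n => hF2 n (Bs n) (hBs n))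
  refine ⟨⋃ n, Bs n, MeasurableSet.iUnion fun n => (hBs n).1,
    Set.iUnion_subset fun n => (hBs n).2.sub, ?_, ?_⟩
  · intro u u' c h h'
    obtain ⟨n, hn⟩ := Set.mem_iUnion.1 h
    obtain ⟨m, hm⟩ := Set.mem_iUnion.1 h'
    exact (hBs (max n m)).2.inj u u' c (hmono (le_max_left _ _) hn) (hmono (le_max_right _ _) hm)
  · filter_upwards [hZ] with x hx y hy hyY
    obtain ⟨n, hn⟩ := hx y hy
    obtain ⟨c, hc⟩ := hF3 n (Bs n) (hBs n) ⟨hn, hyY⟩
    exact ⟨c, Set.mem_iUnion.2 ⟨n + 1, hc⟩⟩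

end Pool.Agent.Helper75.MG
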