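import Pool.Agent.Helper75.MG.BConn
import Pool.Agent.Helper75.MG.BHall

/-!
# Project BC, piece 3: measurable choice of a harmless server

Let `R = 2 * r * m + 2 * r` and `w l`, `l : Fin K`, the measurable maps of `exists_words` for the radius `R`
(all clients and servers below are `w l u` for some `l`; servers adjacent to a client at distance
`≤ 2 * r * m + 2 * r` need radius `R + r`: take the words for `R' = R + r` for everything).
For `u ∈ U` and an index `k` let `Good k u` be: `(u, w k u) ∈ A`, `w k u ∉ Q`, and for every `I : Finset (Fin K)` such that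
the points `w i u`, `i ∈ I`, are pairwise different and lie in `U \ {u}` there is `J : Finset (Fin K)` with
`J.card = I.card` such that the points `w j u`, `j ∈ J`, are pairwise different, none is in `Q` or equal to `w k u`, and
each is adjacent to one of the `w i u`, `i ∈ I`. `{u | Good k u}` is measurable (finite boolean combination of
sets `{u | w i u = w j u}`, `{u | w i u ∈ U}`, `{u | w j u ∈ Q}`, `{u | (w i u, w j u) ∈ A}`).
For `u ∈ U` some `k` is good: take `c = w k u` from `exists_server` (its Hall condition gives `J` from `I`: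
`I.card ≤ (nbr A S \ insert c Q).ncard` with `S` the image of `I`; choose that many of these servers).
`B₁ = {(u, c) | u ∈ U ∧ ∃ k, Good k u ∧ (∀ l < k, ¬ Good l u) ∧ w k u = c}`.
Property of `(u, c) ∈ B₁`: let `S ⊆ U \ {u}` be connected with at most `m` points. If `c ∉ nbr A S` then
`nbr A S \ insert c Q = nbr A S \ Q`, use the Hall condition of `(U, Q)`. If `c ∈ nbr A S` then all points of `S` are at
distance `≤ 2 * r * m + r` from `c` (`conn_near`), so at distance `≤ R` from `u`: `S` is the image of some `I`.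
-/

namespace Pool.Agent.Helper75.MG

open MeasureTheory

variable {X : Type} [MeasurableSpace X] [StandardBorelSpace X] {G : SimpleGraph X}
  {t : Fin 3 → X → X} {r : ℕ} {A : Set (X × X)} {Y : Set X}

private theorem BSel_eq {α : Type} [MeasurableSpace α] {f g : α → X} (hf : Measurable f)
    (hg : Measurable g) : Measurable fun a => f a = g a := by
  have hd : MeasurableSet (Set.diagonal X) := by
    let _ := upgradeStandardBorel X
    exact isClosed_diagonal.measurableSet
  exact hd.mem.comp (hf.prodMk hg)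

/-- the server number `k` of `u` is harmless -/
private def BSel_Good (A : Set (X × X)) (U Q : Set X) {K K' : ℕ} (w : Fin K → X → X)
    (v : Fin K' → X → X) (k : Fin K) (u : X) : Prop :=
  (u, w k u) ∈ A ∧ w k u ∉ Q ∧ ∀ I : Finset (Fin K), (∀ i, i ∈ I → w i u ∈ U ∧ w i u ≠ u) →
    (∀ i i', i ∈ I → i' ∈ I → w i u = w i' u → i = i') →
    ∃ J : Finset (Fin K'), J.card = I.card ∧ (∀ j j', j ∈ J → j' ∈ J → v j u = v j' u → j = j') ∧
      ∀ j, j ∈ J → v j u ∉ Q ∧ v j u ≠ w k u ∧ ∃ i, i ∈ I ∧ (w i u, v j u) ∈ A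

private theorem BSel_meas (hA : MeasurableSet A) {U Q : Set X} (hU : MeasurableSet U)
    (hQ : MeasurableSet Q) {K K' : ℕ} {w : Fin K → X → X} {v : Fin K' → X → X}
    (hw : ∀ k, Measurable (w k)) (hv : ∀ k, Measurable (v k)) (k : Fin K) :
    Measurable fun u => BSel_Good A U Q w v k u := by
  unfold BSel_Good
  have e1 : Measurable fun u => (u, w k u) ∈ A := hA.mem.comp (measurable_id.prodMk (hw k))
  have e2 : Measurable fun u => w k u ∉ Q := (hQ.mem.comp (hw k)).not
  refine e1.and (e2.and (Measurable.forall fun I => ?_))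
  refine Measurable.imp ?_ (Measurable.imp ?_ (Measurable.exists fun J => ?_))
  · refine Measurable.forall fun i => Measurable.imp measurable_const ?_
    exact (hU.mem.comp (hw i)).and (BSel_eq (hw i) measurable_id).not
  · refine Measurable.forall fun i => Measurable.forall fun i' => ?_
    exact Measurable.imp measurable_const (Measurable.imp measurable_const
      (Measurable.imp (BSel_eq (hw i) (hw i')) measurable_const))
  · refine Measurable.and measurable_const (Measurable.and ?_ ?_)
    · refine Measurable.forall fun i => Measurable.forall fun i' => ?_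
      exact Measurable.imp measurable_const (Measurable.imp measurable_const
        (Measurable.imp (BSel_eq (hv i) (hv i')) measurable_const))
    · refine Measurable.forall fun j => Measurable.imp measurable_const ?_
      refine (hQ.mem.comp (hv j)).not.and ((BSel_eq (hv j) (hw k)).not.and ?_)
      refine Measurable.exists fun i => Measurable.and measurable_const ?_
      exact hA.mem.comp ((hw i).prodMk (hv j))

omit [MeasurableSpace X] [StandardBorelSpace X] in
private theorem BSel_exists (hD : BData G t r A Y) {U Q : Set X} (hH : HallC A U Q) {R : ℕ}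
    (hR : r ≤ R) {K K' : ℕ} {w : Fin K → X → X} {v : Fin K' → X → X}
    (hw : ∀ x y, Nr G R x y ↔ ∃ k, w k x = y) (hv : ∀ x y, Nr G (R + r) x y ↔ ∃ k, v k x = y)
    {u : X} (hu : u ∈ U) : ∃ k, BSel_Good A U Q w v k u := by
  classical
  obtain ⟨c, hc, hcQ, hH'⟩ := exists_server hD hH hu
  obtain ⟨k, hk⟩ := (hw u c).1 ((hD.near u c hc).mono hR)
  refine ⟨k, by rw [hk]; exact hc, by rw [hk]; exact hcQ, fun I hI hI' => ?_⟩
  have hcard : (I.image fun i => w i u).card = I.card :=
    Finset.card_image_of_injOn fun i hi i' hi' h => hI' i i' hi hi' h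
  have hsub : ((I.image fun i => w i u : Finset X) : Set X) ⊆ U \ {u} := by
    intro x hx
    rw [Finset.mem_coe, Finset.mem_image] at hx
    obtain ⟨i, hi, rfl⟩ := hx
    exact ⟨(hI i hi).1, (hI i hi).2⟩
  have h1 := hH' _ hsub
  have hfin : (nbr A (I.image fun i => w i u) \ insert c Q).Finite :=
    (finite_nbr hD _).subset Set.sdiff_subset
  rw [Set.ncard_eq_toFinset_card _ hfin, hcard] at h1
  obtain ⟨T, hT, hTc⟩ := Finset.exists_subset_card_eq h1
  have h2 : ∀ x ∈ T, ∃ j, v j u = x ∧ x ∉ Q ∧ x ≠ c ∧ ∃ i, i ∈ I ∧ (w i u, x) ∈ A := by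
    intro x hx
    have h3 := hfin.mem_toFinset.1 (hT hx)
    obtain ⟨⟨z, hz, hzx⟩, h4⟩ := h3
    rw [Finset.mem_image] at hz
    obtain ⟨i, hi, rfl⟩ := hz
    have h5 : Nr G R u (w i u) := (hw _ _).2 ⟨i, rfl⟩
    obtain ⟨j, hj⟩ := (hv u x).1 (h5.trans (hD.near _ _ hzx))
    rw [Set.mem_insert_iff, not_or] at h4
    exact ⟨j, hj, h4.2, h4.1, i, hi, hzx⟩
  have : Nonempty (Fin K') := ⟨((hv u u).1 (Nr.refl _ _)).choose⟩
  choose! j hj hjQ hjc hji using h2
  refine ⟨T.image j, ?_, ?_, ?_⟩
  · rw [Finset.card_image_of_injOn, hTc]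
    intro x hx y hy h
    rw [← hj x hx, ← hj y hy]
    exact congrArg (fun i => v i u) h
  · intro a b ha hb hab
    rw [Finset.mem_image] at ha hb
    obtain ⟨x, hx, rfl⟩ := ha
    obtain ⟨y, hy, rfl⟩ := hb
    rw [hj x hx, hj y hy] at hab
    rw [hab]
  · intro a ha
    rw [Finset.mem_image] at ha
    obtain ⟨x, hx, rfl⟩ := ha
    rw [hj x hx, hk]
    exact ⟨hjQ x hx, hjc x hx, hji x hx⟩

theorem exists_new (hD : BData G t r A Y) (ht : ∀ i, Measurable (t i)) (hA : MeasurableSet A)
    {U Q : Set X} (hU : MeasurableSet U) (hQ : MeasurableSet Q) (hH : HallC A U Q) (m : ℕ) :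
    ∃ B₁ : Set (X × X), MeasurableSet B₁ ∧ B₁ ⊆ A ∧
      (∀ u c c', (u, c) ∈ B₁ → (u, c') ∈ B₁ → c = c') ∧ (∀ u ∈ U, ∃ c, (u, c) ∈ B₁) ∧
      ∀ u c, (u, c) ∈ B₁ → u ∈ U ∧ c ∉ Q ∧ ∀ S : Finset X, (S : Set X) ⊆ U \ {u} → Conn A S →
        S.card ≤ m → S.card ≤ (nbr A S \ insert c Q).ncard := by
  classical
  obtain ⟨w, hwm, hw⟩ := exists_words G t ht hD.hadj (2 * r * m + 2 * r)
  obtain ⟨v, hvm, hv⟩ := exists_words G t ht hD.hadj (2 * r * m + 2 * r + r)
  refine ⟨{p | p.1 ∈ U ∧ ∃ k, BSel_Good A U Q w v k p.1 ∧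
    (∀ l, l < k → ¬ BSel_Good A U Q w v l p.1) ∧ w k p.1 = p.2}, ?_, ?_, ?_, ?_, ?_⟩
  · have hG : ∀ k, Measurable fun p : X × X => BSel_Good A U Q w v k p.1 := fun k =>
      (BSel_meas hA hU hQ hwm hvm k).comp measurable_fst
    refine measurableSet_setOfPred.2 ((hU.mem.comp measurable_fst).and (Measurable.exists fun k => ?_))
    refine (hG k).and (Measurable.and ?_ ?_)
    · exact Measurable.forall fun l => Measurable.imp measurable_const (hG l).not
    · exact BSel_eq ((hwm k).comp measurable_fst) measurable_snd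
  · rintro ⟨u, c⟩ ⟨-, k, hk, -, hkc⟩
    have h1 := hk.1
    dsimp only at h1 hkc
    rw [hkc] at h1
    exact h1
  · rintro u c c' ⟨-, k, hk, hkm, hkc⟩ ⟨-, k', hk', hkm', hkc'⟩
    dsimp only at hk hkm hkc hk' hkm' hkc'
    have h1 : k = k' := by
      rcases lt_trichotomy k k' with h | h | h
      · exact absurd hk (hkm' k h)
      · exact h
      · exact absurd hk' (hkm k' h)
    rw [← hkc, ← hkc', h1]
  · intro u hu
    obtain ⟨k, hk⟩ := BSel_exists hD hH (by omega) hw hv hu
    obtain ⟨k₀, h1, h2⟩ := (wellFounded_lt : WellFounded ((· < ·) : Fin (4 ^ (2 * r * m + 2 * r)) →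
      Fin (4 ^ (2 * r * m + 2 * r)) → Prop)).has_min {k | BSel_Good A U Q w v k u} ⟨k, hk⟩
    exact ⟨w k₀ u, hu, k₀, h1, fun l hl hg => h2 l hg hl, rfl⟩
  · rintro u c ⟨hu, k, hk, -, hkc⟩
    dsimp only at hu hk hkc
    obtain ⟨h1, h2, h3⟩ := hk
    rw [hkc] at h1 h2
    refine ⟨hu, h2, fun S hS hconn hm => ?_⟩
    by_cases hc : c ∈ nbr A S
    · have h4 : ∀ x ∈ S, ∃ i, w i u = x := by
        intro x hx
        have h5 := (hD.near u c h1).trans (conn_near hD hconn hm hc x hx)
        exact (hw u x).1 (h5.mono (by omega))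
      choose! ii hii using h4
      have hcardI : (S.image ii).card = S.card := by
        refine Finset.card_image_of_injOn fun x hx y hy h => ?_
        rw [← hii x hx, ← hii y hy]
        exact congrArg (fun i => w i u) h
      obtain ⟨J, hJ1, hJ2, hJ3⟩ := h3 (S.image ii) (by
        intro i hi
        rw [Finset.mem_image] at hi
        obtain ⟨x, hx, rfl⟩ := hi
        rw [hii x hx]
        exact ⟨(hS hx).1, (hS hx).2⟩) (by
        intro i i' hi hi' h
        rw [Finset.mem_image] at hi hi'
        obtain ⟨x, hx, rfl⟩ := hi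
        obtain ⟨y, hy, rfl⟩ := hi'
        rw [hii x hx, hii y hy] at h
        rw [h])
      have h6 : ((J.image fun j => v j u : Finset X) : Set X) ⊆ nbr A S \ insert c Q := by
        intro x hx
        rw [Finset.mem_coe, Finset.mem_image] at hx
        obtain ⟨j, hj, rfl⟩ := hx
        obtain ⟨h7, h8, i, hi, h9⟩ := hJ3 j hj
        rw [Finset.mem_image] at hi
        obtain ⟨x, hx, rfl⟩ := hi
        rw [hii x hx] at h9
        rw [hkc] at h8
        refine ⟨⟨x, hx, h9⟩, ?_⟩
        rw [Set.mem_insert_iff, not_or]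
        exact ⟨h8, h7⟩
      have h7 : (J.image fun j => v j u).card = J.card :=
        Finset.card_image_of_injOn fun i hi i' hi' h => hJ2 i i' hi hi' h
      have h8 := Set.ncard_le_ncard h6 ((finite_nbr hD _).subset Set.sdiff_subset)
      rw [Set.ncard_coe_finset, h7, hJ1, hcardI] at h8
      exact h8
    · have h4 : nbr A S \ insert c Q = nbr A S \ Q := by
        ext x
        rw [Set.mem_sdiff, Set.mem_sdiff, Set.mem_insert_iff, not_or]
        constructor
        · rintro ⟨h5, -, h6⟩
          exact ⟨h5, h6⟩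
        · rintro ⟨h5, h6⟩
          refine ⟨h5, ?_, h6⟩
          rintro rfl
          exact hc h5
      rw [h4]
      exact hH S (hS.trans Set.sdiff_subset)

theorem measurableSet_dom (hD : BData G t r A Y) (ht : ∀ i, Measurable (t i))
    {B : Set (X × X)} (hB : MeasurableSet B) (hBA : B ⊆ A) : MeasurableSet (dom B) := by
  obtain ⟨w, hwm, hw⟩ := exists_words G t ht hD.hadj r
  have h : dom B = ⋃ k, {u | (u, w k u) ∈ B} := by
    ext u
    rw [Set.mem_iUnion]
    constructor
    · rintro ⟨c, hc⟩
      obtain ⟨k, hk⟩ := (hw u c).1 (hD.near u c (hBA hc))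
      refine ⟨k, ?_⟩
      change (u, w k u) ∈ B
      rw [hk]
      exact hc
    · rintro ⟨k, hk⟩
      exact ⟨_, hk⟩
  rw [h]
  exact MeasurableSet.iUnion fun k => (measurable_id.prodMk (hwm k)) hB

theorem measurableSet_ran (hD : BData G t r A Y) (ht : ∀ i, Measurable (t i))
    {B : Set (X × X)} (hB : MeasurableSet B) (hBA : B ⊆ A) : MeasurableSet (ran B) := by
  obtain ⟨w, hwm, hw⟩ := exists_words G t ht hD.hadj r
  have h : ran B = ⋃ k, {c | (w k c, c) ∈ B} := by
    ext c
    rw [Set.mem_iUnion]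
    constructor
    · rintro ⟨u, hu⟩
      obtain ⟨k, hk⟩ := (hw c u).1 (hD.near u c (hBA hu)).symm
      refine ⟨k, ?_⟩
      change (w k c, c) ∈ B
      rw [hk]
      exact hu
    · rintro ⟨k, hk⟩
      exact ⟨_, hk⟩
  rw [h]
  exact MeasurableSet.iUnion fun k => ((hwm k).prodMk measurable_id) hB

end Pool.Agent.Helper75.MG
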