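import Pool.Agent.Helper75.MG.BSel

/-!
# Project BC, piece 4: one step of the construction

`U = Y \ dom B`, `Q = ran B`, `B₁` from `exists_new` with `m = n`, `B' = B ∪ (B₁ ∩ {z | z.1 ∈ Z})`.
* `fn`: `dom B₁ ⊆ U` is disjoint from `dom B`. `inj`: servers of `B₁` are not in `Q`; two different clients in `Z`
  with the same server are at distance `≤ 2 * r`, contradiction with sparsity.
* For a connected finite `S ⊆ Y` let `h` be the number of `z ∈ Z` with a server in `nbr A S` (`sparse_bound` with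
  `q = 2 ^ (n+1)`: `h ≤ 1` or `2 ^ (n+1) * h ≤ card S`). `ncard (nbr A S ∩ ran B') ≤ ncard (nbr A S ∩ ran B) + h`,
  which gives `few` for `n + 1`.
* `hall`: by `hall_of_conn` for connected finite `S ⊆ Y \ dom B'`. If `card S ≥ n + 1`: `few` for `n + 1` gives
  `ncard (nbr A S ∩ ran B') ≤ n + 1 + card S` and `expand` gives `8 * card S ≤ ncard (nbr A S)`, so
  `ncard (nbr A S \ ran B') ≥ card S`. If `card S ≤ n`: `h ≤ 1` (since `2 ^ (n+1) > n`). If no new server lies in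
  `nbr A S` then use `hall` for `B`. Otherwise exactly one pair `(z, c) ∈ B₁`, `z ∈ Z`, has `c ∈ nbr A S`, and the
  property of `(z, c)` in `exists_new` applies (`S ⊆ U \ {z}` since `z ∈ dom B'`), with
  `nbr A S \ insert c (ran B) = nbr A S \ ran B'`.
-/

namespace Pool.Agent.Helper75.MG

open MeasureTheory

variable {X : Type} [MeasurableSpace X] [StandardBorelSpace X] {G : SimpleGraph X}
  {t : Fin 3 → X → X} {r : ℕ} {A : Set (X × X)} {Y : Set X}

/-- the arithmetic of the property `few` -/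
private lemma few_arith {n s x x' h : ℕ} (h1 : x' ≤ x + h)
    (h2 : 2 ^ n * x + s ≤ 2 ^ n * (n + s)) (h3 : h ≤ 1 ∨ 2 ^ (n + 1) * h ≤ s) :
    2 ^ (n + 1) * x' + s ≤ 2 ^ (n + 1) * (n + 1 + s) := by
  have e : (2 : ℕ) ^ (n + 1) = 2 * 2 ^ n := by rw [pow_succ]; ring
  have h4 : 2 ^ (n + 1) * x' ≤ 2 ^ (n + 1) * x + 2 ^ (n + 1) * h := by
    calc 2 ^ (n + 1) * x' ≤ 2 ^ (n + 1) * (x + h) := Nat.mul_le_mul_left _ h1
      _ = _ := by ring
  have h5 : 2 ^ (n + 1) * x + 2 * s ≤ 2 ^ (n + 1) * (n + s) := by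
    rw [e]
    nlinarith
  rcases h3 with h3 | h3
  · have h6 : 2 ^ (n + 1) * h ≤ 2 ^ (n + 1) := by
      calc 2 ^ (n + 1) * h ≤ 2 ^ (n + 1) * 1 := Nat.mul_le_mul_left _ h3
        _ = _ := by ring
    have h7 : 2 ^ (n + 1) * (n + 1 + s) = 2 ^ (n + 1) * (n + s) + 2 ^ (n + 1) := by ring
    rw [h7]
    omega
  · have h7 : 2 ^ (n + 1) * (n + 1 + s) = 2 ^ (n + 1) * (n + s) + 2 ^ (n + 1) := by ring
    rw [h7]
    omega

theorem one_step (hD : BData G t r A Y) (ht : ∀ i, Measurable (t i)) (hA : MeasurableSet A)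
    (hY : MeasurableSet Y) {n : ℕ} {B : Set (X × X)} (hB : MeasurableSet B) (hS : St A Y n B)
    {Z : Set X} (hZ : MeasurableSet Z) (hsp : Sparse G (4 * r * (2 ^ (n + 1) + 2)) Z) :
    ∃ B' : Set (X × X), MeasurableSet B' ∧ B ⊆ B' ∧ St A Y (n + 1) B' ∧ Z ∩ Y ⊆ dom B' := by
  obtain ⟨B₁, hB1m, hB1A, hB1fn, hB1ex, hB1p⟩ := exists_new hD ht hA
    (hY.diff (measurableSet_dom hD ht hB hS.sub)) (measurableSet_ran hD ht hB hS.sub) hS.hall n
  set B' : Set (X × X) := B ∪ (B₁ ∩ {z | z.1 ∈ Z}) with hB'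
  have hBB' : B ⊆ B' := Set.subset_union_left
  have hsub : B' ⊆ A := by
    rintro z (hz | hz)
    · exact hS.sub hz
    · exact hB1A hz.1
  have hdom : dom B ⊆ dom B' := fun u ⟨c, hc⟩ => ⟨c, hBB' hc⟩
  have hdomY : Z ∩ Y ⊆ dom B' := by
    rintro z ⟨hzZ, hzY⟩
    by_cases hz : z ∈ dom B
    · exact hdom hz
    · obtain ⟨c, hc⟩ := hB1ex z ⟨hzY, hz⟩
      exact ⟨c, Or.inr ⟨hc, hzZ⟩⟩
  have hfn : ∀ u c c', (u, c) ∈ B' → (u, c') ∈ B' → c = c' := by
    rintro u c c' (h1 | h1) (h2 | h2)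
    · exact hS.fn u c c' h1 h2
    · exact absurd ⟨c, h1⟩ (hB1p u c' h2.1).1.2
    · exact absurd ⟨c', h2⟩ (hB1p u c h1.1).1.2
    · exact hB1fn u c c' h1.1 h2.1
  have hinj : ∀ u u' c, (u, c) ∈ B' → (u', c) ∈ B' → u = u' := by
    rintro u u' c (h1 | h1) (h2 | h2)
    · exact hS.inj u u' c h1 h2
    · exact absurd ⟨u, h1⟩ (hB1p u' c h2.1).2.1
    · exact absurd ⟨u', h2⟩ (hB1p u c h1.1).2.1
    · by_contra hne
      refine hsp u h1.2 u' h2.2 hne ?_
      have h3 := (hD.near u c (hB1A h1.1)).trans (hD.near u' c (hB1A h2.1)).symm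
      refine h3.mono ?_
      have : r + r ≤ 4 * r * (0 + 2) := by omega
      exact this.trans (Nat.mul_le_mul_left _ (Nat.add_le_add_right (Nat.zero_le _) 2))
  -- new servers near a connected set
  have hnew : ∀ S : Finset X, nbr A S ∩ ran B' =
      (nbr A S ∩ ran B) ∪ {c | c ∈ nbr A S ∧ ∃ z ∈ Z, (z, c) ∈ B₁} := by
    intro S
    ext c
    constructor
    · rintro ⟨h1, u, h2 | h2⟩
      · exact Or.inl ⟨h1, u, h2⟩
      · exact Or.inr ⟨h1, u, h2.2, h2.1⟩
    · rintro (⟨h1, u, h2⟩ | ⟨h1, z, hz, h2⟩)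
      · exact ⟨h1, u, Or.inl h2⟩
      · exact ⟨h1, z, Or.inr ⟨h2, hz⟩⟩
  have hcount : ∀ S : Finset X, Conn A S →
      (nbr A S ∩ ran B').ncard ≤ (nbr A S ∩ ran B).ncard +
        {z | z ∈ Z ∧ ∃ c, (z, c) ∈ A ∧ c ∈ nbr A S}.ncard := by
    intro S hc
    obtain ⟨hfin, -⟩ := sparse_bound hD hc hsp
    rw [hnew S]
    refine (Set.ncard_union_le _ _).trans (Nat.add_le_add_left ?_ _)
    classical
    have hch : ∀ c ∈ {c | c ∈ nbr A S ∧ ∃ z ∈ Z, (z, c) ∈ B₁}, ∃ z, z ∈ Z ∧ (z, c) ∈ B₁ :=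
      fun c hc => by
        obtain ⟨-, z, hz, h⟩ := hc
        exact ⟨z, hz, h⟩
    choose! g hg using hch
    refine Set.ncard_le_ncard_of_injOn g ?_ ?_ hfin
    · intro c hc
      exact ⟨(hg c hc).1, c, hB1A (hg c hc).2, hc.1⟩
    · intro c hc c' hc' he
      have h1 := (hg c hc).2
      have h2 := (hg c' hc').2
      rw [he] at h1
      exact hB1fn _ _ _ h1 h2
  have hfew : ∀ S : Finset X, (S : Set X) ⊆ Y → Conn A S →
      2 ^ (n + 1) * (nbr A S ∩ ran B').ncard + S.card ≤ 2 ^ (n + 1) * (n + 1 + S.card) := by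
    intro S hSY hc
    exact few_arith (hcount S hc) (hS.few S hSY hc) (sparse_bound hD hc hsp).2
  refine ⟨B', hB.union (hB1m.inter (measurable_fst hZ)), hBB',
    ⟨hsub, hfn, hinj, ?_, hfew⟩, hdomY⟩
  refine hall_of_conn hD fun S hSU hc => ?_
  have hSY : (S : Set X) ⊆ Y := fun x hx => (hSU hx).1
  have hfinN := finite_nbr hD S
  by_cases hcard : n + 1 ≤ S.card
  · have h1 := hfew S hSY hc
    have h2 := expand hD hSY
    have h3 : (nbr A S ∩ ran B').ncard ≤ n + 1 + S.card := by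
      have h4 : 2 ^ (n + 1) * (nbr A S ∩ ran B').ncard ≤ 2 ^ (n + 1) * (n + 1 + S.card) := by
        omega
      exact Nat.le_of_mul_le_mul_left h4 (by positivity)
    have h5 := Set.ncard_inter_add_ncard_sdiff_eq_ncard (nbr A S) (ran B') hfinN
    omega
  · obtain ⟨hPfin, hP⟩ := sparse_bound hD hc hsp
    have hP1 : {z | z ∈ Z ∧ ∃ c, (z, c) ∈ A ∧ c ∈ nbr A S}.ncard ≤ 1 := by
      rcases hP with hP | hP
      · exact hP
      · by_contra hcon
        have h1 : 2 ^ (n + 1) * 1 ≤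
            2 ^ (n + 1) * {z | z ∈ Z ∧ ∃ c, (z, c) ∈ A ∧ c ∈ nbr A S}.ncard :=
          Nat.mul_le_mul_left _ (by omega)
        have h2 : n + 1 < 2 ^ (n + 1) := Nat.lt_two_pow_self
        omega
    by_cases hemp : ∃ c z, c ∈ nbr A S ∧ z ∈ Z ∧ (z, c) ∈ B₁
    · obtain ⟨c, z, hcN, hzZ, hzc⟩ := hemp
      have hp := hB1p z c hzc
      have heq : nbr A S \ insert c (ran B) = nbr A S \ ran B' := by
        ext c'
        constructor
        · rintro ⟨h1, h2⟩
          refine ⟨h1, fun h3 => h2 ?_⟩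
          obtain ⟨u, h4 | h4⟩ := h3
          · exact Or.inr ⟨u, h4⟩
          · left
            have hu : u = z := by
              have := (Set.ncard_le_one hPfin).1 hP1 u ⟨h4.2, c', hB1A h4.1, h1⟩ z
                ⟨hzZ, c, hB1A hzc, hcN⟩
              exact this
            subst hu
            exact hB1fn _ _ _ h4.1 hzc
        · rintro ⟨h1, h2⟩
          refine ⟨h1, fun h3 => h2 ?_⟩
          rcases h3 with h3 | ⟨u, h3⟩
          · subst h3
            exact ⟨z, Or.inr ⟨hzc, hzZ⟩⟩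
          · exact ⟨u, Or.inl h3⟩
      rw [← heq]
      refine hp.2.2 S ?_ hc (by omega)
      intro x hx
      refine ⟨⟨(hSU hx).1, fun h => (hSU hx).2 (hdom h)⟩, ?_⟩
      rintro rfl
      exact (hSU hx).2 ⟨c, Or.inr ⟨hzc, hzZ⟩⟩
    · have heq : nbr A S \ ran B = nbr A S \ ran B' := by
        ext c'
        constructor
        · rintro ⟨h1, h2⟩
          refine ⟨h1, fun h3 => ?_⟩
          obtain ⟨u, h4 | h4⟩ := h3
          · exact h2 ⟨u, h4⟩
          · exact hemp ⟨c', u, h1, h4.2, h4.1⟩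
        · rintro ⟨h1, h2⟩
          exact ⟨h1, fun ⟨u, h3⟩ => h2 ⟨u, Or.inl h3⟩⟩
      rw [← heq]
      exact hS.hall S fun x hx => ⟨(hSU hx).1, fun h => (hSU hx).2 (hdom h)⟩

theorem start (hD : BData G t r A Y) : St A Y 0 (∅ : Set (X × X)) := by
  have hd : dom (∅ : Set (X × X)) = ∅ := by
    ext u
    simp [dom]
  have hr : ran (∅ : Set (X × X)) = ∅ := by
    ext u
    simp [ran]
  refine ⟨Set.empty_subset _, fun u c c' h => absurd h (Set.notMem_empty _),
    fun u u' c h => absurd h (Set.notMem_empty _), ?_, ?_⟩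
  · intro S hSY
    rw [hd, Set.sdiff_empty] at hSY
    rw [hr, Set.sdiff_empty]
    have := expand hD hSY
    omega
  · intro S _ _
    rw [hr, Set.inter_empty, Set.ncard_empty]
    simp

end Pool.Agent.Helper75.MG
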