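import Mathlib

/-!
# Project MG (MP_5a85b5_lc): definitions

Measurable homomorphisms of Borel 3-regular graphs of large girth to one finite graph of girth at
least 5.
-/

namespace Pool.Agent.Helper75.MG

open MeasureTheory

/-- `Nr Γ n x y`: there is a walk of length at most `n` from `x` to `y` in `Γ`. -/
def Nr {X : Type} (Γ : SimpleGraph X) (n : ℕ) (x y : X) : Prop :=
  ∃ p : Γ.Walk x y, p.length ≤ n

/-- `Sep G L`: there is no closed non-backtracking walk of length between `1` and `L` (backtracking
at the base point is allowed). -/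
def Sep {X : Type} (G : SimpleGraph X) (L : ℕ) : Prop :=
  ∀ (n : ℕ) (a : ℕ → X), 1 ≤ n → n ≤ L → (∀ i < n, G.Adj (a i) (a (i + 1))) →
    (∀ i, i + 2 ≤ n → a i ≠ a (i + 2)) → a 0 ≠ a n

/-! ## Terms -/

/-- binary terms over `N` generators -/
inductive Tm (N : ℕ) : Type
  | gen : Fin N → Tm N
  | node : Tm N → Tm N → Tm N

namespace Tm

variable {N : ℕ}

/-- the set of generators of a term -/
def supp : Tm N → Finset (Fin N)
  | gen i => {i}
  | node a b => supp a ∪ supp b

/-- the index of the leftmost generator -/
def lm : Tm N → ℕ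
  | gen i => i
  | node a _ => lm a

/-- the depth of a term -/
def depth : Tm N → ℕ
  | gen _ => 0
  | node a b => max (depth a) (depth b) + 1

/-- the node with children `a`, `b`, in the canonical order -/
def mk (a b : Tm N) : Tm N := if lm a < lm b then node a b else node b a

/-- `s` is a child of the node `t`, whose children have disjoint supports and stand in the
canonical order -/
def Edge (s t : Tm N) : Prop :=
  ∃ a b, t = node a b ∧ Disjoint (supp a) (supp b) ∧ lm a < lm b ∧ (s = a ∨ s = b)

lemma supp_nonempty (t : Tm N) : t.supp.Nonempty := by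
  induction t with
  | gen i => exact ⟨i, by simp [supp]⟩
  | node a b ha _ =>
    obtain ⟨i, hi⟩ := ha
    exact ⟨i, by simp [supp, hi]⟩

lemma Edge.ssubset {s t : Tm N} (h : Edge s t) : s.supp ⊂ t.supp := by
  obtain ⟨a, b, rfl, hd, -, h | h⟩ := h
  · subst h
    obtain ⟨i, hi⟩ := supp_nonempty b
    refine ⟨by simp [supp], fun hsub => ?_⟩
    have : i ∈ s.supp := hsub (by simp [supp, hi])
    exact (Finset.disjoint_left.1 hd this) hi
  · subst h
    obtain ⟨i, hi⟩ := supp_nonempty a
    refine ⟨by simp [supp], fun hsub => ?_⟩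
    have : i ∈ s.supp := hsub (by simp [supp, hi])
    exact (Finset.disjoint_left.1 hd hi) this

end Tm

/-- the target graph: terms of depth at most `d`, a node being adjacent to its two children -/
def HN (N d : ℕ) : SimpleGraph {t : Tm N // t.depth ≤ d} where
  Adj s t := Tm.Edge s.1 t.1 ∨ Tm.Edge t.1 s.1
  symm := ⟨fun _ _ h => h.symm⟩
  loopless := ⟨fun s h => by
    have h1 : s.1.supp ⊂ s.1.supp := by
      rcases h with h | h <;> exact h.ssubset
    exact (ssubset_irrefl _ h1)⟩

end Pool.Agent.Helper75.MG
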