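import Pool.Agent.Helper75.MG.Hall

/-!
# Project MG, piece E1b: many sites near every hall point

With `n = 72 * 4 ^ 7` (keep it as a variable: do not let `decide`, `simp` or `norm_num` evaluate big
powers) there is a walk `a : ℕ → X` in the hall, `a 0 = x`, `a i ≠ a (i+2)`, `a i` adjacent to
`a (i+1)` (by `hall_two`, recursively on pairs (previous point, current point)). By `Sep G n` the points
`a 0, ..., a n` are distinct (apply it to `fun k => a (i + k)`, length `j - i`). `near_port` gives for every `i < n`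
a site `c_i` with `Nr G 7 (a i) c_i` and a port `p_i` of it with `Nr (hallG G C) 5 (a i) p_i`, so
`Nr (hallG G C) (n + 5) x p_i`. For every `c` at most `4 ^ 7` of the `a i` satisfy `Nr G 7 (a i) c` (`finite_Nr`, `Nr.symm`),
so there are at least 72 different `c_i` (`Finset.card_le_mul_card_image` or similar). The set is finite by
`finite_Nr` (`Nr G (n + 7) x c`; walk in the hall to the port, then two more steps).
-/

namespace Pool.Agent.Helper75.MG

variable {X : Type} {G : SimpleGraph X} {t : Fin 3 → X → X} {C : Set X}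

private theorem Geo_sep_mono {G : SimpleGraph X} {L L' : ℕ} (h : Sep G L) (hL : L' ≤ L) :
    Sep G L' := fun n a h1 h2 h3 h4 => h n a h1 (h2.trans hL) h3 h4

private theorem Geo_walk (hadj : ∀ x y, G.Adj x y ↔ ∃ i, t i x = y)
    (tinj : ∀ x i j, t i x = t j x → i = j) (hsep : Sep G 4) (hC : Sites G C)
    {x : X} (hx : x ∈ hall G C) :
    ∃ a : ℕ → X, a 0 = x ∧ (∀ i, a i ∈ hall G C) ∧ (∀ i, G.Adj (a i) (a (i + 1))) ∧
      ∀ i, a i ≠ a (i + 2) := by
  classical
  have h0 : ∀ s : X × {y // y ∈ hall G C}, ∃ z : {y // y ∈ hall G C}, G.Adj s.2.1 z.1 ∧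
      z.1 ≠ s.1 := by
    intro s
    obtain ⟨z, hz, h1, h2⟩ := hall_two hadj tinj hsep hC s.2.2 s.1
    exact ⟨⟨z, hz⟩, h1, h2⟩
  choose F hF1 hF2 using h0
  let step : X × {y // y ∈ hall G C} → X × {y // y ∈ hall G C} := fun s => (s.2.1, F s)
  let st : ℕ → X × {y // y ∈ hall G C} := fun i => step^[i] (x, ⟨x, hx⟩)
  have hst : ∀ i, st (i + 1) = step (st i) := fun i => Function.iterate_succ_apply' step i _
  refine ⟨fun i => (st i).2.1, rfl, fun i => (st i).2.2, fun i => ?_, fun i => ?_⟩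
  · change G.Adj (st i).2.1 (st (i + 1)).2.1
    rw [hst]
    exact hF1 (st i)
  · change (st i).2.1 ≠ (st (i + 1 + 1)).2.1
    rw [hst (i + 1)]
    have h2 : (st (i + 1)).1 = (st i).2.1 := by rw [hst]
    rw [← h2]
    exact (hF2 (st (i + 1))).symm

private theorem Geo_inj {a : ℕ → X} {n : ℕ} (hsep : Sep G n)
    (h1 : ∀ i, G.Adj (a i) (a (i + 1))) (h2 : ∀ i, a i ≠ a (i + 2)) {i j : ℕ} (hij : i < j)
    (hj : j ≤ n) : a i ≠ a j := by
  have h3 := hsep (j - i) (fun k => a (i + k)) (by omega) (by omega)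
    (fun k _ => h1 (i + k)) (fun k _ => h2 (i + k))
  simp only [add_zero] at h3
  rwa [show i + (j - i) = j by omega] at h3

private theorem Geo_nr {a : ℕ → X} (h0 : ∀ i, a i ∈ hall G C)
    (h1 : ∀ i, G.Adj (a i) (a (i + 1))) (i : ℕ) : Nr (hallG G C) i (a 0) (a i) := by
  induction i with
  | zero => exact Nr.refl 0 _
  | succ i ih => exact ih.trans (Nr.of_adj ⟨h1 i, h0 i, h0 (i + 1)⟩)

private theorem Geo_finite (hadj : ∀ x y, G.Adj x y ↔ ∃ i, t i x = y) {Y : Set X} (x : X)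
    (ρ : ℕ) : {c | (x, c) ∈ Srv G C Y ρ}.Finite := by
  refine (finite_Nr hadj (ρ + 2) x).1.subset ?_
  rintro c ⟨-, -, p, ⟨-, v, hv1, hv2⟩, hp⟩
  have h1 : Nr G ρ x p := Nr.mono_graph (Γ := hallG G C) (fun a b h => h.1) hp
  have h2 : Nr G 2 p c := (Nr.of_adj hv2.symm).trans (Nr.of_adj hv1.symm)
  exact h1.trans h2

private theorem Geo_core (hadj : ∀ x y, G.Adj x y ↔ ∃ i, t i x = y)
    (tinj : ∀ x i j, t i x = t j x → i = j) {m n : ℕ} (hn : n = m * 4 ^ 7) (hm : 4 ≤ m)
    (hsep : Sep G n) (hC : Sites G C) {Y : Set X} {x : X} (hxY : x ∈ Y) (hx : x ∈ hall G C) :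
    m ≤ {c | (x, c) ∈ Srv G C Y (n + 5)}.ncard := by
  classical
  have hn4 : 4 ≤ n := by
    have h1 : 0 < 4 ^ 7 := by positivity
    rw [hn]
    nlinarith
  obtain ⟨a, ha0, ha1, ha2, ha3⟩ := Geo_walk hadj tinj (Geo_sep_mono hsep hn4) hC hx
  have h1 : ∀ i, ∃ c ∈ C, Nr G 7 (a i) c ∧ ∃ p, Port G C c p ∧ Nr (hallG G C) 5 (a i) p :=
    fun i => near_port hC (ha1 i)
  choose c hc1 hc2 p hp1 hp2 using h1
  have hfin : {c | (x, c) ∈ Srv G C Y (n + 5)}.Finite := Geo_finite hadj x _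
  have hmem : ∀ i < n, (x, c i) ∈ Srv G C Y (n + 5) := by
    intro i hi
    refine ⟨hxY, hc1 i, p i, hp1 i, ?_⟩
    have h2 := (Geo_nr ha1 ha2 i).mono hi.le
    rw [ha0] at h2
    exact h2.trans (hp2 i)
  have hcard : (Finset.range n).card ≤ 4 ^ 7 * ((Finset.range n).image c).card := by
    refine Finset.card_le_mul_card_image _ _ fun b _ => ?_
    obtain ⟨hf, hb⟩ := finite_Nr hadj 7 b
    refine le_trans ?_ hb
    rw [← Set.ncard_coe_finset]
    refine Set.ncard_le_ncard_of_injOn a ?_ ?_ hf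
    · intro i hi
      rw [Finset.mem_coe, Finset.mem_filter] at hi
      have h3 := (hc2 i).symm
      rw [hi.2] at h3
      exact h3
    · intro i hi j hj hij
      rw [Finset.mem_coe, Finset.mem_filter, Finset.mem_range] at hi hj
      rcases lt_trichotomy i j with h | h | h
      · exact absurd hij (Geo_inj hsep ha2 ha3 h hj.1.le)
      · exact h
      · exact absurd hij.symm (Geo_inj hsep ha2 ha3 h hi.1.le)
  rw [Finset.card_range, hn, mul_comm m] at hcard
  have h4 : m ≤ ((Finset.range (4 ^ 7 * m)).image c).card :=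
    Nat.le_of_mul_le_mul_left hcard (by positivity)
  refine h4.trans ?_
  rw [← Set.ncard_coe_finset]
  refine Set.ncard_le_ncard ?_ hfin
  intro b hb
  rw [Finset.mem_coe, Finset.mem_image] at hb
  obtain ⟨i, hi, rfl⟩ := hb
  rw [Finset.mem_range, mul_comm, ← hn] at hi
  exact hmem i hi

theorem many_sites (hadj : ∀ x y, G.Adj x y ↔ ∃ i, t i x = y)
    (tinj : ∀ x i j, t i x = t j x → i = j) (hsep : Sep G (72 * 4 ^ 7)) (hC : Sites G C)
    {Y : Set X} {x : X} (hxY : x ∈ Y) (hx : x ∈ hall G C) :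
    72 ≤ {c | (x, c) ∈ Srv G C Y (72 * 4 ^ 7 + 5)}.ncard :=
  Geo_core hadj tinj rfl (by omega) hsep hC hxY hx

end Pool.Agent.Helper75.MG
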