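import Pool.Agent.Helper75.MG.Words

/-!
# Project MG: sites, halls, ports (definitions)
-/

namespace Pool.Agent.Helper75.MG

variable {X : Type}

/-- the hall of `C`: the points which are neither in `C` nor adjacent to a point of `C` -/
def hall (G : SimpleGraph X) (C : Set X) : Set X := {x | x ∉ C ∧ ∀ c ∈ C, ¬ G.Adj x c}

/-- the graph induced on the hall -/
def hallG (G : SimpleGraph X) (C : Set X) : SimpleGraph X where
  Adj x y := G.Adj x y ∧ x ∈ hall G C ∧ y ∈ hall G C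
  symm := ⟨fun _ _ h => ⟨h.1.symm, h.2.2, h.2.1⟩⟩
  loopless := ⟨fun _ h => h.1.ne rfl⟩

/-- `p` is a port of `c`: a hall point at distance two -/
def Port (G : SimpleGraph X) (C : Set X) (c p : X) : Prop :=
  p ∈ hall G C ∧ ∃ v, G.Adj c v ∧ G.Adj v p

/-- `C` is a set of sites: 5-separated and 5-dense -/
structure Sites (G : SimpleGraph X) (C : Set X) : Prop where
  sep : ∀ x ∈ C, ∀ y ∈ C, x ≠ y → ¬ Nr G 5 x y
  dense : ∀ x, ∃ c ∈ C, Nr G 5 x c

/-- the relation between clients and servers -/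
def Srv (G : SimpleGraph X) (C Y : Set X) (ρ : ℕ) : Set (X × X) :=
  {z | z.1 ∈ Y ∧ z.2 ∈ C ∧ ∃ p, Port G C z.2 p ∧ Nr (hallG G C) ρ z.1 p}

end Pool.Agent.Helper75.MG
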