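import Pool.Agent.Helper75.MG.GeoDefs

/-!
# Project MG, piece E2: measurability of the geometric objects, directions

* `hall G C` is the complement of `C ∪ ⋃ i, {x | t i x ∈ C}`.
* `{z | Nr (hallG G C) n z.1 z.2}`: `measurableSet_Nr` with `E i = {x | x ∈ hall G C ∧ t i x ∈ hall G C}`.
* `Srv`: `∃ p, Port ...` is `∃ i j, t j (t i c) ∈ hall ∧ Nr (hallG G C) ρ u (t j (t i c))`.
* `exists_dir`: for `j : Fin 3` let `Q j` be the set of `c` such that there is `u` with `(u, c) ∈ B` and `k` with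
  `t k (t j c) ∈ hall G C`, `Nr (hallG G C) ρ u (t k (t j c))`. `(u, c) ∈ B` implies `Nr G (ρ + 2) c u`, so
  `u = w l c` for one of the finitely many measurable maps `w l` of `exists_words` (`n = ρ + 2`), and `Q j` is
  measurable. Let `dir c` be the least `j` with `c ∈ Q j` (or `0`). If `(u, c) ∈ B` then some `Q j` contains
  `c` (by `B ⊆ Srv`), and the `u'` witnessing `c ∈ Q (dir c)` is `u` by the injectivity of `B`.
-/

namespace Pool.Agent.Helper75.MG

open MeasureTheory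

variable {X : Type} [MeasurableSpace X] [StandardBorelSpace X] {G : SimpleGraph X}
  {t : Fin 3 → X → X} {C : Set X}

theorem measurableSet_hall (ht : ∀ i, Measurable (t i))
    (hadj : ∀ x y, G.Adj x y ↔ ∃ i, t i x = y) (hC : MeasurableSet C) :
    MeasurableSet (hall G C) := by
  have h : hall G C = Cᶜ ∩ ⋂ i, (t i ⁻¹' C)ᶜ := by
    ext x
    simp only [hall, Set.mem_ofPred_eq, Set.mem_inter_iff, Set.mem_compl_iff, Set.mem_iInter,
      Set.mem_preimage]
    refine and_congr_right fun _ => ⟨fun h i hi => h _ hi ((hadj _ _).2 ⟨i, rfl⟩),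
      fun h c hc hx => ?_⟩
    obtain ⟨i, hi⟩ := (hadj _ _).1 hx
    exact h i (hi ▸ hc)
  rw [h]
  exact hC.compl.inter (MeasurableSet.iInter fun i => (ht i hC).compl)

theorem measurableSet_hallNr (ht : ∀ i, Measurable (t i))
    (hadj : ∀ x y, G.Adj x y ↔ ∃ i, t i x = y) (hC : MeasurableSet C) (n : ℕ) :
    MeasurableSet {z : X × X | Nr (hallG G C) n z.1 z.2} := by
  have hh := measurableSet_hall ht hadj hC
  refine measurableSet_Nr (hallG G C) t ht (fun i => hall G C ∩ t i ⁻¹' hall G C)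
    (fun i => hh.inter (ht i hh)) (fun x y => ?_) n
  constructor
  · rintro ⟨h1, h2, h3⟩
    obtain ⟨i, hi⟩ := (hadj _ _).1 h1
    exact ⟨i, ⟨h2, by rw [Set.mem_preimage, hi]; exact h3⟩, hi⟩
  · rintro ⟨i, ⟨h1, h2⟩, hi⟩
    exact ⟨(hadj _ _).2 ⟨i, hi⟩, h1, by rw [← hi]; exact h2⟩

theorem measurableSet_Srv (ht : ∀ i, Measurable (t i))
    (hadj : ∀ x y, G.Adj x y ↔ ∃ i, t i x = y) (hC : MeasurableSet C) {Y : Set X}
    (hY : MeasurableSet Y) (ρ : ℕ) : MeasurableSet (Srv G C Y ρ) := by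
  have hh := measurableSet_hall ht hadj hC
  have hN := measurableSet_hallNr ht hadj hC ρ
  have h : Srv G C Y ρ = (Prod.fst ⁻¹' Y) ∩ ((Prod.snd ⁻¹' C) ∩ ⋃ i, ⋃ j,
      (fun z : X × X => (z.1, t j (t i z.2))) ⁻¹'
        ((Prod.snd ⁻¹' hall G C) ∩ {z : X × X | Nr (hallG G C) ρ z.1 z.2})) := by
    ext z
    simp only [Srv, Set.mem_ofPred_eq, Set.mem_inter_iff, Set.mem_iUnion, Set.mem_preimage]
    refine and_congr_right fun _ => and_congr_right fun _ => ?_
    constructor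
    · rintro ⟨p, ⟨h1, v, h2, h3⟩, h4⟩
      obtain ⟨i, rfl⟩ := (hadj _ _).1 h2
      obtain ⟨j, rfl⟩ := (hadj _ _).1 h3
      exact ⟨i, j, h1, h4⟩
    · rintro ⟨i, j, h1, h4⟩
      exact ⟨_, ⟨h1, t i z.2, (hadj _ _).2 ⟨i, rfl⟩, (hadj _ _).2 ⟨j, rfl⟩⟩, h4⟩
  rw [h]
  refine (measurable_fst hY).inter ((measurable_snd hC).inter
    (MeasurableSet.iUnion fun i => MeasurableSet.iUnion fun j => ?_))
  have hm : Measurable fun z : X × X => (z.1, t j (t i z.2)) :=
    measurable_fst.prodMk ((ht j).comp ((ht i).comp measurable_snd))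
  exact hm ((measurable_snd hh).inter hN)

theorem Srv_near {Y : Set X} {ρ : ℕ} {u c : X} (h : (u, c) ∈ Srv G C Y ρ) :
    Nr G (ρ + 2) u c := by
  obtain ⟨-, -, p, ⟨-, v, h2, h3⟩, h4⟩ := h
  have h5 : Nr G ρ u p := Nr.mono_graph (Γ := hallG G C) (fun a b hab => hab.1) h4
  exact h5.trans ((Nr.of_adj h3.symm).trans (Nr.of_adj h2.symm))

theorem exists_dir (ht : ∀ i, Measurable (t i)) (hadj : ∀ x y, G.Adj x y ↔ ∃ i, t i x = y)
    (hC : MeasurableSet C) {Y : Set X} {ρ : ℕ} {B : Set (X × X)} (hB : MeasurableSet B)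
    (hBS : B ⊆ Srv G C Y ρ) (hinj : ∀ u u' c, (u, c) ∈ B → (u', c) ∈ B → u = u') :
    ∃ dir : X → Fin 3, (∀ j, MeasurableSet {x | dir x = j}) ∧
      ∀ u c, (u, c) ∈ B → ∃ p ∈ hall G C, G.Adj (t (dir c) c) p ∧ Nr (hallG G C) ρ u p := by
  classical
  have hh := measurableSet_hall ht hadj hC
  have hN := measurableSet_hallNr ht hadj hC ρ
  obtain ⟨w, hw, hwN⟩ := exists_words G t ht hadj (ρ + 2)
  let Q : Fin 3 → Set X := fun j => ⋃ l, ⋃ k, ((fun c => (w l c, c)) ⁻¹' B) ∩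
    ((fun c => (w l c, t k (t j c))) ⁻¹'
      ((Prod.snd ⁻¹' hall G C) ∩ {z : X × X | Nr (hallG G C) ρ z.1 z.2}))
  have hQ : ∀ j, MeasurableSet (Q j) := by
    intro j
    refine MeasurableSet.iUnion fun l => MeasurableSet.iUnion fun k => ?_
    have h1 : Measurable fun c : X => (w l c, c) := (hw l).prodMk measurable_id
    have h2 : Measurable fun c : X => (w l c, t k (t j c)) :=
      (hw l).prodMk ((ht k).comp (ht j))
    exact (h1 hB).inter (h2 ((measurable_snd hh).inter hN))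
  have hQ1 : ∀ u c, (u, c) ∈ B → ∃ j, c ∈ Q j := by
    intro u c hB'
    have hS := hBS hB'
    obtain ⟨l, hl⟩ := (hwN c u).1 (Srv_near hS).symm
    obtain ⟨-, -, p, ⟨h1, v, h2, h3⟩, h4⟩ := hS
    obtain ⟨j, rfl⟩ := (hadj _ _).1 h2
    obtain ⟨k, rfl⟩ := (hadj _ _).1 h3
    refine ⟨j, Set.mem_iUnion.2 ⟨l, Set.mem_iUnion.2 ⟨k, ?_, ?_, ?_⟩⟩⟩
    · change (w l c, c) ∈ B
      rw [hl]
      exact hB'
    · exact h1
    · change Nr (hallG G C) ρ (w l c) (t k (t j c))
      rw [hl]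
      exact h4
  have hQ2 : ∀ u c j, (u, c) ∈ B → c ∈ Q j →
      ∃ p ∈ hall G C, G.Adj (t j c) p ∧ Nr (hallG G C) ρ u p := by
    intro u c j hB' hc
    obtain ⟨l, hl⟩ := Set.mem_iUnion.1 hc
    obtain ⟨k, h1, h2, h3⟩ := Set.mem_iUnion.1 hl
    have h4 : w l c = u := hinj _ _ c h1 hB'
    refine ⟨t k (t j c), h2, (hadj _ _).2 ⟨k, rfl⟩, ?_⟩
    change Nr (hallG G C) ρ (w l c) (t k (t j c)) at h3
    rwa [h4] at h3
  refine ⟨fun c => if c ∈ Q 0 then 0 else if c ∈ Q 1 then 1 else 2, fun j => ?_, fun u c hB' => ?_⟩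
  · have hm : Measurable (fun c => if c ∈ Q 0 then (0 : Fin 3) else if c ∈ Q 1 then 1 else 2) :=
      Measurable.ite (hQ 0) measurable_const (Measurable.ite (hQ 1) measurable_const
        measurable_const)
    exact hm (measurableSet_singleton j)
  · apply hQ2 u c _ hB'
    by_cases h0 : c ∈ Q 0
    · simp only [h0, if_true]
    · by_cases h1 : c ∈ Q 1
      · simp only [h0, h1, if_true, if_false]
      · simp only [h0, h1, if_false]
        obtain ⟨j, hj⟩ := hQ1 u c hB'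
        fin_cases j
        · exact absurd hj h0
        · exact absurd hj h1
        · exact hj

end Pool.Agent.Helper75.MG
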