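import Pool.Agent.Helper75.MG.GeoDefs

/-!
# Project MG, piece E1a: geometry of sites and halls

`t 0 x, t 1 x, t 2 x` are the three different neighbours of `x`; `C` is a set of sites.

* `hall_two`: a hall point `x` has, for every `p`, a neighbour `z ≠ p` in the hall. Two different
  neighbours `y, y'` of `x` outside the hall are not in `C`, so they are adjacent to `c, c' ∈ C`; `Nr G 4 c c'`, so
  `c = c'`, and `c, y, x, y', c` is a closed non-backtracking walk of length 4: contradiction.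
* `near_port`: take `c ∈ C` with `Nr G 5 x c`; induction on the length `m` of a walk from a hall point `x`
  to a point outside the hall: the last hall point before leaving is some `p` with `Nr (hallG G C) m x p`,
  its successor `v` is outside the hall, `v ∉ C` since `p` is in the hall, so `v` is adjacent to some
  `c' ∈ C` and `p` is a port of `c'`, `Nr G (m + 1) x c'` (so `Nr G 7 x c'`).
* `few_clients`: send `u` to `(i, j)` with `t j (t i c)` = the port within hall distance `ρ` of `u`; injective on the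
  set since different points of `Y` are at hall distance more than `2 ρ`.
-/

namespace Pool.Agent.Helper75.MG

variable {X : Type} {G : SimpleGraph X} {t : Fin 3 → X → X} {C : Set X}

private theorem hall_out {x y : X} (hx : x ∈ hall G C) (hxy : G.Adj x y) (hy : y ∉ hall G C) :
    ∃ c ∈ C, G.Adj y c := by
  by_contra h
  push Not at h
  exact hy ⟨fun hc => hx.2 y hc hxy, h⟩

private theorem hall_pair (hsep : Sep G 4) (hC : Sites G C) {x y y' : X} (hx : x ∈ hall G C)
    (hy : G.Adj x y) (hy' : G.Adj x y') (hne : y ≠ y') : y ∈ hall G C ∨ y' ∈ hall G C := by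
  by_contra hcon
  push Not at hcon
  obtain ⟨c, hc, hyc⟩ := hall_out hx hy hcon.1
  obtain ⟨c', hc', hyc'⟩ := hall_out hx hy' hcon.2
  have hcc : c = c' := by
    by_contra h
    refine hC.sep c hc c' hc' h ?_
    have h1 : Nr G 1 c y := Nr.of_adj hyc.symm
    have h2 : Nr G 1 y x := Nr.of_adj hy.symm
    have h3 : Nr G 1 x y' := Nr.of_adj hy'
    have h4 : Nr G 1 y' c' := Nr.of_adj hyc'
    exact (((h1.trans h2).trans h3).trans h4).mono (by norm_num)
  subst hcc
  have hcx : c ≠ x := fun h => hx.1 (h ▸ hc)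
  refine hsep 4 (fun i => match i with
    | 0 => c
    | 1 => y
    | 2 => x
    | 3 => y'
    | _ => c) (by norm_num) le_rfl ?_ ?_ rfl
  · intro i hi
    match i, hi with
    | 0, _ => exact hyc.symm
    | 1, _ => exact hy.symm
    | 2, _ => exact hy'
    | 3, _ => exact hyc'
  · intro i hi
    match i, hi with
    | 0, _ => exact hcx
    | 1, _ => exact hne
    | 2, _ => exact hcx.symm
    | (n + 3), h => omega

theorem hall_two (hadj : ∀ x y, G.Adj x y ↔ ∃ i, t i x = y)
    (tinj : ∀ x i j, t i x = t j x → i = j) (hsep : Sep G 4) (hC : Sites G C) {x : X}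
    (hx : x ∈ hall G C) (p : X) : ∃ z ∈ hall G C, G.Adj x z ∧ z ≠ p := by
  have hadj' : ∀ i, G.Adj x (t i x) := fun i => (hadj _ _).2 ⟨i, rfl⟩
  have key : ∀ i j, i ≠ j → t i x ≠ p → t j x ≠ p → ∃ z ∈ hall G C, G.Adj x z ∧ z ≠ p := by
    intro i j hij hi hj
    rcases hall_pair hsep hC hx (hadj' i) (hadj' j) (fun h => hij (tinj x i j h)) with h | h
    · exact ⟨_, h, hadj' i, hi⟩
    · exact ⟨_, h, hadj' j, hj⟩
  by_cases h0 : t 0 x = p
  · refine key 1 2 (by decide) (fun h => ?_) (fun h => ?_)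
    · exact absurd (tinj x 1 0 (h.trans h0.symm)) (by decide)
    · exact absurd (tinj x 2 0 (h.trans h0.symm)) (by decide)
  · by_cases h1 : t 1 x = p
    · refine key 0 2 (by decide) h0 (fun h => ?_)
      exact absurd (tinj x 2 1 (h.trans h1.symm)) (by decide)
    · exact key 0 1 (by decide) h0 h1

private theorem hall_walk {x z : X} (w : G.Walk x z) : x ∈ hall G C → z ∉ hall G C →
    ∃ c ∈ C, Nr G (w.length + 1) x c ∧ ∃ p, Port G C c p ∧ Nr (hallG G C) w.length x p := by
  induction w with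
  | nil => exact fun h h' => absurd h h'
  | @cons x v z h w ih =>
    intro hx hz
    rw [SimpleGraph.Walk.length_cons]
    by_cases hv : v ∈ hall G C
    · obtain ⟨c, hc, h1, p, hp, h2⟩ := ih hv hz
      refine ⟨c, hc, ((Nr.of_adj h).trans h1).mono (by omega), p, hp, ?_⟩
      have h3 : (hallG G C).Adj x v := ⟨h, hx, hv⟩
      exact ((Nr.of_adj h3).trans h2).mono (by omega)
    · obtain ⟨c, hc, hvc⟩ := hall_out hx h hv
      exact ⟨c, hc, ((Nr.of_adj h).trans (Nr.of_adj hvc)).mono (by omega), x,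
        ⟨hx, v, hvc.symm, h.symm⟩, Nr.refl _ _⟩

theorem near_port (hC : Sites G C) {x : X} (hx : x ∈ hall G C) :
    ∃ c ∈ C, Nr G 7 x c ∧ ∃ p, Port G C c p ∧ Nr (hallG G C) 5 x p := by
  obtain ⟨c, hc, w, hw⟩ := hC.dense x
  obtain ⟨c', hc', h1, p, hp, h2⟩ := hall_walk w hx (fun h => h.1 hc)
  exact ⟨c', hc', h1.mono (by omega), p, hp, h2.mono hw⟩

theorem few_clients (hadj : ∀ x y, G.Adj x y ↔ ∃ i, t i x = y) {Y : Set X} {ρ : ℕ}
    (hY : ∀ u ∈ Y, ∀ u' ∈ Y, u ≠ u' → ¬ Nr (hallG G C) (2 * ρ) u u') (c : X) :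
    {u | (u, c) ∈ Srv G C Y ρ}.ncard ≤ 9 := by
  classical
  have hex : ∀ u ∈ {u | (u, c) ∈ Srv G C Y ρ}, ∃ q : Fin 3 × Fin 3,
      Nr (hallG G C) ρ u (t q.2 (t q.1 c)) := by
    rintro u ⟨_, _, p, ⟨_, v, hcv, hvp⟩, hup⟩
    obtain ⟨i, hi⟩ := (hadj _ _).1 hcv
    obtain ⟨j, hj⟩ := (hadj _ _).1 hvp
    refine ⟨(i, j), ?_⟩
    dsimp only at hup ⊢
    rw [hi, hj]
    exact hup
  let f : X → Fin 3 × Fin 3 := fun u =>
    if h : ∃ q : Fin 3 × Fin 3, Nr (hallG G C) ρ u (t q.2 (t q.1 c)) then h.choose else (0, 0)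
  have hf : ∀ u ∈ {u | (u, c) ∈ Srv G C Y ρ}, Nr (hallG G C) ρ u (t (f u).2 (t (f u).1 c)) := by
    intro u hu
    have h := hex u hu
    have h1 : f u = h.choose := dif_pos h
    rw [h1]
    exact h.choose_spec
  have h1 := Set.ncard_le_ncard_of_injOn (s := {u | (u, c) ∈ Srv G C Y ρ})
    (t := (Set.univ : Set (Fin 3 × Fin 3))) f (fun _ _ => Set.mem_univ _) (by
      intro u hu u' hu' he
      by_contra hne
      refine hY u hu.1 u' hu'.1 hne ?_
      have h2 := hf u hu
      have h3 := hf u' hu'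
      rw [← he] at h3
      exact (h2.trans h3.symm).mono (by omega)) Set.finite_univ
  refine h1.trans ?_
  rw [Set.ncard_univ]
  simp

end Pool.Agent.Helper75.MG
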