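import Pool.Agent.Helper75.MG.Defs

/-!
# Project MG: the labelling recursion (definitions)

`t 0 x, t 1 x, t 2 x` are the neighbours of `x`. `src x = some j` means that `x` is a seed of the centre
`t j x`; otherwise `ch x` is the list of (indices of) the children of `x`.
-/

namespace Pool.Agent.Helper75.MG

variable {X : Type} {N : ℕ}

/-- one step of the label recursion -/
def stepF (t : Fin 3 → X → X) (κ : X → Fin N) (src : X → Option (Fin 3))
    (ch : X → List (Fin 3)) (f : X → Tm N) (x : X) : Tm N :=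
  match src x with
  | some j => Tm.gen (κ (t j x))
  | none => match ch x with
    | [] => Tm.gen (κ x)
    | [i] => Tm.mk (f (t i x)) (Tm.gen (κ x))
    | i :: j :: _ => Tm.mk (f (t i x)) (f (t j x))

/-- the iterates of the label recursion -/
def lab (t : Fin 3 → X → X) (κ : X → Fin N) (src : X → Option (Fin 3))
    (ch : X → List (Fin 3)) : ℕ → X → Tm N
  | 0 => fun x => Tm.gen (κ x)
  | n + 1 => stepF t κ src ch (lab t κ src ch n)

/-- the combinatorial requirements on an invariant set `X'` -/
structure Plan (t : Fin 3 → X → X) (X' : Set X) (B : ℕ) (src : X → Option (Fin 3))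
    (ch : X → List (Fin 3)) (ρ : X → ℕ) : Prop where
  le : ∀ x ∈ X', ρ x ≤ B
  lt : ∀ x ∈ X', src x = none → ∀ i ∈ ch x, ρ (t i x) < ρ x
  nodup : ∀ x ∈ X', src x = none → (ch x).Nodup
  len : ∀ x ∈ X', src x = none → (ch x).length ≤ 2
  centre : ∀ x ∈ X', ∀ j, src x = some j →
    src (t j x) = none ∧ ∃ i, ch (t j x) = [i] ∧ t i (t j x) ≠ x
  cover : ∀ x ∈ X', ∀ i, (src x = none ∧ i ∈ ch x) ∨
    (src (t i x) = none ∧ ∃ j ∈ ch (t i x), t j (t i x) = x) ∨
    src x = some i ∨ (∃ j, src (t i x) = some j ∧ t j (t i x) = x)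

end Pool.Agent.Helper75.MG
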