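import Pool.Agent.Helper75.MG.Defs

/-!
# Project MG, piece A: the target graph

* finitely many terms of depth `≤ d`: induction on `d`, the set `{t | depth t ≤ d + 1}` is contained in
  `range gen ∪ image2 node S S`, `S = {t | depth t ≤ d}`.
* `mk a b` for disjoint supports: `lm t ∈ supp t` (as an element of `Fin N`), so `lm a ≠ lm b`.
* girth at least 5.  `le_egirth`: let `w` be a cycle, its length is at least 3; exclude 3 and 4.
  Facts: (1) `Edge s t` gives `supp s ⊂ supp t` strictly (`Tm.Edge.ssubset`) and `supp s` is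
  nonempty; (2) if `Edge a t`, `Edge b t`, `a ≠ b` then `supp a`, `supp b` are disjoint (all from
  `t = node _ _`, injectivity of the constructor), hence neither `Edge a b` nor `Edge b a`, and
  nothing `z` has both `supp z ⊆ supp a`, `supp z ⊆ supp b`; (3) `Edge a t`, `Edge b t`, `Edge a z`,
  `Edge b z`, `a ≠ b` force `t = z` (the canonical order `lm a < lm b` decides which is first).
  Triangle `x, y, z`: take the vertex with the largest support cardinality; both others are its
  children (adjacent terms have different support cardinalities), contradiction with (2).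
  4-cycle `x, y, z, u` (`x ≠ z`, `y ≠ u`): let `x` be the one with the largest support cardinality
  (the statement is invariant under rotation); its cycle neighbours `y`, `u` are children of `x`.
  `z` is adjacent to `y` and `u`: if `z` is a parent of both, then `z = x` by (3); if `z` is a child
  of `y` and `u` is a child of `z`, then `supp u ⊂ supp y`, contradiction with (2); if `z` is a child
  of both `y` and `u`, contradiction with (2); symmetric.
-/

namespace Pool.Agent.Helper75.MG

open Tm

variable {N : ℕ}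

private theorem TmG_finite_set (N d : ℕ) : {t : Tm N | t.depth ≤ d}.Finite := by
  induction d with
  | zero =>
    refine (Set.finite_range (Tm.gen : Fin N → Tm N)).subset ?_
    rintro (i | ⟨a, b⟩) ht
    · exact ⟨i, rfl⟩
    · simp [depth] at ht
  | succ d ih =>
    refine ((Set.finite_range (Tm.gen : Fin N → Tm N)).union (ih.image2 Tm.node ih)).subset ?_
    rintro (i | ⟨a, b⟩) ht
    · exact Or.inl ⟨i, rfl⟩
    · right
      have h : max a.depth b.depth + 1 ≤ d + 1 := ht
      have h1 : max a.depth b.depth ≤ d := Nat.le_of_succ_le_succ h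
      exact ⟨a, (le_max_left _ _).trans h1, b, (le_max_right _ _).trans h1, rfl⟩

theorem finite_tm (N d : ℕ) : Finite {t : Tm N // t.depth ≤ d} :=
  (TmG_finite_set N d).to_subtype

theorem supp_mk (a b : Tm N) : (mk a b).supp = a.supp ∪ b.supp := by
  unfold mk
  split_ifs
  · rfl
  · exact Finset.union_comm _ _

theorem depth_mk (a b : Tm N) : (mk a b).depth = max a.depth b.depth + 1 := by
  unfold mk
  split_ifs
  · rfl
  · change max b.depth a.depth + 1 = _
    rw [max_comm]

private theorem TmG_lm_mem (t : Tm N) : ∃ i ∈ t.supp, (i : ℕ) = t.lm := by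
  induction t with
  | gen i => exact ⟨i, by simp [supp], rfl⟩
  | node a b ha _ =>
    obtain ⟨i, hi, h⟩ := ha
    exact ⟨i, by simp [supp, hi], h⟩

theorem edge_mk {a b : Tm N} (h : Disjoint a.supp b.supp) : Edge a (mk a b) ∧ Edge b (mk a b) := by
  have hne : a.lm ≠ b.lm := by
    intro he
    obtain ⟨i, hi, h1⟩ := TmG_lm_mem a
    obtain ⟨j, hj, h2⟩ := TmG_lm_mem b
    have hij : i = j := Fin.ext (h1.trans (he.trans h2.symm))
    subst hij
    exact Finset.disjoint_left.1 h hi hj
  unfold mk
  split_ifs with hlt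
  · exact ⟨⟨a, b, rfl, h, hlt, Or.inl rfl⟩, ⟨a, b, rfl, h, hlt, Or.inr rfl⟩⟩
  · have hlt' : b.lm < a.lm := lt_of_le_of_ne (not_lt.1 hlt) hne.symm
    exact ⟨⟨b, a, rfl, h.symm, hlt', Or.inr rfl⟩, ⟨b, a, rfl, h.symm, hlt', Or.inl rfl⟩⟩

private theorem TmG_disj {a b t : Tm N} (ha : Edge a t) (hb : Edge b t) (hab : a ≠ b) :
    Disjoint a.supp b.supp := by
  obtain ⟨p, q, rfl, hd, -, h1⟩ := ha
  obtain ⟨p', q', he, -, -, h2⟩ := hb
  injection he with he1 he2
  subst he1
  subst he2
  rcases h1 with h1 | h1 <;> rcases h2 with h2 | h2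
  · exact absurd (h1.trans h2.symm) hab
  · rw [h1, h2]
    exact hd
  · rw [h1, h2]
    exact hd.symm
  · exact absurd (h1.trans h2.symm) hab

private theorem TmG_node {a b t : Tm N} (ha : Edge a t) (hb : Edge b t) (hab : a ≠ b) :
    (a.lm < b.lm ∧ t = node a b) ∨ (b.lm < a.lm ∧ t = node b a) := by
  obtain ⟨p, q, rfl, -, hlt, h1⟩ := ha
  obtain ⟨p', q', he, -, -, h2⟩ := hb
  injection he with he1 he2
  subst he1
  subst he2
  rcases h1 with h1 | h1 <;> rcases h2 with h2 | h2
  · exact absurd (h1.trans h2.symm) hab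
  · left
    rw [h1, h2]
    exact ⟨hlt, rfl⟩
  · right
    rw [h1, h2]
    exact ⟨hlt, rfl⟩
  · exact absurd (h1.trans h2.symm) hab

private theorem TmG_uniq {a b t z : Tm N} (ha : Edge a t) (hb : Edge b t) (ha' : Edge a z)
    (hb' : Edge b z) (hab : a ≠ b) : t = z := by
  rcases TmG_node ha hb hab with ⟨h1, h2⟩ | ⟨h1, h2⟩ <;>
    rcases TmG_node ha' hb' hab with ⟨h3, h4⟩ | ⟨h3, h4⟩
  · rw [h2, h4]
  · omega
  · omega
  · rw [h2, h4]

private theorem TmG_not_disj {a b : Tm N} (h : Disjoint a.supp b.supp) {z : Tm N}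
    (h1 : z.supp ⊆ a.supp) (h2 : z.supp ⊆ b.supp) : False := by
  obtain ⟨i, hi⟩ := supp_nonempty z
  exact Finset.disjoint_left.1 h (h1 hi) (h2 hi)

private theorem TmG_three {x y z : Tm N} (hy : Edge y x) (hz : Edge z x) (hne : y ≠ z)
    (h : Edge y z ∨ Edge z y) : False := by
  have hd := TmG_disj hy hz hne
  rcases h with h | h
  · exact TmG_not_disj hd (Finset.Subset.refl _) h.ssubset.1
  · exact TmG_not_disj hd h.ssubset.1 (Finset.Subset.refl _)

private theorem TmG_four {x y z u : Tm N} (hy : Edge y x) (hu : Edge u x) (hyu : y ≠ u)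
    (hxz : x ≠ z) (h1 : Edge y z ∨ Edge z y) (h2 : Edge z u ∨ Edge u z) : False := by
  have hd := TmG_disj hy hu hyu
  rcases h1 with h1 | h1 <;> rcases h2 with h2 | h2
  · exact TmG_not_disj hd (Finset.Subset.refl _) (h1.ssubset.1.trans h2.ssubset.1)
  · exact hxz (TmG_uniq hy hu h1 h2 hyu)
  · exact TmG_not_disj hd h1.ssubset.1 h2.ssubset.1
  · exact TmG_not_disj hd (h2.ssubset.1.trans h1.ssubset.1) (Finset.Subset.refl _)

private theorem TmG_no_triangle {x y z : Tm N} (hxy : Edge x y ∨ Edge y x)
    (hyz : Edge y z ∨ Edge z y) (hzx : Edge z x ∨ Edge x z) (h1 : x ≠ y) (h2 : y ≠ z)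
    (h3 : z ≠ x) : False := by
  rcases hxy with a | a <;> rcases hyz with b | b <;> rcases hzx with c | c
  · exact ssubset_irrefl _ ((a.ssubset.trans b.ssubset).trans c.ssubset)
  · exact TmG_three b c h1.symm (Or.inr a)
  · exact TmG_three a b h3.symm (Or.inr c)
  · exact TmG_three a b h3.symm (Or.inl c)
  · exact TmG_three a c h2 (Or.inl b)
  · exact TmG_three b c h1.symm (Or.inl a)
  · exact TmG_three a c h2 (Or.inr b)
  · exact ssubset_irrefl _ ((a.ssubset.trans c.ssubset).trans b.ssubset)

private theorem TmG_no_square {x y z u : Tm N} (hxy : Edge x y ∨ Edge y x)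
    (hyz : Edge y z ∨ Edge z y) (hzu : Edge z u ∨ Edge u z) (hux : Edge u x ∨ Edge x u)
    (hxz : x ≠ z) (hyu : y ≠ u) : False := by
  have sx : Edge y x → Edge u x → False := fun p q => TmG_four p q hyu hxz hyz hzu
  have sy : Edge x y → Edge z y → False := fun p q => TmG_four p q hxz hyu hux.symm hzu.symm
  have sz : Edge y z → Edge u z → False := fun p q => TmG_four p q hyu hxz.symm hxy.symm hux.symm
  have su : Edge z u → Edge x u → False := fun p q =>
    TmG_four p q hxz.symm hyu.symm hyz.symm hxy.symm
  rcases hxy with a | a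
  · rcases hyz with b | b
    · rcases hzu with c | c
      · rcases hux with d | d
        · exact ssubset_irrefl _ (((a.ssubset.trans b.ssubset).trans c.ssubset).trans d.ssubset)
        · exact su c d
      · exact sz b c
    · exact sy a b
  · rcases hux with d | d
    · exact sx a d
    · rcases hzu with c | c
      · exact su c d
      · rcases hyz with b | b
        · exact sz b c
        · exact ssubset_irrefl _ (((a.ssubset.trans d.ssubset).trans c.ssubset).trans b.ssubset)

theorem egirth_HN (N d : ℕ) : (5 : ℕ∞) ≤ (HN N d).egirth := by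
  rw [SimpleGraph.le_egirth]
  intro v w hw
  have h3 : 3 ≤ w.length := hw.three_le_length
  by_contra hlt
  have h4 : w.length < 5 := by
    by_contra h
    exact hlt (by exact_mod_cast not_lt.1 h)
  have hadj : ∀ i, i < w.length →
      Edge (w.getVert i).1 (w.getVert (i + 1)).1 ∨ Edge (w.getVert (i + 1)).1 (w.getVert i).1 :=
    fun i hi => w.adj_getVert_succ hi
  have hinj : ∀ i j, i < w.length → j < w.length → i ≠ j →
      (w.getVert i).1 ≠ (w.getVert j).1 := by
    intro i j hi hj hij he
    refine hij (hw.getVert_injOn' ?_ ?_ (Subtype.ext he))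
    · rw [Set.mem_ofPred_eq]
      omega
    · rw [Set.mem_ofPred_eq]
      omega
  have hz : w.getVert w.length = w.getVert 0 := by
    rw [w.getVert_length, w.getVert_zero]
  have hcases : w.length = 3 ∨ w.length = 4 := by omega
  rcases hcases with hl | hl
  · have a0 := hadj 0 (by omega)
    have a1 := hadj 1 (by omega)
    have a2 := hadj 2 (by omega)
    rw [hl] at hz
    rw [show (2 : ℕ) + 1 = 3 from rfl, hz] at a2
    exact TmG_no_triangle a0 a1 a2 (hinj 0 1 (by omega) (by omega) (by omega))
      (hinj 1 2 (by omega) (by omega) (by omega)) (hinj 2 0 (by omega) (by omega) (by omega))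
  · have a0 := hadj 0 (by omega)
    have a1 := hadj 1 (by omega)
    have a2 := hadj 2 (by omega)
    have a3 := hadj 3 (by omega)
    rw [hl] at hz
    rw [show (3 : ℕ) + 1 = 4 from rfl, hz] at a3
    exact TmG_no_square a0 a1 a2 a3 (hinj 0 2 (by omega) (by omega) (by omega))
      (hinj 1 3 (by omega) (by omega) (by omega))

end Pool.Agent.Helper75.MG
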