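import Pool.Agent.Helper75.MG.Defs

/-!
# Project MG, piece W: bounded walks as finitely many measurable maps

`Nr_zero`, `Nr_succ` describe `Nr` recursively (`Nr Γ (n+1) x y ↔ Nr Γ n x y ∨ ∃ z, Γ.Adj x z ∧ Nr Γ n z y`).
`exists_words`: induction on `n`, from `w` for `n` take `w' (k, l)` (index `Fin (4^n) × Fin 4 ≃ Fin (4^(n+1))`,
`finProdFinEquiv`) to be `w k ∘ t l` for `l < 3` and `w k` for `l = 3` (or any other way).
`finite_Nr`: from `exists_words` with the measurable space `⊤` (the image of `Fin (4^n)`).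
`measurableSet_Nr`: induction on `n`; `Nr Γ 0` is the diagonal (measurable in a standard Borel space
squared) and `{z | Nr Γ (n+1) z.1 z.2} = {z | Nr Γ n z.1 z.2} ∪ ⋃ i, {z | z.1 ∈ E i ∧ Nr Γ n (t i z.1) z.2}`.
-/

namespace Pool.Agent.Helper75.MG

open MeasureTheory

variable {X : Type} {Γ Γ' : SimpleGraph X}

theorem Nr.refl (n : ℕ) (x : X) : Nr Γ n x x := ⟨.nil, by simp⟩

theorem Nr.symm {n : ℕ} {x y : X} (h : Nr Γ n x y) : Nr Γ n y x := by
  obtain ⟨p, hp⟩ := h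
  exact ⟨p.reverse, by simpa using hp⟩

theorem Nr.trans {m n : ℕ} {x y z : X} (h : Nr Γ m x y) (h' : Nr Γ n y z) : Nr Γ (m + n) x z := by
  obtain ⟨p, hp⟩ := h
  obtain ⟨q, hq⟩ := h'
  exact ⟨p.append q, by rw [SimpleGraph.Walk.length_append]; omega⟩

theorem Nr.mono {m n : ℕ} {x y : X} (h : Nr Γ m x y) (hmn : m ≤ n) : Nr Γ n x y := by
  obtain ⟨p, hp⟩ := h
  exact ⟨p, hp.trans hmn⟩

theorem Nr.mono_graph {n : ℕ} {x y : X} (hG : ∀ a b, Γ.Adj a b → Γ'.Adj a b) (h : Nr Γ n x y) :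
    Nr Γ' n x y := by
  obtain ⟨p, hp⟩ := h
  have hle : Γ ≤ Γ' := fun a b hab => hG a b hab
  exact ⟨p.map (SimpleGraph.Hom.ofLE hle), by rw [SimpleGraph.Walk.length_map]; exact hp⟩

theorem Nr.of_adj {x y : X} (h : Γ.Adj x y) : Nr Γ 1 x y := ⟨.cons h .nil, by simp⟩

theorem Nr_zero {x y : X} : Nr Γ 0 x y ↔ x = y := by
  constructor
  · rintro ⟨p, hp⟩
    cases p with
    | nil => rfl
    | cons h q =>
      rw [SimpleGraph.Walk.length_cons] at hp
      omega
  · rintro rfl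
    exact Nr.refl 0 x

theorem Nr_succ {n : ℕ} {x y : X} :
    Nr Γ (n + 1) x y ↔ Nr Γ n x y ∨ ∃ z, Γ.Adj x z ∧ Nr Γ n z y := by
  constructor
  · rintro ⟨p, hp⟩
    cases p with
    | nil => exact Or.inl (Nr.refl n x)
    | cons h q =>
      rw [SimpleGraph.Walk.length_cons] at hp
      exact Or.inr ⟨_, h, q, by omega⟩
  · rintro (h | ⟨z, h, q, hq⟩)
    · exact h.mono (Nat.le_succ n)
    · exact ⟨.cons h q, by rw [SimpleGraph.Walk.length_cons]; omega⟩

theorem exists_words [MeasurableSpace X] (G : SimpleGraph X) (t : Fin 3 → X → X)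
    (ht : ∀ i, Measurable (t i)) (hadj : ∀ x y, G.Adj x y ↔ ∃ i, t i x = y) (n : ℕ) :
    ∃ w : Fin (4 ^ n) → X → X, (∀ k, Measurable (w k)) ∧
      ∀ x y, Nr G n x y ↔ ∃ k, w k x = y := by
  induction n with
  | zero =>
    refine ⟨fun _ x => x, fun _ => measurable_id, fun x y => ?_⟩
    rw [Nr_zero]
    exact ⟨fun h => ⟨⟨0, by simp⟩, h⟩, fun ⟨_, h⟩ => h⟩
  | succ n ih =>
    obtain ⟨w, hw, hN⟩ := ih
    let e : Fin (4 ^ n) × Fin 4 ≃ Fin (4 ^ (n + 1)) :=
      finProdFinEquiv.trans (finCongr (pow_succ 4 n).symm)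
    let f : Fin (4 ^ n) × Fin 4 → X → X := fun q =>
      if h : (q.2 : ℕ) < 3 then fun x => w q.1 (t ⟨q.2, h⟩ x) else w q.1
    have hf1 : ∀ (k : Fin (4 ^ n)) (i : Fin 3) (x : X), f (k, i.castSucc) x = w k (t i x) := by
      intro k i x
      have h : ((i.castSucc : Fin 4) : ℕ) < 3 := i.2
      simp only [f]
      rw [dif_pos h]
      rfl
    have hf2 : ∀ (k : Fin (4 ^ n)) (x : X), f (k, Fin.last 3) x = w k x := by
      intro k x
      have h : ¬ ((Fin.last 3 : Fin 4) : ℕ) < 3 := by simp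
      simp only [f]
      rw [dif_neg h]
    refine ⟨fun j => f (e.symm j), fun j => ?_, fun x y => ?_⟩
    · simp only [f]
      split_ifs with h
      · exact (hw _).comp (ht _)
      · exact hw _
    · rw [Nr_succ]
      constructor
      · rintro (h | ⟨z, hz, h⟩)
        · obtain ⟨k, hk⟩ := (hN x y).1 h
          refine ⟨e (k, Fin.last 3), ?_⟩
          simp only [Equiv.symm_apply_apply]
          rw [hf2, hk]
        · obtain ⟨i, rfl⟩ := (hadj x z).1 hz
          obtain ⟨k, hk⟩ := (hN _ y).1 h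
          refine ⟨e (k, i.castSucc), ?_⟩
          simp only [Equiv.symm_apply_apply]
          rw [hf1, hk]
      · rintro ⟨j, hj⟩
        obtain ⟨⟨k, l⟩, rfl⟩ := e.surjective j
        simp only [Equiv.symm_apply_apply] at hj
        rcases Fin.eq_castSucc_or_eq_last l with ⟨i, rfl⟩ | rfl
        · rw [hf1] at hj
          exact Or.inr ⟨t i x, (hadj _ _).2 ⟨i, rfl⟩, (hN _ _).2 ⟨k, hj⟩⟩
        · rw [hf2] at hj
          exact Or.inl ((hN _ _).2 ⟨k, hj⟩)

theorem finite_Nr {G : SimpleGraph X} {t : Fin 3 → X → X}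
    (hadj : ∀ x y, G.Adj x y ↔ ∃ i, t i x = y) (n : ℕ) (x : X) :
    {y | Nr G n x y}.Finite ∧ {y | Nr G n x y}.ncard ≤ 4 ^ n := by
  let m : MeasurableSpace X := ⊤
  obtain ⟨w, -, hN⟩ := exists_words G t (fun i => measurable_from_top) hadj n
  have h : {y | Nr G n x y} = (fun k => w k x) '' Set.univ := by
    ext y
    rw [Set.image_univ, Set.mem_range]
    exact hN x y
  rw [h]
  refine ⟨Set.toFinite _, (Set.ncard_image_le (Set.toFinite _)).trans ?_⟩
  rw [Set.ncard_univ, Nat.card_eq_fintype_card, Fintype.card_fin]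

theorem measurableSet_Nr [MeasurableSpace X] [StandardBorelSpace X] (Γ : SimpleGraph X)
    (t : Fin 3 → X → X) (ht : ∀ i, Measurable (t i)) (E : Fin 3 → Set X)
    (hE : ∀ i, MeasurableSet (E i)) (hΓ : ∀ x y, Γ.Adj x y ↔ ∃ i, x ∈ E i ∧ t i x = y) (n : ℕ) :
    MeasurableSet {z : X × X | Nr Γ n z.1 z.2} := by
  induction n with
  | zero =>
    have h : {z : X × X | Nr Γ 0 z.1 z.2} = Set.diagonal X := by
      ext z
      rw [Set.mem_diagonal_iff]
      exact Nr_zero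
    rw [h]
    letI := upgradeStandardBorel X
    exact isClosed_diagonal.measurableSet
  | succ n ih =>
    have h : {z : X × X | Nr Γ (n + 1) z.1 z.2} = {z : X × X | Nr Γ n z.1 z.2} ∪
        ⋃ i, ((Prod.fst ⁻¹' (E i)) ∩
          ((fun z : X × X => (t i z.1, z.2)) ⁻¹' {z : X × X | Nr Γ n z.1 z.2})) := by
      ext z
      simp only [Set.mem_union, Set.mem_iUnion, Set.mem_inter_iff, Set.mem_preimage]
      change Nr Γ (n + 1) z.1 z.2 ↔ Nr Γ n z.1 z.2 ∨ ∃ i, z.1 ∈ E i ∧ Nr Γ n (t i z.1) z.2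
      rw [Nr_succ]
      refine or_congr Iff.rfl ?_
      constructor
      · rintro ⟨y, hy, h⟩
        obtain ⟨i, hi, rfl⟩ := (hΓ _ _).1 hy
        exact ⟨i, hi, h⟩
      · rintro ⟨i, hi, h⟩
        exact ⟨_, (hΓ _ _).2 ⟨i, hi, rfl⟩, h⟩
    rw [h]
    refine ih.union (MeasurableSet.iUnion fun i => ?_)
    exact (measurable_fst (hE i)).inter
      ((((ht i).comp measurable_fst).prodMk measurable_snd) ih)

end Pool.Agent.Helper75.MG
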