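import Pool.Agent.Helper75.MG.LabDefs
import Pool.Agent.Helper75.MG.TmG
import Pool.Agent.Helper75.MG.Words

/-!
# Project MG, piece F1: the labels form a homomorphism

Let `f = lab t κ src ch (B + 1)`.
(1) For `x ∈ X'` and `ρ x < n` we have `lab (n+1) x = lab n x` (induction on `n`; children of `x` have
    smaller `ρ`; a seed has the same value at all stages `≥ 1`). So `f x = stepF t κ src ch f x` on `X'`.
(2) Call `y` a successor of `x` if (`src x = none` and `y = t i x`, `i ∈ ch x`) or (`src x = some j`, `y = t j x`).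
    For `x ∈ X'`: if `y` is a successor of `x` then `x` is not a successor of `y`. (If `src x = none`, `y = t i x`:
    `ρ y < ρ x`; `x` successor of `y` with `src y = none` would give `ρ x < ρ y`; with `src y = some j`,
    `t j y = x`: `centre` for `y` says `ch x = [i']`, `t i' x ≠ y`, but `i ∈ ch x` gives `i = i'`, `t i x = y`.
    If `src x = some j`, `y = t j x`: `src y = none`, `ch y = [i]`, `t i y ≠ x`.)
    So every successor walk `a 0 = x, a 1, ..., a n` (each a successor of the one before) starting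
    in `X'` stays in `X'` and is non-backtracking: `a i ≠ a (i+2)`.
(3) Every `k ∈ supp (f x)`, `x ∈ X'`, is `κ z` for the end `z` of a successor walk from `x` of length at most
    `ρ x + 1` (induction on `ρ x`: a seed: length 1, `z = t j x`; `gen (κ x)`: length 0; a child: one more).
(4) If `x ∈ X'`, `src x = none`, `i ≠ j` in `ch x`, then `supp (f (t i x))` and `supp (f (t j x))` are disjoint:
    a common `k` gives successor walks `p` from `t i x` to `z` and `q` from `t j x` to `z'`, of length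
    `≤ B`, with `κ z = κ z'`. `Nr G (2B+2) z z'`, so `z = z'`. Then `p` reversed, `x`, `q` is a closed
    non-backtracking walk from `z` to `z` (at `x` because `t i x ≠ t j x` (`tinj`); next to `x` because
    `x` is not a successor of its successors) of length between 2 and `2B+2`: contradiction with `Sep`.
    Similarly `κ x` is not in `supp (f (t i x))` for `i ∈ ch x`: the walk `x, t i x, ..., z` with `z = x` is closed.
(5) Edges: by `cover`, for `x ∈ X'` and `y = t i x`: `y` is a child of `x`, or `x` a child of `y` (then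
    `f x = mk (f y) _` or so with disjoint supports, `edge_mk`; `ch x` is `[i]`, `[i, j]` or `[j, i]` by `len`, `nodup`), or
    `src x = some i` (then `f x = gen (κ y)`, `src y = none`, `ch y = [j]`, `f y = mk (f (t j y)) (gen (κ y))`), or the
    same with `x`, `y` exchanged.
-/

namespace Pool.Agent.Helper75.MG

open MeasureTheory Tm

variable {X : Type} {N : ℕ}

private theorem LabHom_stepF_congr {t : Fin 3 → X → X} {κ : X → Fin N} {src : X → Option (Fin 3)}
    {ch : X → List (Fin 3)} {f g : X → Tm N} {x : X}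
    (h : src x = none → ∀ i ∈ ch x, f (t i x) = g (t i x)) :
    stepF t κ src ch f x = stepF t κ src ch g x := by
  unfold stepF
  rcases hs : src x with _ | j
  · have h := h hs
    rcases hc : ch x with _ | ⟨i, _ | ⟨j, l⟩⟩
    · rfl
    · rw [hc] at h
      simp only
      rw [h i (by simp)]
    · rw [hc] at h
      simp only
      rw [h i (by simp), h j (by simp)]
  · rfl

private theorem LabHom_stab {t : Fin 3 → X → X} {X' : Set X} (hX' : ∀ x ∈ X', ∀ i, t i x ∈ X')
    {B : ℕ} {κ : X → Fin N} {src : X → Option (Fin 3)} {ch : X → List (Fin 3)} {ρ : X → ℕ}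
    (hP : Plan t X' B src ch ρ) (n : ℕ) :
    ∀ x ∈ X', ρ x < n → lab t κ src ch (n + 1) x = lab t κ src ch n x := by
  induction n with
  | zero => intro x _ h; omega
  | succ n ih =>
    intro x hx hn
    change stepF t κ src ch (lab t κ src ch (n + 1)) x = stepF t κ src ch (lab t κ src ch n) x
    refine LabHom_stepF_congr fun hs i hi => ?_
    have hlt := hP.lt x hx hs i hi
    exact ih _ (hX' x hx i) (by omega)

private theorem LabHom_fix {t : Fin 3 → X → X} {X' : Set X} (hX' : ∀ x ∈ X', ∀ i, t i x ∈ X')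
    {B : ℕ} {κ : X → Fin N} {src : X → Option (Fin 3)} {ch : X → List (Fin 3)} {ρ : X → ℕ}
    (hP : Plan t X' B src ch ρ) {x : X} (hx : x ∈ X') :
    lab t κ src ch (B + 1) x = stepF t κ src ch (lab t κ src ch (B + 1)) x := by
  have h := LabHom_stab (κ := κ) hX' hP (B + 1) x hx (by have := hP.le x hx; omega)
  exact h.symm

/-- `y` is a successor of `x` -/
private def LabHomSc (t : Fin 3 → X → X) (src : X → Option (Fin 3)) (ch : X → List (Fin 3))
    (x y : X) : Prop :=
  (src x = none ∧ ∃ i ∈ ch x, t i x = y) ∨ ∃ j, src x = some j ∧ t j x = y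

private theorem LabHomSc.eq {t : Fin 3 → X → X} {src : X → Option (Fin 3)} {ch : X → List (Fin 3)}
    {x y : X} (h : LabHomSc t src ch x y) : ∃ i, t i x = y := by
  rcases h with ⟨-, i, -, h⟩ | ⟨j, -, h⟩
  · exact ⟨i, h⟩
  · exact ⟨j, h⟩

private theorem LabHom_no_back {t : Fin 3 → X → X} {X' : Set X}
    (hX' : ∀ x ∈ X', ∀ i, t i x ∈ X') {B : ℕ} {src : X → Option (Fin 3)}
    {ch : X → List (Fin 3)} {ρ : X → ℕ} (hP : Plan t X' B src ch ρ) {x y : X} (hx : x ∈ X')
    (h : LabHomSc t src ch x y) (h' : LabHomSc t src ch y x) : False := by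
  rcases h with ⟨hs, i, hi, rfl⟩ | ⟨j, hs, rfl⟩
  · have hy := hX' x hx i
    rcases h' with ⟨hs', j, hj, hxy⟩ | ⟨j, hs', hxy⟩
    · have h1 := hP.lt x hx hs i hi
      have h2 := hP.lt _ hy hs' j hj
      rw [hxy] at h2
      omega
    · obtain ⟨-, i', hc, hne⟩ := hP.centre _ hy j hs'
      rw [hxy] at hc hne
      rw [hc, List.mem_singleton] at hi
      subst hi
      exact hne rfl
  · obtain ⟨hs', i, hc, hne⟩ := hP.centre x hx j hs
    rcases h' with ⟨-, j', hj', hxy⟩ | ⟨j', hs'', hxy⟩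
    · rw [hc, List.mem_singleton] at hj'
      subst hj'
      exact hne hxy
    · rw [hs'] at hs''
      exact absurd hs'' (by simp)

private theorem LabHom_mem {t : Fin 3 → X → X} {X' : Set X}
    (hX' : ∀ x ∈ X', ∀ i, t i x ∈ X') {src : X → Option (Fin 3)} {ch : X → List (Fin 3)}
    {a : ℕ → X} {n : ℕ} (h0 : a 0 ∈ X') (ha : ∀ i < n, LabHomSc t src ch (a i) (a (i + 1))) :
    ∀ i ≤ n, a i ∈ X' := by
  intro i
  induction i with
  | zero => intro _; exact h0
  | succ i ih =>
    intro hi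
    obtain ⟨j, hj⟩ := (ha i (by omega)).eq
    rw [← hj]
    exact hX' _ (ih (by omega)) j

private theorem LabHom_nb {t : Fin 3 → X → X} {X' : Set X}
    (hX' : ∀ x ∈ X', ∀ i, t i x ∈ X') {B : ℕ} {src : X → Option (Fin 3)}
    {ch : X → List (Fin 3)} {ρ : X → ℕ} (hP : Plan t X' B src ch ρ)
    {a : ℕ → X} {n : ℕ} (h0 : a 0 ∈ X') (ha : ∀ i < n, LabHomSc t src ch (a i) (a (i + 1)))
    (i : ℕ) (hi : i + 2 ≤ n) : a i ≠ a (i + 2) := by
  intro he
  have h1 := ha i (by omega)
  have h2 := ha (i + 1) (by omega)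
  rw [show i + 1 + 1 = i + 2 from rfl, ← he] at h2
  exact LabHom_no_back hX' hP (LabHom_mem hX' h0 ha i (by omega)) h1 h2

private theorem LabHom_Nr {G : SimpleGraph X} {a : ℕ → X} (n : ℕ)
    (ha : ∀ i < n, G.Adj (a i) (a (i + 1))) : Nr G n (a 0) (a n) := by
  induction n with
  | zero => exact Nr.refl 0 _
  | succ n ih => exact (ih fun i hi => ha i (by omega)).trans (Nr.of_adj (ha n (by omega)))

/-- two successor walks from the same point which leave it in different directions have ends of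
different colours -/
private theorem LabHom_key {G : SimpleGraph X} {t : Fin 3 → X → X}
    (hadj : ∀ x y, G.Adj x y ↔ ∃ i, t i x = y)
    {X' : Set X} (hX' : ∀ x ∈ X', ∀ i, t i x ∈ X') {B : ℕ} (hsep : Sep G (2 * B + 4))
    {κ : X → Fin N} (hκ : ∀ x y, x ≠ y → Nr G (2 * B + 4) x y → κ x ≠ κ y)
    {src : X → Option (Fin 3)} {ch : X → List (Fin 3)} {ρ : X → ℕ}
    (hP : Plan t X' B src ch ρ) {P Q : ℕ → X} (hPQ : P 0 = Q 0) (h0 : P 0 ∈ X') {m n : ℕ}
    (hm : m ≤ B + 1) (hn : n ≤ B + 1) (hmn : 1 ≤ m + n)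
    (hp : ∀ i < m, LabHomSc t src ch (P i) (P (i + 1)))
    (hq : ∀ i < n, LabHomSc t src ch (Q i) (Q (i + 1)))
    (h1 : 1 ≤ m → 1 ≤ n → P 1 ≠ Q 1) : κ (P m) ≠ κ (Q n) := by
  have h0' : Q 0 ∈ X' := hPQ ▸ h0
  set c : ℕ → X := fun k => if k ≤ m then P (m - k) else Q (k - m) with hc
  have c1 : ∀ k ≤ m, c k = P (m - k) := fun k hk => by simp only [hc]; rw [if_pos hk]
  have c2 : ∀ k, m ≤ k → c k = Q (k - m) := fun k hk => by
    rcases Nat.lt_or_ge m k with h | h
    · simp only [hc]; rw [if_neg (by omega)]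
    · have hk' : k = m := le_antisymm h hk
      subst hk'
      rw [c1 k le_rfl, Nat.sub_self, hPQ]
  have hadjc : ∀ k < m + n, G.Adj (c k) (c (k + 1)) := by
    intro k hk
    rcases Nat.lt_or_ge k m with h | h
    · rw [c1 k h.le, c1 (k + 1) h]
      obtain ⟨j, hj⟩ := (hp (m - (k + 1)) (by omega)).eq
      rw [show m - (k + 1) + 1 = m - k by omega] at hj
      exact ((hadj _ _).2 ⟨j, hj⟩).symm
    · rw [c2 k h, c2 (k + 1) (by omega)]
      obtain ⟨j, hj⟩ := (hq (k - m) (by omega)).eq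
      rw [show k + 1 - m = k - m + 1 by omega]
      exact (hadj _ _).2 ⟨j, hj⟩
  have e0 : c 0 = P m := by rw [c1 0 (Nat.zero_le _), Nat.sub_zero]
  have e1 : c (m + n) = Q n := by rw [c2 (m + n) (by omega), Nat.add_sub_cancel_left]
  have hNr : Nr G (2 * B + 4) (P m) (Q n) := by
    rw [← e0, ← e1]
    exact (LabHom_Nr (m + n) hadjc).mono (by omega)
  refine hκ _ _ ?_ hNr
  rw [← e0, ← e1]
  refine hsep (m + n) c hmn (by omega) hadjc fun k hk => ?_
  rcases Nat.lt_or_ge m (k + 2) with h | h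
  · rcases Nat.lt_or_ge k m with h' | h'
    · have hkm : m = k + 1 := by omega
      rw [c1 k (by omega), c2 (k + 2) (by omega), show m - k = 1 by omega,
        show k + 2 - m = 1 by omega]
      exact h1 (by omega) (by omega)
    · rw [c2 k h', c2 (k + 2) (by omega), show k + 2 - m = k - m + 2 by omega]
      exact LabHom_nb hX' hP h0' hq (k - m) (by omega)
  · rw [c1 k (by omega), c1 (k + 2) h]
    have h2 := LabHom_nb hX' hP h0 hp (m - (k + 2)) (by omega)
    rw [show m - (k + 2) + 2 = m - k by omega] at h2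
    exact h2.symm

private theorem LabHom_supp_step {t : Fin 3 → X → X} {κ : X → Fin N}
    {src : X → Option (Fin 3)} {ch : X → List (Fin 3)} {f : X → Tm N} {x : X}
    (hs : src x = none) {k : Fin N} (hk : k ∈ (stepF t κ src ch f x).supp) :
    k = κ x ∨ ∃ i ∈ ch x, k ∈ (f (t i x)).supp := by
  unfold stepF at hk
  rw [hs] at hk
  rcases hc : ch x with _ | ⟨i, _ | ⟨j, l⟩⟩
  · rw [hc] at hk
    left
    simpa [supp] using hk
  · rw [hc] at hk
    simp only at hk
    rw [supp_mk, Finset.mem_union] at hk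
    rcases hk with hk | hk
    · exact Or.inr ⟨i, by simp, hk⟩
    · left
      simpa [supp] using hk
  · rw [hc] at hk
    simp only at hk
    rw [supp_mk, Finset.mem_union] at hk
    rcases hk with hk | hk
    · exact Or.inr ⟨i, by simp, hk⟩
    · exact Or.inr ⟨j, by simp, hk⟩

/-- prepend a point to a sequence -/
private def LabHom_cons (x : X) (a : ℕ → X) : ℕ → X
  | 0 => x
  | n + 1 => a n

private theorem LabHom_walk {t : Fin 3 → X → X} {X' : Set X} (hX' : ∀ x ∈ X', ∀ i, t i x ∈ X')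
    {B : ℕ} {κ : X → Fin N} {src : X → Option (Fin 3)} {ch : X → List (Fin 3)} {ρ : X → ℕ}
    (hP : Plan t X' B src ch ρ) (r : ℕ) : ∀ x ∈ X', ρ x = r → ∀ k ∈
      (lab t κ src ch (B + 1) x).supp, ∃ n ≤ r + 1, ∃ a : ℕ → X, a 0 = x ∧
        (∀ i < n, LabHomSc t src ch (a i) (a (i + 1))) ∧ κ (a n) = k := by
  induction r using Nat.strong_induction_on with
  | _ r ih =>
    intro x hx hr k hk
    rw [LabHom_fix hX' hP hx] at hk
    rcases hs : src x with _ | j
    · rcases LabHom_supp_step hs hk with rfl | ⟨i, hi, hk⟩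
      · exact ⟨0, by omega, fun _ => x, rfl, fun i hi => absurd hi (by omega), rfl⟩
      · have hlt := hP.lt x hx hs i hi
        obtain ⟨n, hn, a, ha0, ha, hk⟩ := ih (ρ (t i x)) (by omega) _ (hX' x hx i) rfl k hk
        refine ⟨n + 1, by omega, LabHom_cons x a, rfl, ?_, hk⟩
        rintro (_ | l) hl
        · exact Or.inl ⟨hs, i, hi, ha0.symm⟩
        · exact ha l (by omega)
    · unfold stepF at hk
      rw [hs] at hk
      have hk' : k = κ (t j x) := by simpa [supp] using hk
      refine ⟨1, by omega, LabHom_cons x fun _ => t j x, rfl, ?_, hk'.symm⟩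
      rintro (_ | l) hl
      · exact Or.inr ⟨j, hs, rfl⟩
      · omega

/-- a child of `x` gives a successor walk from `x` -/
private theorem LabHom_child {t : Fin 3 → X → X} {X' : Set X} (hX' : ∀ x ∈ X', ∀ i, t i x ∈ X')
    {B : ℕ} {κ : X → Fin N} {src : X → Option (Fin 3)} {ch : X → List (Fin 3)} {ρ : X → ℕ}
    (hP : Plan t X' B src ch ρ) {x : X} (hx : x ∈ X') (hs : src x = none) {i : Fin 3}
    (hi : i ∈ ch x) {k : Fin N} (hk : k ∈ (lab t κ src ch (B + 1) (t i x)).supp) :
    ∃ n ≤ B + 1, 1 ≤ n ∧ ∃ a : ℕ → X, a 0 = x ∧ a 1 = t i x ∧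
      (∀ i < n, LabHomSc t src ch (a i) (a (i + 1))) ∧ κ (a n) = k := by
  obtain ⟨n, hn, a, ha0, ha, hk⟩ := LabHom_walk hX' hP _ _ (hX' x hx i) rfl k hk
  have hlt := hP.lt x hx hs i hi
  have hle := hP.le x hx
  refine ⟨n + 1, by omega, by omega, LabHom_cons x a, rfl, ha0, ?_, hk⟩
  rintro (_ | l) hl
  · exact Or.inl ⟨hs, i, hi, ha0.symm⟩
  · exact ha l (by omega)

private theorem LabHom_disj_self {G : SimpleGraph X} {t : Fin 3 → X → X}
    (hadj : ∀ x y, G.Adj x y ↔ ∃ i, t i x = y)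
    {X' : Set X} (hX' : ∀ x ∈ X', ∀ i, t i x ∈ X') {B : ℕ} (hsep : Sep G (2 * B + 4))
    {κ : X → Fin N} (hκ : ∀ x y, x ≠ y → Nr G (2 * B + 4) x y → κ x ≠ κ y)
    {src : X → Option (Fin 3)} {ch : X → List (Fin 3)} {ρ : X → ℕ}
    (hP : Plan t X' B src ch ρ) {x : X} (hx : x ∈ X') (hs : src x = none) {i : Fin 3}
    (hi : i ∈ ch x) :
    Disjoint (lab t κ src ch (B + 1) (t i x)).supp (Tm.gen (κ x)).supp := by
  rw [Finset.disjoint_left]
  intro k hk hk'
  have hk2 : k = κ x := by simpa [supp] using hk'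
  obtain ⟨n, hn, hn1, a, ha0, -, ha, hk⟩ := LabHom_child hX' hP hx hs hi hk
  refine LabHom_key hadj hX' hsep hκ hP (P := a) (Q := fun _ => x) ha0 (ha0 ▸ hx) (n := 0) hn
    (by omega) (by omega) ha (fun i hi => absurd hi (by omega)) (fun _ h => absurd h (by omega)) ?_
  rw [hk, hk2]

private theorem LabHom_disj {G : SimpleGraph X} {t : Fin 3 → X → X}
    (hadj : ∀ x y, G.Adj x y ↔ ∃ i, t i x = y) (tinj : ∀ x i j, t i x = t j x → i = j)
    {X' : Set X} (hX' : ∀ x ∈ X', ∀ i, t i x ∈ X') {B : ℕ} (hsep : Sep G (2 * B + 4))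
    {κ : X → Fin N} (hκ : ∀ x y, x ≠ y → Nr G (2 * B + 4) x y → κ x ≠ κ y)
    {src : X → Option (Fin 3)} {ch : X → List (Fin 3)} {ρ : X → ℕ}
    (hP : Plan t X' B src ch ρ) {x : X} (hx : x ∈ X') (hs : src x = none) {i j : Fin 3}
    (hij : i ≠ j) (hi : i ∈ ch x) (hj : j ∈ ch x) :
    Disjoint (lab t κ src ch (B + 1) (t i x)).supp (lab t κ src ch (B + 1) (t j x)).supp := by
  rw [Finset.disjoint_left]
  intro k hk hk'
  obtain ⟨m, hm, hm1, a, ha0, ha1, ha, hka⟩ := LabHom_child hX' hP hx hs hi hk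
  obtain ⟨n, hn, hn1, b, hb0, hb1, hb, hkb⟩ := LabHom_child hX' hP hx hs hj hk'
  refine LabHom_key hadj hX' hsep hκ hP (P := a) (Q := b) (ha0.trans hb0.symm) (ha0 ▸ hx) hm hn
    (by omega) ha hb (fun _ _ he => hij (tinj x i j ?_)) (hka.trans hkb.symm)
  rw [← ha1, ← hb1, he]

private theorem LabHom_child_edge {G : SimpleGraph X} {t : Fin 3 → X → X}
    (hadj : ∀ x y, G.Adj x y ↔ ∃ i, t i x = y) (tinj : ∀ x i j, t i x = t j x → i = j)
    {X' : Set X} (hX' : ∀ x ∈ X', ∀ i, t i x ∈ X') {B : ℕ} (hsep : Sep G (2 * B + 4))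
    {κ : X → Fin N} (hκ : ∀ x y, x ≠ y → Nr G (2 * B + 4) x y → κ x ≠ κ y)
    {src : X → Option (Fin 3)} {ch : X → List (Fin 3)} {ρ : X → ℕ}
    (hP : Plan t X' B src ch ρ) {x : X} (hx : x ∈ X') (hs : src x = none) {i : Fin 3}
    (hi : i ∈ ch x) :
    Edge (lab t κ src ch (B + 1) (t i x)) (lab t κ src ch (B + 1) x) := by
  have hfix := LabHom_fix (κ := κ) hX' hP hx
  unfold stepF at hfix
  rw [hs] at hfix
  have hself := fun (i : Fin 3) (hi : i ∈ ch x) => LabHom_disj_self hadj hX' hsep hκ hP hx hs hi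
  have hdisj := fun (i j : Fin 3) (hij : i ≠ j) (hi : i ∈ ch x) (hj : j ∈ ch x) =>
    LabHom_disj hadj tinj hX' hsep hκ hP hx hs hij hi hj
  have hnd := hP.nodup x hx hs
  have hlen := hP.len x hx hs
  rcases hc : ch x with _ | ⟨i1, _ | ⟨i2, l⟩⟩
  · rw [hc] at hi
    exact absurd hi (by simp)
  · rw [hc] at hfix hself hi
    simp only at hfix
    rw [hfix]
    rw [List.mem_singleton] at hi
    subst hi
    exact (edge_mk (hself i (by simp))).1
  · rw [hc] at hfix hdisj hi hnd hlen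
    have hl : l = [] := by
      rcases l with _ | ⟨i3, l⟩
      · rfl
      · simp only [List.length_cons] at hlen
        omega
    subst hl
    simp only at hfix
    rw [hfix]
    have hne : i1 ≠ i2 := by
      rintro rfl
      simp at hnd
    have hd := hdisj i1 i2 hne (by simp) (by simp)
    rw [List.mem_cons, List.mem_singleton] at hi
    rcases hi with rfl | rfl
    · exact (edge_mk hd).1
    · exact (edge_mk hd).2

private theorem LabHom_seed_edge {G : SimpleGraph X} {t : Fin 3 → X → X}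
    (hadj : ∀ x y, G.Adj x y ↔ ∃ i, t i x = y)
    {X' : Set X} (hX' : ∀ x ∈ X', ∀ i, t i x ∈ X') {B : ℕ} (hsep : Sep G (2 * B + 4))
    {κ : X → Fin N} (hκ : ∀ x y, x ≠ y → Nr G (2 * B + 4) x y → κ x ≠ κ y)
    {src : X → Option (Fin 3)} {ch : X → List (Fin 3)} {ρ : X → ℕ}
    (hP : Plan t X' B src ch ρ) {x : X} (hx : x ∈ X') {j : Fin 3} (hs : src x = some j) :
    Edge (lab t κ src ch (B + 1) x) (lab t κ src ch (B + 1) (t j x)) := by
  obtain ⟨hs', i, hc, -⟩ := hP.centre x hx j hs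
  have hx' := hX' x hx j
  have hfix := LabHom_fix (κ := κ) hX' hP hx
  have hfix' := LabHom_fix (κ := κ) hX' hP hx'
  unfold stepF at hfix hfix'
  rw [hs] at hfix
  rw [hs', hc] at hfix'
  simp only at hfix hfix'
  rw [hfix, hfix']
  exact (edge_mk (LabHom_disj_self hadj hX' hsep hκ hP hx' hs' (by rw [hc]; simp))).2

theorem lab_hom {G : SimpleGraph X} {t : Fin 3 → X → X}
    (hadj : ∀ x y, G.Adj x y ↔ ∃ i, t i x = y) (tinj : ∀ x i j, t i x = t j x → i = j)
    {X' : Set X} (hX' : ∀ x ∈ X', ∀ i, t i x ∈ X') {B : ℕ} (hsep : Sep G (2 * B + 4))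
    {κ : X → Fin N} (hκ : ∀ x y, x ≠ y → Nr G (2 * B + 4) x y → κ x ≠ κ y)
    {src : X → Option (Fin 3)} {ch : X → List (Fin 3)} {ρ : X → ℕ}
    (hP : Plan t X' B src ch ρ) (x : X) (hx : x ∈ X') (i : Fin 3) :
    Edge (lab t κ src ch (B + 1) x) (lab t κ src ch (B + 1) (t i x)) ∨
      Edge (lab t κ src ch (B + 1) (t i x)) (lab t κ src ch (B + 1) x) := by
  rcases hP.cover x hx i with ⟨hs, hi⟩ | ⟨hs, j, hj, hxy⟩ | hs | ⟨j, hs, hxy⟩
  · exact Or.inr (LabHom_child_edge hadj tinj hX' hsep hκ hP hx hs hi)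
  · left
    have h := LabHom_child_edge hadj tinj hX' hsep hκ hP (hX' x hx i) hs hj
    rwa [hxy] at h
  · exact Or.inl (LabHom_seed_edge hadj hX' hsep hκ hP hx hs)
  · right
    have h := LabHom_seed_edge hadj hX' hsep hκ hP (hX' x hx i) hs
    rwa [hxy] at h

end Pool.Agent.Helper75.MG
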