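import Pool.Agent.Helper75.MG.LabDefs
import Pool.Agent.Helper75.MG.TmG

/-!
# Project MG, piece F2: depth and measurability of the labels

`lab_depth`: `depth_mk`, induction on `n`.

`measurable_lab`: `Tm N` is countable (by `finite_tm`); `{x | mk (F x) (F' x) = v}` is the countable union
over the pairs `(a, b)` with `mk a b = v` of `{F = a} ∩ {F' = b}`, and `stepF` is a case distinction over the
countably many values of `src x`, `ch x`. (`{x | κ (t j x) = k}` is the preimage of `{x | κ x = k}` under `t j`.)
-/

namespace Pool.Agent.Helper75.MG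

open MeasureTheory Tm

variable {X : Type} {N : ℕ}

theorem lab_depth (t : Fin 3 → X → X) (κ : X → Fin N) (src : X → Option (Fin 3))
    (ch : X → List (Fin 3)) (n : ℕ) (x : X) : (lab t κ src ch n x).depth ≤ n := by
  induction n generalizing x with
  | zero => exact le_of_eq rfl
  | succ n ih =>
    show (stepF t κ src ch (lab t κ src ch n) x).depth ≤ n + 1
    unfold stepF
    cases src x with
    | some j => exact Nat.zero_le _
    | none =>
      rcases ch x with _ | ⟨i, _ | ⟨j, l⟩⟩
      · exact Nat.zero_le _
      · show (Tm.mk (lab t κ src ch n (t i x)) (Tm.gen (κ x))).depth ≤ n + 1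
        rw [depth_mk]
        exact Nat.succ_le_succ (max_le (ih _) (Nat.zero_le _))
      · show (Tm.mk (lab t κ src ch n (t i x)) (lab t κ src ch n (t j x))).depth ≤ n + 1
        rw [depth_mk]
        exact Nat.succ_le_succ (max_le (ih _) (ih _))

private theorem LabMeas_countable (N : ℕ) : Countable (Tm N) := by
  rw [← Set.countable_univ_iff]
  have h : (Set.univ : Set (Tm N)) = ⋃ d : ℕ, {t | t.depth ≤ d} := by
    ext t
    simp only [Set.mem_univ, Set.mem_iUnion, true_iff]
    exact ⟨t.depth, le_refl t.depth⟩
  rw [h]
  refine Set.countable_iUnion fun d => ?_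
  have h2 : Finite ({t | t.depth ≤ d} : Set (Tm N)) := finite_tm N d
  exact Set.Finite.countable (Set.toFinite _)

/-- the label step as a function of finitely many discrete data -/
private def LabMeas_H (N : ℕ) :
    Option (Fin 3) × List (Fin 3) × Fin N × (Fin 3 → Fin N) × (Fin 3 → Tm N) → Tm N :=
  fun p => match p.1 with
    | some j => Tm.gen (p.2.2.2.1 j)
    | none => match p.2.1 with
      | [] => Tm.gen p.2.2.1
      | [i] => Tm.mk (p.2.2.2.2 i) (Tm.gen p.2.2.1)
      | i :: j :: _ => Tm.mk (p.2.2.2.2 i) (p.2.2.2.2 j)

theorem measurable_lab [MeasurableSpace X] {t : Fin 3 → X → X} (ht : ∀ i, Measurable (t i))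
    {κ : X → Fin N} (hκ : ∀ k, MeasurableSet {x | κ x = k})
    {src : X → Option (Fin 3)} (hsrc : ∀ o, MeasurableSet {x | src x = o})
    {ch : X → List (Fin 3)} (hch : ∀ l, MeasurableSet {x | ch x = l}) (n : ℕ) (v : Tm N) :
    MeasurableSet {x | lab t κ src ch n x = v} := by
  have hcount : Countable (Tm N) := LabMeas_countable N
  let _ : MeasurableSpace (Tm N) := ⊤
  let _ : MeasurableSpace (Option (Fin 3)) := ⊤
  let _ : MeasurableSpace (List (Fin 3)) := ⊤
  have : DiscreteMeasurableSpace (Tm N) := ⟨fun _ => trivial⟩
  have : DiscreteMeasurableSpace (Option (Fin 3)) := ⟨fun _ => trivial⟩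
  have : DiscreteMeasurableSpace (List (Fin 3)) := ⟨fun _ => trivial⟩
  have hκ' : Measurable κ := measurable_to_countable' hκ
  have hsrc' : Measurable src := measurable_to_countable' hsrc
  have hch' : Measurable ch := measurable_to_countable' hch
  have main : ∀ n, Measurable (lab t κ src ch n) := by
    intro n
    induction n with
    | zero => exact (Measurable.of_discrete (f := (Tm.gen : Fin N → Tm N))).comp hκ'
    | succ n ih =>
      have hH : Measurable (LabMeas_H N) := Measurable.of_discrete
      have h := hH.comp (hsrc'.prodMk (hch'.prodMk (hκ'.prodMk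
        ((measurable_pi_iff.2 fun j => hκ'.comp (ht j)).prodMk
          (measurable_pi_iff.2 fun j => ih.comp (ht j))))))
      exact h
  exact main n (measurableSet_singleton v)

end Pool.Agent.Helper75.MG
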