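import Pool.Agent.Helper75.MG.GeoMeas
import Pool.Agent.Helper75.MG.LabDefs

/-!
# Project MG, piece E3: from directions to a plan

Seeds: `S = {z | ∃ i, t i z ∈ C ∧ t (dir (t i z)) (t i z) ≠ z}`; `src z` = the (least) such `i`.
Layers: `D 0 = C`, `D (n+1) = D n ∪ {x ∉ S | ∃ i, t i x ∈ D n}`; `R = R0 + 2`.
-/

namespace Pool.Agent.Helper75.MG

open MeasureTheory

variable {X : Type}

/-- `z` is a seed of the centre `t i z` -/
def Sd (t : Fin 3 → X → X) (C : Set X) (dir : X → Fin 3) (i : Fin 3) : Set X :=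
  {z | t i z ∈ C ∧ t (dir (t i z)) (t i z) ≠ z}

open Classical in
/-- the centre index of a seed -/
noncomputable def srcF (t : Fin 3 → X → X) (C : Set X) (dir : X → Fin 3) (z : X) :
    Option (Fin 3) :=
  if z ∈ Sd t C dir 0 then some 0 else if z ∈ Sd t C dir 1 then some 1 else
    if z ∈ Sd t C dir 2 then some 2 else none

/-- the layers -/
def Lay (t : Fin 3 → X → X) (C : Set X) (dir : X → Fin 3) : ℕ → Set X
  | 0 => C
  | n + 1 => Lay t C dir n ∪ {x | srcF t C dir x = none ∧ ∃ i, t i x ∈ Lay t C dir n}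

open Classical in
/-- the number of layers among the first `R` containing `x` -/
noncomputable def cnt (t : Fin 3 → X → X) (C : Set X) (dir : X → Fin 3) (R : ℕ) (x : X) : ℕ :=
  ∑ n ∈ Finset.range R, if x ∈ Lay t C dir n then 1 else 0

/-- the rank -/
noncomputable def rk (t : Fin 3 → X → X) (C : Set X) (dir : X → Fin 3) (R K : ℕ)
    (c₁ : X → Fin K) (x : X) : ℕ :=
  if srcF t C dir x = none then 1 + cnt t C dir R x * K + c₁ x else 0

open Classical in
/-- the children -/
noncomputable def chF (t : Fin 3 → X → X) (C : Set X) (dir : X → Fin 3) (R K : ℕ)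
    (c₁ : X → Fin K) (x : X) : List (Fin 3) :=
  if x ∈ C then [dir x] else
    (List.finRange 3).filter (fun i => decide (rk t C dir R K c₁ (t i x) < rk t C dir R K c₁ x))

variable {t : Fin 3 → X → X} {C : Set X} {dir : X → Fin 3}

lemma srcF_none {x : X} : srcF t C dir x = none ↔ ∀ i, x ∉ Sd t C dir i := by
  unfold srcF
  rw [Fin.forall_fin_succ, Fin.forall_fin_succ, Fin.forall_fin_succ]
  split_ifs with h0 h1 h2 <;> simp_all

lemma srcF_some {x : X} {i : Fin 3} (h : srcF t C dir x = some i) : x ∈ Sd t C dir i := by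
  unfold srcF at h
  split_ifs at h with h0 h1 h2
  · rw [← Option.some.inj h]; exact h0
  · rw [← Option.some.inj h]; exact h1
  · rw [← Option.some.inj h]; exact h2

lemma Lay_mono {m n : ℕ} (h : m ≤ n) : Lay t C dir m ⊆ Lay t C dir n := by
  induction n, h using Nat.le_induction with
  | base => exact subset_rfl
  | succ n _ ih => exact ih.trans Set.subset_union_left

lemma cnt_ge {R m : ℕ} {x : X} (h : x ∈ Lay t C dir m) : R - m ≤ cnt t C dir R x := by
  classical
  unfold cnt
  rw [← Finset.sum_filter, Finset.sum_const, smul_eq_mul, mul_one]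
  have hsub : Finset.Ico m R ⊆ (Finset.range R).filter (fun n => x ∈ Lay t C dir n) := by
    intro n hn
    rw [Finset.mem_Ico] at hn
    rw [Finset.mem_filter, Finset.mem_range]
    exact ⟨hn.2, Lay_mono hn.1 h⟩
  have := Finset.card_le_card hsub
  rwa [Nat.card_Ico] at this

lemma cnt_le {R m : ℕ} {x : X} (h : x ∉ Lay t C dir m) : cnt t C dir R x ≤ R - (m + 1) := by
  classical
  unfold cnt
  rw [← Finset.sum_filter, Finset.sum_const, smul_eq_mul, mul_one]
  have hsub : (Finset.range R).filter (fun n => x ∈ Lay t C dir n) ⊆ Finset.Ico (m + 1) R := by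
    intro n hn
    rw [Finset.mem_filter, Finset.mem_range] at hn
    rw [Finset.mem_Ico]
    refine ⟨?_, hn.1⟩
    by_contra hlt
    exact h (Lay_mono (by omega) hn.2)
  have := Finset.card_le_card hsub
  rwa [Nat.card_Ico] at this

lemma cnt_le_R {R : ℕ} {x : X} : cnt t C dir R x ≤ R := by
  classical
  unfold cnt
  calc _ ≤ ∑ n ∈ Finset.range R, 1 := Finset.sum_le_sum (fun n _ => by split_ifs <;> omega)
    _ = R := by simp

lemma rk_lt_of_cnt {R K : ℕ} {c₁ : X → Fin K} {x y : X} (hx : srcF t C dir x = none)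
    (hy : srcF t C dir y = none) (h : cnt t C dir R y < cnt t C dir R x) :
    rk t C dir R K c₁ y < rk t C dir R K c₁ x := by
  unfold rk
  rw [if_pos hx, if_pos hy]
  have h1 : (cnt t C dir R y + 1) * K ≤ cnt t C dir R x * K := Nat.mul_le_mul_right _ h
  have h2 := (c₁ y).2
  rw [Nat.add_mul, one_mul] at h1
  omega

lemma rk_seed {R K : ℕ} {c₁ : X → Fin K} {x y : X} {j : Fin 3} (hx : srcF t C dir x = none)
    (hy : srcF t C dir y = some j) : rk t C dir R K c₁ y < rk t C dir R K c₁ x := by
  unfold rk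
  rw [if_pos hx, if_neg (by rw [hy]; simp)]
  omega

lemma rk_lt_or {R K : ℕ} {c₁ : X → Fin K} {x y : X} (hx : srcF t C dir x = none)
    (hy : srcF t C dir y = none) (hc : c₁ x ≠ c₁ y) :
    rk t C dir R K c₁ y < rk t C dir R K c₁ x ∨ rk t C dir R K c₁ x < rk t C dir R K c₁ y := by
  rcases lt_trichotomy (cnt t C dir R y) (cnt t C dir R x) with h | h | h
  · exact Or.inl (rk_lt_of_cnt hx hy h)
  · unfold rk
    rw [if_pos hx, if_pos hy, h]
    have : (c₁ x : ℕ) ≠ c₁ y := fun e => hc (Fin.ext e)
    omega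
  · exact Or.inr (rk_lt_of_cnt hy hx h)

section geom

variable {G : SimpleGraph X}

lemma site_unique (hC : Sites G C) {c c' : X} (hc : c ∈ C) (hc' : c' ∈ C) (h : Nr G 5 c c') :
    c = c' := by
  by_contra hne
  exact hC.sep c hc c' hc' hne h

/-- two sites adjacent to the same vertex are equal -/
lemma site_unique2 (hC : Sites G C) {c c' v : X} (hc : c ∈ C) (hc' : c' ∈ C) (h : G.Adj c v)
    (h' : G.Adj c' v) : c = c' :=
  site_unique hC hc hc' (((Nr.of_adj h).trans (Nr.of_adj h'.symm)).mono (by norm_num))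

/-- sites are not adjacent -/
lemma site_not_adj (hC : Sites G C) {c c' : X} (hc : c ∈ C) (hc' : c' ∈ C) : ¬ G.Adj c c' := by
  intro h
  have := site_unique hC hc hc' ((Nr.of_adj h).mono (by norm_num))
  subst this
  exact G.loopless.irrefl _ h

lemma src_site (hadj : ∀ x y, G.Adj x y ↔ ∃ i, t i x = y) (hC : Sites G C) {c : X}
    (hc : c ∈ C) : srcF t C dir c = none := by
  rw [srcF_none]
  rintro i ⟨h1, -⟩
  exact site_not_adj hC hc h1 ((hadj _ _).2 ⟨i, rfl⟩)

lemma src_hall (hadj : ∀ x y, G.Adj x y ↔ ∃ i, t i x = y) {x : X} (hx : x ∈ hall G C) :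
    srcF t C dir x = none := by
  rw [srcF_none]
  rintro i ⟨h1, -⟩
  exact hx.2 _ h1 ((hadj _ _).2 ⟨i, rfl⟩)

lemma src_dir (hadj : ∀ x y, G.Adj x y ↔ ∃ i, t i x = y) (hC : Sites G C) {c : X}
    (hc : c ∈ C) : srcF t C dir (t (dir c) c) = none := by
  rw [srcF_none]
  rintro i ⟨h1, h2⟩
  have h3 : G.Adj c (t (dir c) c) := (hadj _ _).2 ⟨_, rfl⟩
  have h4 : G.Adj (t i (t (dir c) c)) (t (dir c) c) := ((hadj _ _).2 ⟨i, rfl⟩ : G.Adj _ _).symm
  have h5 := site_unique2 hC hc h1 h3 h4
  rw [← h5] at h2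
  exact h2 rfl

/-- a non-seed neighbour of a site is its direction -/
lemma eq_dir (hadj : ∀ x y, G.Adj x y ↔ ∃ i, t i x = y) {c x : X} (hc : c ∈ C)
    (hx : srcF t C dir x = none) (h : G.Adj x c) : t (dir c) c = x := by
  obtain ⟨i, hi⟩ := (hadj _ _).1 h
  rw [srcF_none] at hx
  by_contra hne
  refine hx i ⟨by rw [hi]; exact hc, ?_⟩
  rw [hi]
  exact hne

lemma mem_Lay_walk (hadj : ∀ x y, G.Adj x y ↔ ∃ i, t i x = y) {x p : X} (m : ℕ)
    (hp : p ∈ Lay t C dir m) (q : (hallG G C).Walk x p) : x ∈ Lay t C dir (m + q.length) := by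
  induction q with
  | nil => exact hp
  | cons h q ih =>
    rw [SimpleGraph.Walk.length_cons, ← add_assoc]
    refine Or.inr ⟨src_hall hadj h.2.1, ?_⟩
    obtain ⟨i, hi⟩ := (hadj _ _).1 h.1
    exact ⟨i, by rw [hi]; exact ih hp⟩

lemma mem_Lay (hadj : ∀ x y, G.Adj x y ↔ ∃ i, t i x = y) (hC : Sites G C) {X' : Set X}
    {R₀ : ℕ}
    (hgood : ∀ x ∈ X', x ∈ hall G C → ∃ c ∈ C, ∃ p ∈ hall G C, G.Adj (t (dir c) c) p ∧
      Nr (hallG G C) R₀ x p) {x : X} (hx : x ∈ X') (hsx : srcF t C dir x = none) :
    x ∈ Lay t C dir (R₀ + 2) := by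
  by_cases hxC : x ∈ C
  · exact Lay_mono (Nat.zero_le _) (show x ∈ Lay t C dir 0 from hxC)
  have key : ∀ c ∈ C, t (dir c) c ∈ Lay t C dir 1 := by
    intro c hc
    have h : G.Adj (t (dir c) c) c := ((hadj c (t (dir c) c)).2 ⟨dir c, rfl⟩).symm
    obtain ⟨i, hi⟩ := (hadj _ _).1 h
    refine Or.inr ⟨src_dir hadj hC hc, i, ?_⟩
    rw [hi]
    exact hc
  by_cases hxh : x ∈ hall G C
  · obtain ⟨c, hc, p, hp, h1, q, hq⟩ := hgood x hx hxh
    have hp2 : p ∈ Lay t C dir 2 := by
      obtain ⟨i, hi⟩ := (hadj _ _).1 h1.symm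
      refine Or.inr ⟨src_hall hadj hp, i, ?_⟩
      rw [hi]
      exact key c hc
    exact Lay_mono (by omega) (mem_Lay_walk hadj 2 hp2 q)
  · have : ∃ c ∈ C, G.Adj x c := by
      by_contra hno
      push Not at hno
      exact hxh ⟨hxC, hno⟩
    obtain ⟨c, hc, h⟩ := this
    have h2 := eq_dir hadj hc hsx h
    rw [← h2]
    exact Lay_mono (by omega) (key c hc)

end geom

section meas

variable [MeasurableSpace X] [StandardBorelSpace X]

lemma measurableSet_Sd (ht : ∀ i, Measurable (t i)) (hCm : MeasurableSet C)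
    (hdir : ∀ j, MeasurableSet {x | dir x = j}) (i : Fin 3) : MeasurableSet (Sd t C dir i) := by
  have h : Sd t C dir i = (t i) ⁻¹' C ∩ ⋃ j : Fin 3, ((t i) ⁻¹' {x | dir x = j} ∩
      {z | t j (t i z) = z}ᶜ) := by
    ext z
    simp only [Sd, Set.mem_setOf_eq, Set.mem_inter_iff, Set.mem_preimage, Set.mem_iUnion,
      Set.mem_compl_iff]
    constructor
    · rintro ⟨h1, h2⟩
      exact ⟨h1, dir (t i z), rfl, h2⟩
    · rintro ⟨h1, j, h2, h3⟩
      refine ⟨h1, ?_⟩
      rw [h2]
      exact h3
  rw [h]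
  refine (ht i hCm).inter (MeasurableSet.iUnion fun j => (ht i (hdir j)).inter ?_)
  exact (measurableSet_eq_fun ((ht j).comp (ht i)) measurable_id).compl

lemma measurableSet_src (ht : ∀ i, Measurable (t i)) (hCm : MeasurableSet C)
    (hdir : ∀ j, MeasurableSet {x | dir x = j}) (o : Option (Fin 3)) :
    MeasurableSet {x | srcF t C dir x = o} := by
  classical
  have hS := measurableSet_Sd ht hCm hdir
  have h : {x | srcF t C dir x = o} =
      (Sd t C dir 0 ∩ {_x | (some 0 : Option (Fin 3)) = o}) ∪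
      ((Sd t C dir 0)ᶜ ∩ (Sd t C dir 1 ∩ {_x | (some 1 : Option (Fin 3)) = o})) ∪
      ((Sd t C dir 0)ᶜ ∩ ((Sd t C dir 1)ᶜ ∩ (Sd t C dir 2 ∩ {_x | (some 2 : Option (Fin 3)) = o})))
      ∪ ((Sd t C dir 0)ᶜ ∩ ((Sd t C dir 1)ᶜ ∩ ((Sd t C dir 2)ᶜ ∩
        {_x | (none : Option (Fin 3)) = o}))) := by
    ext x
    simp only [Set.mem_setOf_eq, Set.mem_union, Set.mem_inter_iff, Set.mem_compl_iff]
    unfold srcF
    split_ifs with h0 h1 h2 <;> simp [h0] <;> simp [*]
  rw [h]
  exact ((((hS 0).inter (MeasurableSet.const _)).union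
    ((hS 0).compl.inter ((hS 1).inter (MeasurableSet.const _)))).union
    ((hS 0).compl.inter ((hS 1).compl.inter ((hS 2).inter (MeasurableSet.const _))))).union
    ((hS 0).compl.inter ((hS 1).compl.inter ((hS 2).compl.inter (MeasurableSet.const _))))

lemma measurableSet_Lay (ht : ∀ i, Measurable (t i)) (hCm : MeasurableSet C)
    (hdir : ∀ j, MeasurableSet {x | dir x = j}) (n : ℕ) : MeasurableSet (Lay t C dir n) := by
  induction n with
  | zero => exact hCm
  | succ n ih =>
    have h : Lay t C dir (n + 1) = Lay t C dir n ∪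
        ({x | srcF t C dir x = none} ∩ ⋃ i, (t i) ⁻¹' (Lay t C dir n)) := by
      ext x
      simp [Lay]
    rw [h]
    exact ih.union ((measurableSet_src ht hCm hdir none).inter
      (MeasurableSet.iUnion fun i => ht i ih))

lemma measurable_rk (ht : ∀ i, Measurable (t i)) (hCm : MeasurableSet C)
    (hdir : ∀ j, MeasurableSet {x | dir x = j}) {R K : ℕ} {c₁ : X → Fin K}
    (hc₁ : Measurable c₁) : Measurable (rk t C dir R K c₁) := by
  unfold rk
  refine Measurable.ite (measurableSet_src ht hCm hdir none) ?_ measurable_const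
  have h1 : Measurable (cnt t C dir R) := by
    unfold cnt
    exact Finset.measurable_fun_sum _ (fun n _ => Measurable.ite (measurableSet_Lay ht hCm hdir n)
      measurable_const measurable_const)
  have h2 : Measurable (fun x => ((c₁ x : Fin K) : ℕ)) := measurable_from_top.comp hc₁
  exact (measurable_const.add (h1.mul_const K)).add h2

lemma measurableSet_ch (ht : ∀ i, Measurable (t i)) (hCm : MeasurableSet C)
    (hdir : ∀ j, MeasurableSet {x | dir x = j}) {R K : ℕ} {c₁ : X → Fin K}
    (hc₁ : Measurable c₁) (l : List (Fin 3)) :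
    MeasurableSet {x | chF t C dir R K c₁ x = l} := by
  classical
  have hrk := measurable_rk (R := R) ht hCm hdir hc₁
  have h : {x | chF t C dir R K c₁ x = l} =
      (C ∩ ⋃ j : Fin 3, ({x | dir x = j} ∩ {_x | [j] = l})) ∪
      (Cᶜ ∩ ⋃ b : Fin 3 → Bool, ({_x | (List.finRange 3).filter b = l} ∩
        ⋂ i, {x | decide (rk t C dir R K c₁ (t i x) < rk t C dir R K c₁ x) = b i})) := by
    ext x
    simp only [chF, Set.mem_setOf_eq, Set.mem_union, Set.mem_inter_iff, Set.mem_compl_iff,
      Set.mem_iUnion, Set.mem_iInter]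
    by_cases hx : x ∈ C
    · simp [hx]
    · simp only [hx, if_false, false_and, not_false_eq_true, true_and, false_or]
      constructor
      · intro h
        exact ⟨fun i => decide (rk t C dir R K c₁ (t i x) < rk t C dir R K c₁ x), h, fun i => rfl⟩
      · rintro ⟨b, hb, h⟩
        rw [← hb]
        congr 1
        funext i
        exact h i
  rw [h]
  refine (hCm.inter (MeasurableSet.iUnion fun j => (hdir j).inter (MeasurableSet.const _))).union
    (hCm.compl.inter (MeasurableSet.iUnion fun b => (MeasurableSet.const _).inter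
      (MeasurableSet.iInter fun i => ?_)))
  have hlt : MeasurableSet {x | rk t C dir R K c₁ (t i x) < rk t C dir R K c₁ x} :=
    measurableSet_lt (hrk.comp (ht i)) hrk
  cases b i
  · have : {x | decide (rk t C dir R K c₁ (t i x) < rk t C dir R K c₁ x) = false} =
        {x | rk t C dir R K c₁ (t i x) < rk t C dir R K c₁ x}ᶜ := by
      ext x
      simp
    rw [this]
    exact hlt.compl
  · have : {x | decide (rk t C dir R K c₁ (t i x) < rk t C dir R K c₁ x) = true} =
        {x | rk t C dir R K c₁ (t i x) < rk t C dir R K c₁ x} := by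
      ext x
      simp
    rw [this]
    exact hlt

end meas

/-- no triangles -/
lemma no_tri {G : SimpleGraph X} (hsep : Sep G 4) {a b c : X} (h1 : G.Adj a b) (h2 : G.Adj b c)
    (h3 : G.Adj c a) : False := by
  refine hsep 3 (fun n => if n = 0 then a else if n = 1 then b else if n = 2 then c else a)
    (by norm_num) (by norm_num) ?_ ?_ rfl
  · intro i hi
    interval_cases i
    · simpa using h1
    · simpa using h2
    · simpa using h3
  · intro i hi
    have : i = 0 ∨ i = 1 := by omega
    rcases this with rfl | rfl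
    · simpa using h3.ne.symm
    · simpa using h1.ne.symm

theorem plan_of [MeasurableSpace X] [StandardBorelSpace X] {G : SimpleGraph X}
    (hadj : ∀ x y, G.Adj x y ↔ ∃ i, t i x = y)
    (tinj : ∀ x i j, t i x = t j x → i = j) (hsep : Sep G 4)
    (hC : Sites G C) {K : ℕ}
    {c₁ : X → Fin K} (hc₁' : ∀ x y, G.Adj x y → c₁ x ≠ c₁ y)
    {X' : Set X} (hX' : ∀ x ∈ X', ∀ i, t i x ∈ X') {R₀ : ℕ}
    (hgood : ∀ x ∈ X', x ∈ hall G C → ∃ c ∈ C, ∃ p ∈ hall G C, G.Adj (t (dir c) c) p ∧
      Nr (hallG G C) R₀ x p) :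
    Plan t X' ((R₀ + 3) * K) (srcF t C dir) (chF t C dir (R₀ + 2) K c₁)
      (rk t C dir (R₀ + 2) K c₁) := by
  have hnb : ∀ x i, G.Adj x (t i x) := fun x i => (hadj _ _).2 ⟨i, rfl⟩
  have hchC : ∀ c ∈ C, chF t C dir (R₀ + 2) K c₁ c = [dir c] := fun c hc => by
    unfold chF
    rw [if_pos hc]
  have hmem : ∀ x ∉ C, ∀ i, i ∈ chF t C dir (R₀ + 2) K c₁ x ↔
      rk t C dir (R₀ + 2) K c₁ (t i x) < rk t C dir (R₀ + 2) K c₁ x := fun x hx i => by
    unfold chF
    rw [if_neg hx]
    simp
  have hdirlt : ∀ c ∈ C, rk t C dir (R₀ + 2) K c₁ (t (dir c) c) <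
      rk t C dir (R₀ + 2) K c₁ c := by
    intro c hc
    refine rk_lt_of_cnt (src_site hadj hC hc) (src_dir hadj hC hc) ?_
    have h1 : t (dir c) c ∉ Lay t C dir 0 := fun h => site_not_adj hC hc h (hnb _ _)
    have h2 := cnt_le (R := R₀ + 2) h1
    have h3 := cnt_ge (R := R₀ + 2) (show c ∈ Lay t C dir 0 from hc)
    omega
  -- a seed is adjacent to one site only
  have hseed : ∀ x j, srcF t C dir x = some j → ∀ i, t i x ∈ C → i = j := by
    intro x j hj i hi
    have h1 := srcF_some hj
    exact tinj x i j (site_unique2 hC hi h1.1 (hnb _ _).symm (hnb _ _).symm)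
  refine ⟨?_, ?_, ?_, ?_, ?_, ?_⟩
  · -- bound
    intro x _
    unfold rk
    split_ifs with h
    · have h1 : cnt t C dir (R₀ + 2) x * K ≤ (R₀ + 2) * K := Nat.mul_le_mul_right _ cnt_le_R
      have h2 := (c₁ x).2
      have h3 : (R₀ + 3) * K = (R₀ + 2) * K + K := by ring
      omega
    · exact Nat.zero_le _
  · intro x _ _ i hi
    by_cases hxC : x ∈ C
    · rw [hchC x hxC, List.mem_singleton] at hi
      subst hi
      exact hdirlt x hxC
    · exact (hmem x hxC i).1 hi
  · intro x _ _
    by_cases hxC : x ∈ C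
    · rw [hchC x hxC]
      exact List.nodup_singleton _
    · unfold chF
      rw [if_neg hxC]
      exact (List.nodup_finRange 3).filter _
  · -- at most two children
    intro x hx hsx
    by_cases hxC : x ∈ C
    · rw [hchC x hxC]
      simp
    · have h0 : x ∉ Lay t C dir 0 := hxC
      have h1 := mem_Lay hadj hC hgood hx hsx
      obtain ⟨n, hn1, hn2, hn3⟩ : ∃ n, x ∉ Lay t C dir n ∧ x ∈ Lay t C dir (n + 1) ∧
          n + 1 ≤ R₀ + 2 := by
        classical
        have hex : ∃ n, x ∈ Lay t C dir n := ⟨_, h1⟩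
        have hf := Nat.find_spec hex
        have hf' : Nat.find hex ≤ R₀ + 2 := Nat.find_min' hex h1
        have hpos : Nat.find hex ≠ 0 := by
          intro e
          rw [e] at hf
          exact h0 hf
        refine ⟨Nat.find hex - 1, Nat.find_min hex (by omega), ?_, by omega⟩
        rw [Nat.sub_add_cancel (Nat.pos_of_ne_zero hpos)]
        exact hf
      obtain ⟨i, hi⟩ : ∃ i, t i x ∈ Lay t C dir n := by
        rcases hn2 with h | h
        · exact absurd h hn1
        · exact h.2
      have hsi : srcF t C dir (t i x) = none := by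
        have : ∀ m, ∀ y ∈ Lay t C dir m, srcF t C dir y = none := by
          intro m
          induction m with
          | zero => exact fun y hy => src_site hadj hC hy
          | succ m ih =>
            rintro y (hy | hy)
            · exact ih y hy
            · exact hy.1
        exact this n _ hi
      have hlt : rk t C dir (R₀ + 2) K c₁ x < rk t C dir (R₀ + 2) K c₁ (t i x) := by
        refine rk_lt_of_cnt hsi hsx ?_
        have h2 := cnt_le (R := R₀ + 2) hn1
        have h3 := cnt_ge (R := R₀ + 2) hi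
        omega
      have hnot : i ∉ chF t C dir (R₀ + 2) K c₁ x := fun h => by
        have := (hmem x hxC i).1 h
        omega
      unfold chF at hnot ⊢
      rw [if_neg hxC] at hnot ⊢
      by_contra hlen
      push Not at hlen
      have h4 := List.length_filter_le (fun i => decide (rk t C dir (R₀ + 2) K c₁ (t i x) <
        rk t C dir (R₀ + 2) K c₁ x)) (List.finRange 3)
      rw [List.length_finRange] at h4
      have h5 : ((List.finRange 3).filter (fun i => decide (rk t C dir (R₀ + 2) K c₁ (t i x) <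
        rk t C dir (R₀ + 2) K c₁ x))).length = (List.finRange 3).length := by
        rw [List.length_finRange]
        omega
      rw [List.length_filter_eq_length_iff] at h5
      exact hnot (List.mem_filter.2 ⟨List.mem_finRange i, h5 i (List.mem_finRange i)⟩)
  · intro x _ j hj
    have h1 := srcF_some hj
    exact ⟨src_site hadj hC h1.1, dir (t j x), hchC _ h1.1, h1.2⟩
  · -- cover
    intro x _ i
    have back : ∀ y z, G.Adj y z → ∃ j, t j y = z := fun y z h => (hadj _ _).1 h
    obtain ⟨j, hj⟩ := back (t i x) x (hnb x i).symm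
    rcases hsx : srcF t C dir x with _ | k
    · rcases hsy : srcF t C dir (t i x) with _ | k'
      · by_cases hxC : x ∈ C
        · left
          refine ⟨rfl, ?_⟩
          have h1 := eq_dir hadj hxC hsy (hnb x i).symm
          rw [hchC x hxC, List.mem_singleton]
          exact (tinj x _ _ h1).symm
        by_cases hyC : t i x ∈ C
        · right; left
          refine ⟨rfl, dir (t i x), by rw [hchC _ hyC]; simp, ?_⟩
          exact eq_dir hadj hyC hsx (hnb x i)
        · rcases rk_lt_or (R := R₀ + 2) (c₁ := c₁) hsx hsy (hc₁' _ _ (hnb x i)) with h | h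
          · left
            exact ⟨rfl, (hmem x hxC i).2 h⟩
          · right; left
            refine ⟨rfl, j, ?_, hj⟩
            rw [hmem _ hyC, hj]
            exact h
      · by_cases hk : t k' (t i x) = x
        · right; right; right
          exact ⟨k', rfl, hk⟩
        · left
          refine ⟨rfl, ?_⟩
          have hxC : x ∉ C := by
            intro hxC
            have := hseed _ _ hsy j (by rw [hj]; exact hxC)
            rw [this] at hj
            exact hk hj
          rw [hmem x hxC]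
          exact rk_seed hsx hsy
    · by_cases hik : i = k
      · right; right; left
        rw [hik]
      · have hyC : t i x ∉ C := fun h => hik (hseed x k hsx i h)
        have hsy : srcF t C dir (t i x) = none := by
          rcases hsy : srcF t C dir (t i x) with _ | k'
          · rfl
          · exfalso
            have h1 := srcF_some hsx
            have h2 := srcF_some hsy
            have h3 : t k x = t k' (t i x) := by
              refine site_unique hC h1.1 h2.1 ?_
              exact (((Nr.of_adj (hnb x k).symm).trans (Nr.of_adj (hnb x i))).trans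
                (Nr.of_adj (hnb (t i x) k'))).mono (by norm_num)
            refine no_tri hsep (hnb x i) (hnb (t i x) k') ?_
            rw [← h3]
            exact (hnb x k).symm
        right; left
        refine ⟨hsy, j, ?_, hj⟩
        rw [hmem _ hyC, hj]
        exact rk_seed hsy hsx

theorem exists_plan [MeasurableSpace X] [StandardBorelSpace X] {G : SimpleGraph X}
    (ht : ∀ i, Measurable (t i)) (hadj : ∀ x y, G.Adj x y ↔ ∃ i, t i x = y)
    (tinj : ∀ x i j, t i x = t j x → i = j) (hsep : Sep G 4) (hCm : MeasurableSet C)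
    (hC : Sites G C) {dir : X → Fin 3} (hdir : ∀ j, MeasurableSet {x | dir x = j}) {K : ℕ}
    {c₁ : X → Fin K} (hc₁ : Measurable c₁) (hc₁' : ∀ x y, G.Adj x y → c₁ x ≠ c₁ y)
    {X' : Set X} (hX' : ∀ x ∈ X', ∀ i, t i x ∈ X') {R₀ : ℕ}
    (hgood : ∀ x ∈ X', x ∈ hall G C → ∃ c ∈ C, ∃ p ∈ hall G C, G.Adj (t (dir c) c) p ∧
      Nr (hallG G C) R₀ x p) :
    ∃ (src : X → Option (Fin 3)) (ch : X → List (Fin 3)) (ρ : X → ℕ),
      (∀ o, MeasurableSet {x | src x = o}) ∧ (∀ l, MeasurableSet {x | ch x = l}) ∧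
      Plan t X' ((R₀ + 3) * K) src ch ρ :=
  ⟨srcF t C dir, chF t C dir (R₀ + 2) K c₁, rk t C dir (R₀ + 2) K c₁,
    measurableSet_src ht hCm hdir, measurableSet_ch ht hCm hdir hc₁,
    plan_of hadj tinj hsep hC hc₁' hX' hgood⟩

end Pool.Agent.Helper75.MG
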