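import Pool.Agent.Helper75.MG.Defs

/-!
# Project MG, piece N: a dominating measure

`act l x = l.foldr (fun i z => t i z) x` for `l : List (Fin 3)`; `G.Reachable x y ↔ ∃ l, act l x = y` (only the direction
from left to right is needed). `ν = Measure.sum (fun l => ((2:ℝ≥0∞)⁻¹ ^ (encode l + 1)) • μ.map (act l))`, of total
mass at most 1; a property which holds `ν`-almost everywhere holds `μ.map (act l)`-almost everywhere for
every `l` (`ae_sum_iff'`-like lemmas or directly from `ν s = 0`), so at `act l x` for `μ`-almost every `x`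
(`ae_of_ae_map`), simultaneously for the countably many `l`.
-/

namespace Pool.Agent.Helper75.MG

open MeasureTheory

private theorem Quasi_reach {X : Type} {G : SimpleGraph X} {t : Fin 3 → X → X}
    (hadj : ∀ x y, G.Adj x y ↔ ∃ i, t i x = y) {x y : X} (p : G.Walk x y) :
    ∃ l : List (Fin 3), l.foldr (fun i z => t i z) x = y := by
  induction p with
  | nil => exact ⟨[], rfl⟩
  | cons h _ ih =>
    obtain ⟨i, hi⟩ := (hadj _ _).1 h
    obtain ⟨l, hl⟩ := ih
    refine ⟨l ++ [i], ?_⟩
    simp only [List.foldr_append, List.foldr_cons, List.foldr_nil, hi, hl]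

private theorem Quasi_meas {X : Type} [MeasurableSpace X] {t : Fin 3 → X → X}
    (ht : ∀ i, Measurable (t i)) (l : List (Fin 3)) :
    Measurable fun x => l.foldr (fun i z => t i z) x := by
  induction l with
  | nil => exact measurable_id
  | cons i l ih => exact (ht i).comp ih

theorem exists_quasi {X : Type} [MeasurableSpace X] {G : SimpleGraph X} {t : Fin 3 → X → X}
    (ht : ∀ i, Measurable (t i)) (hadj : ∀ x y, G.Adj x y ↔ ∃ i, t i x = y)
    (μ : Measure X) [IsProbabilityMeasure μ] :
    ∃ ν : Measure X, IsFiniteMeasure ν ∧ ∀ P : Set X, (∀ᵐ x ∂ν, x ∈ P) →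
      ∀ᵐ x ∂μ, ∀ y, G.Reachable x y → y ∈ P := by
  let m : List (Fin 3) → Measure X := fun l => μ.map fun x => l.foldr (fun i z => t i z) x
  have hm : ∀ l, IsFiniteMeasure (m l) := fun l => Measure.isFiniteMeasure_map μ _
  refine ⟨(Measure.sum m).toFinite, inferInstance, fun P hP => ?_⟩
  rw [ae_toFinite, Measure.ae_sum_iff] at hP
  have h1 : ∀ l : List (Fin 3), ∀ᵐ x ∂μ, l.foldr (fun i z => t i z) x ∈ P := fun l =>
    ae_of_ae_map (Quasi_meas ht l).aemeasurable (hP l)
  filter_upwards [ae_all_iff.2 h1] with x hx y hxy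
  obtain ⟨p⟩ := hxy
  obtain ⟨l, hl⟩ := Quasi_reach hadj p
  rw [← hl]
  exact hx l

end Pool.Agent.Helper75.MG
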