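import Pool.Agent.Helper75.MG.Defs

/-!
# Project MG, piece S: large girth excludes short closed non-backtracking walks

Strong induction on `n`: let `a` be a closed non-backtracking walk of length `1 ≤ n ≤ L`, `a 0 = a n`.
If `a i = a j` for some `i < j ≤ n` with `(i, j) ≠ (0, n)`, then `fun k => a (i + k)` is one of
length `j - i < n`, contradiction by induction. So `a 0, ..., a (n-1)` are distinct. `n = 1`: `a 0`
adjacent to itself; `n = 2`: `a 0 ≠ a 2` by the non-backtracking condition with `i = 0`. So `n ≥ 3`.
Build a walk `p` from `a 1` to `a n = a 0` along `a` (a recursive construction giving, for every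
`m ≤ n - 1`, a walk `q` from `a 1` to `a (m + 1)` with `q.support = List.map (a ∘ (1 + ·)) (range (m+1))`
and `q.length = m`, every edge of `q` being `s(a k, a (k+1))` with `1 ≤ k ≤ m`); it is a path
because the `a k`, `1 ≤ k ≤ n`, are distinct. `Walk.cons h p` with `h : G.Adj (a 0) (a 1)` is a cycle by
`SimpleGraph.Walk.cons_isCycle_iff` (the edge `s(a 0, a 1)` is not an edge of `p`, `n ≥ 3`), of
length `n ≤ L`, contradiction with `SimpleGraph.egirth_le_length`.
-/

namespace Pool.Agent.Helper75.MG

private lemma SepG_walk {X : Type} (G : SimpleGraph X) (b : ℕ → X) (m : ℕ)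
    (h : ∀ i < m, G.Adj (b i) (b (i + 1))) :
    ∃ p : G.Walk (b 0) (b m), p.length = m ∧ p.support = (List.range (m + 1)).map b ∧
      ∀ e ∈ p.edges, ∃ k < m, e = s(b k, b (k + 1)) := by
  induction m with
  | zero => exact ⟨SimpleGraph.Walk.nil, rfl, rfl, fun e he => by simp at he⟩
  | succ m ih =>
    obtain ⟨p, hp1, hp2, hp3⟩ := ih (fun i hi => h i (by omega))
    refine ⟨p.concat (h m (by omega)), ?_, ?_, ?_⟩
    · rw [SimpleGraph.Walk.length_concat, hp1]
    · rw [SimpleGraph.Walk.support_concat, hp2, List.range_succ (n := m + 1), List.map_append]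
      simp
    · intro e he
      rw [SimpleGraph.Walk.edges_concat, List.concat_eq_append, List.mem_append] at he
      rcases he with he | he
      · obtain ⟨k, hk, hk2⟩ := hp3 e he
        exact ⟨k, by omega, hk2⟩
      · rw [List.mem_singleton] at he
        exact ⟨m, by omega, he⟩

private lemma SepG_aux {X : Type} (G : SimpleGraph X) (L : ℕ)
    (h : ((L + 1 : ℕ) : ℕ∞) ≤ G.egirth) (n : ℕ) :
    ∀ a : ℕ → X, 1 ≤ n → n ≤ L → (∀ i < n, G.Adj (a i) (a (i + 1))) →
      (∀ i, i + 2 ≤ n → a i ≠ a (i + 2)) → a 0 ≠ a n := by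
  induction n using Nat.strong_induction_on with
  | _ n ih =>
    intro a hn1 hnL hadj hnb heq
    have hdist : ∀ i j, 1 ≤ i → i < j → j ≤ n → a i ≠ a j := by
      intro i j hi hij hj
      have h1 := ih (j - i) (by omega) (fun k => a (i + k)) (by omega) (by omega)
        (fun k hk => by
          have h2 := hadj (i + k) (by omega)
          exact h2)
        (fun k hk => by
          have h2 := hnb (i + k) (by omega)
          exact h2)
      have h3 : i + (j - i) = j := by omega
      change a (i + 0) ≠ a (i + (j - i)) at h1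
      rw [h3, add_zero] at h1
      exact h1
    obtain ⟨m, rfl⟩ : ∃ m, n = m + 1 := ⟨n - 1, by omega⟩
    obtain ⟨p, hp1, hp2, hp3⟩ := SepG_walk G (fun k => a (k + 1)) m
      (fun i hi => hadj (i + 1) (by omega))
    have hc : ∃ q : G.Walk (a 1) (a 0), q.length = m ∧
        q.support = (List.range (m + 1)).map (fun k => a (k + 1)) ∧
        ∀ e ∈ q.edges, ∃ k < m, e = s(a (k + 1), a (k + 1 + 1)) := by
      rw [heq]
      exact ⟨p, hp1, hp2, hp3⟩
    obtain ⟨q, hq1, hq2, hq3⟩ := hc
    have hpath : q.IsPath := by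
      rw [SimpleGraph.Walk.isPath_def, hq2]
      refine List.Nodup.map_on ?_ List.nodup_range
      intro x hx y hy hxy
      rw [List.mem_range] at hx hy
      rcases lt_trichotomy x y with hlt | hlt | hlt
      · exact absurd hxy (hdist (x + 1) (y + 1) (by omega) (by omega) (by omega))
      · exact hlt
      · exact absurd hxy.symm (hdist (y + 1) (x + 1) (by omega) (by omega) (by omega))
    have h01 : G.Adj (a 0) (a 1) := hadj 0 (by omega)
    have hcyc : (SimpleGraph.Walk.cons h01 q).IsCycle := by
      rw [SimpleGraph.Walk.cons_isCycle_iff]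
      refine ⟨hpath, fun he => ?_⟩
      obtain ⟨k, hk, hk2⟩ := hq3 _ he
      rw [Sym2.eq_iff] at hk2
      rcases hk2 with ⟨h1, _⟩ | ⟨h1, h2⟩
      · rw [heq] at h1
        exact hdist (k + 1) (m + 1) (by omega) (by omega) le_rfl h1.symm
      · rw [heq] at h1
        have h3 : k + 1 + 1 = m + 1 := by
          by_contra hne
          exact hdist (k + 1 + 1) (m + 1) (by omega) (by omega) le_rfl h1.symm
        have h4 : k = 0 := by
          by_contra hne
          exact hdist 1 (k + 1) le_rfl (by omega) (by omega) h2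
        have h5 : m = 1 := by omega
        subst h5
        exact hnb 0 le_rfl heq
    have h1 := h.trans (SimpleGraph.egirth_le_length hcyc)
    rw [SimpleGraph.Walk.length_cons, hq1] at h1
    have h2 : L + 1 ≤ m + 1 := by exact_mod_cast h1
    omega

theorem sep_of_egirth {X : Type} (G : SimpleGraph X) (L : ℕ) (h : ((L + 1 : ℕ) : ℕ∞) ≤ G.egirth) :
    Sep G L :=
  fun n a h1 h2 h3 h4 => SepG_aux G L h n a h1 h2 h3 h4

end Pool.Agent.Helper75.MG
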