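import Pool.Agent.Helper75.MG.Defs

/-!
# Project MG, piece C1: measurable maximal independent sets

`R` is a measurable symmetric irreflexive relation all of whose pairs are `(x, w k x)` for one of
finitely many measurable maps `w k`.

Countable colouring first: let `e : X → ℝ` be a measurable injection (or
`X → (ℕ → Bool)`), `q n x` the truncation at level `n` (for `ℝ`: `⌊e x * 2^n⌋`, or the first `n`
bits, any countable separating family). For every `x` there is `n` with `q n x ≠ q n (w k x)` for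
every `k` with `w k x ≠ x`; take the least such `n`, and colour `φ x = (n, q n x)`, a measurable map
to a countable set, with `φ x ≠ φ y` for `(x, y) ∈ R` (if `φ y = φ x = (n, s)` then `q n y = s = q n x`,
but `y = w k x ≠ x`). After composing with an encoding, `φ : X → ℕ`.
Put `M_0 = ∅`, `M_(n+1) = M_n ∪ {x ∈ A | φ x = n ∧ ¬ ∃ y ∈ M_n, (x, y) ∈ R}`; here
`{x | ∃ y ∈ M_n, (x,y) ∈ R} = ⋃ k, {x | w k x ∈ M_n ∧ (x, w k x) ∈ R}` is measurable. `C = ⋃ M_n`.
-/

namespace Pool.Agent.Helper75.MG

open MeasureTheory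

private noncomputable def misQ {X : Type} [MeasurableSpace X] [StandardBorelSpace X]
    (n : ℕ) (x : X) : ℤ := ⌊embeddingReal X x * 2 ^ n⌋

private theorem misQ_measurable {X : Type} [MeasurableSpace X] [StandardBorelSpace X] (n : ℕ) :
    Measurable (misQ (X := X) n) := by
  unfold misQ
  exact ((measurableEmbedding_embeddingReal X).measurable.mul_const _).floor

private theorem misQ_sep {X : Type} [MeasurableSpace X] [StandardBorelSpace X] (x y : X)
    (h : x ≠ y) : ∃ N, ∀ n ≥ N, misQ n x ≠ misQ n y := by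
  have h1 : embeddingReal X x ≠ embeddingReal X y :=
    fun h2 => h ((measurableEmbedding_embeddingReal X).injective h2)
  have h2 : 0 < |embeddingReal X x - embeddingReal X y| := abs_pos.2 (sub_ne_zero.2 h1)
  obtain ⟨N, hN⟩ := pow_unbounded_of_one_lt (1 / |embeddingReal X x - embeddingReal X y|)
    (one_lt_two (α := ℝ))
  refine ⟨N, fun n hn he => ?_⟩
  have h3 : (2 : ℝ) ^ N ≤ 2 ^ n := pow_le_pow_right₀ one_le_two hn
  have h4 : 1 < |embeddingReal X x - embeddingReal X y| * 2 ^ n := by
    have h5 : 1 / |embeddingReal X x - embeddingReal X y| < 2 ^ n := hN.trans_le h3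
    rwa [div_lt_iff₀' h2] at h5
  have h5 : |embeddingReal X x * 2 ^ n - embeddingReal X y * 2 ^ n| < 1 :=
    Int.abs_sub_lt_one_of_floor_eq_floor he
  rw [← sub_mul, abs_mul, abs_of_pos (by positivity : (0 : ℝ) < 2 ^ n)] at h5
  linarith

private theorem mis_col {X : Type} [MeasurableSpace X] [StandardBorelSpace X] {M : ℕ}
    (w : Fin M → X → X) (hw : ∀ k, Measurable (w k)) :
    ∃ φ : X → ℕ, (∀ n, MeasurableSet {x | φ x = n}) ∧ ∀ x k, w k x ≠ x → φ x ≠ φ (w k x) := by
  classical
  let p : X → ℕ → Prop := fun x n => ∀ k, w k x ≠ x → misQ n x ≠ misQ n (w k x)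
  have hp : ∀ x, ∃ n, p x n := by
    intro x
    have h1 : ∀ k, ∃ N, ∀ n ≥ N, w k x ≠ x → misQ n x ≠ misQ n (w k x) := by
      intro k
      by_cases hk : w k x = x
      · exact ⟨0, fun n _ h => absurd hk h⟩
      · obtain ⟨N, hN⟩ := misQ_sep x (w k x) (fun h => hk h.symm)
        exact ⟨N, fun n hn _ => hN n hn⟩
    choose N hN using h1
    refine ⟨Finset.univ.sup N, fun k hk => hN k _ ?_ hk⟩
    exact Finset.le_sup (f := N) (Finset.mem_univ k)
  have hm : ∀ n, MeasurableSet {x | p x n} := by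
    intro n
    have h1 : {x | p x n} = ⋂ k, ({x | embeddingReal X (w k x) = embeddingReal X x} ∪
        {x | misQ n x = misQ n (w k x)}ᶜ) := by
      ext x
      simp only [p, Set.mem_ofPred_eq, Set.mem_iInter, Set.mem_union, Set.mem_compl_iff]
      refine forall_congr' fun k => ?_
      rw [(measurableEmbedding_embeddingReal X).injective.eq_iff]
      tauto
    rw [h1]
    refine MeasurableSet.iInter fun k => MeasurableSet.union ?_ (MeasurableSet.compl ?_)
    · exact measurableSet_eq_fun
        ((measurableEmbedding_embeddingReal X).measurable.comp (hw k))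
        (measurableEmbedding_embeddingReal X).measurable
    · exact measurableSet_eq_fun (misQ_measurable n)
        ((misQ_measurable n).comp (hw k))
  have hN : Measurable fun x => Nat.find (hp x) := measurable_find hp hm
  refine ⟨fun x => Encodable.encode ((Nat.find (hp x), misQ (Nat.find (hp x)) x) : ℕ × ℤ),
    ?_, ?_⟩
  · intro n
    by_cases hn : ∃ c : ℕ × ℤ, Encodable.encode c = n
    · obtain ⟨c, rfl⟩ := hn
      have h1 : {x | Encodable.encode ((Nat.find (hp x), misQ (Nat.find (hp x)) x) : ℕ × ℤ) =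
          Encodable.encode c} = {x | Nat.find (hp x) = c.1} ∩ {x | misQ c.1 x = c.2} := by
        ext x
        simp only [Set.mem_ofPred_eq, Set.mem_inter_iff, Encodable.encode_inj]
        constructor
        · rintro rfl
          exact ⟨rfl, rfl⟩
        · rintro ⟨h1, h2⟩
          rw [h1, h2]
      rw [h1]
      exact (hN (measurableSet_singleton _)).inter (misQ_measurable _ (measurableSet_singleton _))
    · have h1 : {x | Encodable.encode ((Nat.find (hp x), misQ (Nat.find (hp x)) x) : ℕ × ℤ) =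
          n} = ∅ := by
        ext x
        simp only [Set.mem_ofPred_eq, Set.mem_empty_iff_false, iff_false]
        exact fun h => hn ⟨_, h⟩
      rw [h1]
      exact MeasurableSet.empty
  · intro x k hk h
    simp only [Encodable.encode_inj, Prod.mk.injEq] at h
    obtain ⟨h1, h2⟩ := h
    rw [← h1] at h2
    exact Nat.find_spec (hp x) k hk h2

private def misM {X : Type} (A : Set X) (R : Set (X × X)) (φ : X → ℕ) : ℕ → Set X
  | 0 => ∅
  | n + 1 => misM A R φ n ∪ {x | x ∈ A ∧ φ x = n ∧ ¬ ∃ y ∈ misM A R φ n, (x, y) ∈ R}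

theorem exists_mis {X : Type} [MeasurableSpace X] [StandardBorelSpace X] {M : ℕ}
    (w : Fin M → X → X) (hw : ∀ k, Measurable (w k)) (R : Set (X × X)) (hR : MeasurableSet R)
    (hsym : ∀ x y, (x, y) ∈ R → (y, x) ∈ R) (hirr : ∀ x, (x, x) ∉ R)
    (hb : ∀ x y, (x, y) ∈ R → ∃ k, w k x = y) (A : Set X) (hA : MeasurableSet A) :
    ∃ C : Set X, MeasurableSet C ∧ C ⊆ A ∧ (∀ x ∈ C, ∀ y ∈ C, (x, y) ∉ R) ∧
      ∀ x ∈ A, x ∈ C ∨ ∃ y ∈ C, (x, y) ∈ R := by
  obtain ⟨φ, hφm, hφ⟩ := mis_col w hw
  have hφR : ∀ x y, (x, y) ∈ R → φ x ≠ φ y := by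
    intro x y hxy
    obtain ⟨k, rfl⟩ := hb x y hxy
    apply hφ
    intro h
    rw [h] at hxy
    exact hirr x hxy
  have hmeas : ∀ n, MeasurableSet (misM A R φ n) := by
    intro n
    induction n with
    | zero => exact MeasurableSet.empty
    | succ n ih =>
      have h1 : {x | ∃ y ∈ misM A R φ n, (x, y) ∈ R} =
          ⋃ k, (w k ⁻¹' (misM A R φ n) ∩ (fun x => (x, w k x)) ⁻¹' R) := by
        ext x
        simp only [Set.mem_ofPred_eq, Set.mem_iUnion, Set.mem_inter_iff, Set.mem_preimage]
        constructor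
        · rintro ⟨y, hy, hxy⟩
          obtain ⟨k, rfl⟩ := hb x y hxy
          exact ⟨k, hy, hxy⟩
        · rintro ⟨k, hy, hxy⟩
          exact ⟨_, hy, hxy⟩
      have h2 : MeasurableSet {x | ∃ y ∈ misM A R φ n, (x, y) ∈ R} := by
        rw [h1]
        exact MeasurableSet.iUnion fun k =>
          (hw k ih).inter ((measurable_id.prodMk (hw k)) hR)
      exact ih.union (hA.inter ((hφm n).inter h2.compl))
  have hsub : ∀ n, misM A R φ n ⊆ A := by
    intro n
    induction n with
    | zero => exact Set.empty_subset _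
    | succ n ih => exact Set.union_subset ih (fun x hx => hx.1)
  have hmono : Monotone (misM A R φ) := monotone_nat_of_le_succ fun n => Set.subset_union_left
  have hind : ∀ n, ∀ x ∈ misM A R φ n, ∀ y ∈ misM A R φ n, (x, y) ∉ R := by
    intro n
    induction n with
    | zero => intro x hx; exact absurd hx (Set.notMem_empty x)
    | succ n ih =>
      rintro x (hx | hx) y (hy | hy) hxy
      · exact ih x hx y hy hxy
      · exact hy.2.2 ⟨x, hx, hsym _ _ hxy⟩
      · exact hx.2.2 ⟨y, hy, hxy⟩
      · exact hφR x y hxy (hx.2.1.trans hy.2.1.symm)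
  refine ⟨⋃ n, misM A R φ n, MeasurableSet.iUnion hmeas, Set.iUnion_subset hsub, ?_, ?_⟩
  · intro x hx y hy
    obtain ⟨i, hi⟩ := Set.mem_iUnion.1 hx
    obtain ⟨j, hj⟩ := Set.mem_iUnion.1 hy
    exact hind (max i j) x (hmono (le_max_left i j) hi) y (hmono (le_max_right i j) hj)
  · intro x hx
    by_cases h : ∃ y ∈ misM A R φ (φ x), (x, y) ∈ R
    · obtain ⟨y, hy, hxy⟩ := h
      exact Or.inr ⟨y, Set.mem_iUnion.2 ⟨_, hy⟩, hxy⟩
    · exact Or.inl (Set.mem_iUnion.2 ⟨φ x + 1, Or.inr ⟨hx, rfl, h⟩⟩)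

end Pool.Agent.Helper75.MG
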