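import Pool.Agent.Helper75.MG.BDefs
import Pool.Agent.Helper75.MG.Col
import Pool.Agent.Helper75.MG.LabHom
import Pool.Agent.Helper75.MG.LabMeas
import Pool.Agent.Helper75.MG.Geo
import Pool.Agent.Helper75.MG.PlanG
import Pool.Agent.Helper75.MG.SepG
import Pool.Agent.Helper75.MG.Enum

/-!
# Project BC: reduction of the homomorphism problem to an assignment problem (Borel)
-/

namespace Pool.Agent.Helper75.MG

open MeasureTheory

variable {ρ₀ B₀ N₀ : ℕ}

theorem reduction (hρ₀ : ρ₀ = 72 * 4 ^ 7 + 5) (hB₀ : B₀ = (3 * ρ₀ + 3) * 5)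
    (hN₀ : N₀ = 4 ^ (2 * B₀ + 4) + 1) {X : Type} [MeasurableSpace X] [StandardBorelSpace X]
    (G : SimpleGraph X)
    (hG : MeasurableSet {z : X × X | G.Adj z.1 z.2}) (hg : ((2 * B₀ + 5 : ℕ) : ℕ∞) ≤ G.egirth)
    (h3 : ∀ x, (G.neighborSet x).ncard = 3) :
    ∃ (t : Fin 3 → X → X) (A : Set (X × X)) (Y : Set X), (∀ i, Measurable (t i)) ∧
      MeasurableSet A ∧ MeasurableSet Y ∧ BData G t (ρ₀ + 2) A Y ∧
      ∀ B : Set (X × X), MeasurableSet B → B ⊆ A →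
        (∀ u u' c, (u, c) ∈ B → (u', c) ∈ B → u = u') →
        ∃ f : X → {t : Tm N₀ // t.depth ≤ B₀ + 1}, (∀ v, MeasurableSet (f ⁻¹' {v})) ∧
          ∀ x, (∀ y, G.Reachable x y → y ∈ Y → ∃ c, (y, c) ∈ B) →
            ∀ y z, G.Reachable x y → G.Adj y z → (HN N₀ (B₀ + 1)).Adj (f y) (f z) := by
  classical
  subst hN₀
  have hsep : Sep G (2 * B₀ + 4) := sep_of_egirth G _ hg
  have hsepmono : ∀ {m}, m ≤ 2 * B₀ + 4 → Sep G m := fun hm n a h1 h2 =>
    hsep n a h1 (h2.trans hm)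
  obtain ⟨t, ht, tinj, hadj⟩ := exists_enum X G hG h3
  have hdiag : MeasurableSet {z : X × X | z.1 = z.2} := measurableSet_eq_fun measurable_fst
    measurable_snd
  have hNr : ∀ n, MeasurableSet {z : X × X | Nr G n z.1 z.2} := fun n =>
    measurableSet_Nr G t ht (fun _ => Set.univ) (fun _ => MeasurableSet.univ)
      (fun x y => by simpa using hadj x y) n
  -- sites
  obtain ⟨w5, hw5, hw5'⟩ := exists_words G t ht hadj 5
  obtain ⟨C, hCm, -, hC1, hC2⟩ := exists_mis w5 hw5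
    ({z : X × X | Nr G 5 z.1 z.2} \ {z | z.1 = z.2}) ((hNr 5).diff hdiag)
    (fun x y h => ⟨h.1.symm, fun e => h.2 (Eq.symm e)⟩) (fun x h => h.2 rfl)
    (fun x y h => (hw5' x y).1 h.1) Set.univ MeasurableSet.univ
  have hC : Sites G C :=
    { sep := fun x hx y hy hxy h => hC1 x hx y hy ⟨h, hxy⟩
      dense := fun x => by
        rcases hC2 x trivial with h | ⟨y, hy, h⟩
        · exact ⟨x, h, Nr.refl _ _⟩
        · exact ⟨y, hy, h.1⟩ }
  have hhall : MeasurableSet (hall G C) := measurableSet_hall ht hadj hCm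
  have hle : ∀ a b, (hallG G C).Adj a b → G.Adj a b := fun a b h => h.1
  -- clients
  obtain ⟨wY, hwY, hwY'⟩ := exists_words G t ht hadj (2 * ρ₀)
  obtain ⟨Y, hYm, hYhall, hY1, hY2⟩ := exists_mis wY hwY
    ({z : X × X | Nr (hallG G C) (2 * ρ₀) z.1 z.2} \ {z | z.1 = z.2})
    ((measurableSet_hallNr ht hadj hCm _).diff hdiag)
    (fun x y h => ⟨h.1.symm, fun e => h.2 (Eq.symm e)⟩) (fun x h => h.2 rfl)
    (fun x y h => (hwY' x y).1 (Nr.mono_graph hle h.1)) (hall G C) hhall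
  refine ⟨t, Srv G C Y ρ₀, Y, ht, measurableSet_Srv ht hadj hCm hYm ρ₀, hYm,
    ⟨hadj, fun u c h => Srv_near h, fun u c h => h.1,
      fun u hu => hρ₀ ▸ many_sites hadj tinj (hsepmono (by omega)) hC hu (hYhall hu),
      fun c => few_clients hadj (fun u hu u' hu' hne h => hY1 u hu u' hu' ⟨h, hne⟩) c⟩, ?_⟩
  intro Bm hBm hBA hBinj
  obtain ⟨dir, hdir, hdir'⟩ := exists_dir ht hadj hCm hBm hBA hBinj
  -- the good set
  set P : Set X := {u | u ∈ Y → ∃ c, (u, c) ∈ Bm} with hPdef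
  set X' : Set X := {x | ∀ y, G.Reachable x y → y ∈ P} with hX'def
  have hX' : ∀ x ∈ X', ∀ i, t i x ∈ X' := by
    intro x hx i y hy
    exact hx y ((SimpleGraph.Adj.reachable ((hadj x (t i x)).2 ⟨i, rfl⟩)).trans hy)
  -- proper colouring
  obtain ⟨w1, hw1, hw1'⟩ := exists_words G t ht hadj 1
  obtain ⟨c₁, hc₁, hc₁'⟩ := exists_colouring w1 hw1 {z : X × X | G.Adj z.1 z.2} hG
    (fun x y h => G.adj_symm h) (fun x h => G.loopless.irrefl x h)
    (fun x y h => (hw1' x y).1 (Nr.of_adj h))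
  obtain ⟨src, ch, ρ, hsrc, hch, hplan⟩ := exists_plan (K := 4 ^ 1 + 1) (X' := X')
    (R₀ := 3 * ρ₀) ht hadj tinj (hsepmono (by omega)) hCm hC hdir hc₁
    (fun x y h => hc₁' x y h) hX' (by
      intro x hx hxh
      obtain ⟨u, huY, hxu⟩ : ∃ u ∈ Y, Nr (hallG G C) (2 * ρ₀) x u := by
        rcases hY2 x hxh with h | ⟨u, hu, h⟩
        · exact ⟨x, h, Nr.refl _ _⟩
        · exact ⟨u, hu, h.1⟩
      have hreach : G.Reachable x u := by
        obtain ⟨p, -⟩ := Nr.mono_graph hle hxu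
        exact ⟨p⟩
      obtain ⟨c, hc⟩ := hx u hreach huY
      obtain ⟨p, hp, h1, h2⟩ := hdir' u c hc
      refine ⟨c, (hBA hc).2.1, p, hp, h1, ?_⟩
      have := hxu.trans h2
      exact this.mono (by omega))
  -- generators
  obtain ⟨wκ, hwκ, hwκq⟩ := exists_words G t ht hadj (2 * B₀ + 4)
  obtain ⟨κ, hκ, hκq⟩ := exists_colouring wκ hwκ
    ({z : X × X | Nr G (2 * B₀ + 4) z.1 z.2} \ {z | z.1 = z.2}) ((hNr _).diff hdiag)
    (fun x y h => ⟨h.1.symm, fun e => h.2 (Eq.symm e)⟩) (fun x h => h.2 rfl)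
    (fun x y h => (hwκq x y).1 h.1)
  have hplan' : Plan t X' B₀ src ch ρ := by
    rw [hB₀]
    exact hplan
  refine ⟨fun x => ⟨lab t κ src ch (B₀ + 1) x, lab_depth t κ src ch (B₀ + 1) x⟩, ?_, ?_⟩
  · intro v
    have h1 := measurable_lab ht (κ := κ) (fun k => hκ (measurableSet_singleton k)) hsrc hch
      (B₀ + 1) v.1
    have h2 : (fun x => (⟨lab t κ src ch (B₀ + 1) x, lab_depth t κ src ch (B₀ + 1) x⟩ :
        {t : Tm (4 ^ (2 * B₀ + 4) + 1) // t.depth ≤ B₀ + 1})) ⁻¹' {v} =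
        {x | lab t κ src ch (B₀ + 1) x = v.1} := by
      ext x
      simp [Subtype.ext_iff]
    rw [h2]
    exact h1
  · intro x hx y z hxy hyz
    have hyX' : y ∈ X' := fun z' hz' => hx z' (hxy.trans hz')
    obtain ⟨i, rfl⟩ := (hadj y z).1 hyz
    exact lab_hom hadj tinj hX' hsep (κ := κ)
      (fun a b hab h => hκq a b ⟨h, hab⟩) hplan' y hyX' i

end Pool.Agent.Helper75.MG
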